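import Pool.Agent.Helper42.Boot.WFun

set_option autoImplicit false

namespace Pool.Agent.Helper42.Boot

open Finset

/-- the function `-log(1-e^{-s})` -/
noncomputable def ff (s : ℝ) : ℝ := -Real.log (1 - Real.exp (-s))

theorem one_sub_exp_pos {s : ℝ} (hs : 0 < s) : 0 < 1 - Real.exp (-s) := by
  have : Real.exp (-s) < 1 := by rw [Real.exp_lt_one_iff]; linarith
  linarith

theorem one_sub_exp_lt_one (s : ℝ) : 1 - Real.exp (-s) < 1 := by
  have := Real.exp_pos (-s)
  linarith

theorem ff_pos {s : ℝ} (hs : 0 < s) : 0 < ff s := by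
  unfold ff
  have := Real.log_neg (one_sub_exp_pos hs) (one_sub_exp_lt_one s)
  linarith

theorem ff_anti {s t : ℝ} (hs : 0 < s) (hst : s ≤ t) : ff t ≤ ff s := by
  unfold ff
  have h1 : Real.exp (-t) ≤ Real.exp (-s) := Real.exp_le_exp.2 (by linarith)
  have := Real.log_le_log (one_sub_exp_pos hs) (by linarith : 1 - Real.exp (-s) ≤ 1 - Real.exp (-t))
  linarith

theorem exp_le_ff {s : ℝ} (hs : 0 < s) : Real.exp (-s) ≤ ff s := by
  unfold ff
  have := Real.log_le_sub_one_of_pos (one_sub_exp_pos hs)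
  linarith

theorem neg_log_le_ff {s : ℝ} (hs : 0 < s) : -Real.log s ≤ ff s := by
  unfold ff
  have h1 : 1 - Real.exp (-s) ≤ s := by
    have := Real.add_one_le_exp (-s)
    linarith
  have := Real.log_le_log (one_sub_exp_pos hs) h1
  linarith

theorem ff_le {s : ℝ} (hs : 0 < s) : ff s ≤ -Real.log s + s := by
  unfold ff
  have h1 : s * Real.exp (-s) ≤ 1 - Real.exp (-s) := by
    have h2 := Real.add_one_le_exp s
    have h3 : Real.exp s * Real.exp (-s) = 1 := by
      rw [← Real.exp_add]; simp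
    have h4 : (s + 1) * Real.exp (-s) ≤ Real.exp s * Real.exp (-s) :=
      mul_le_mul_of_nonneg_right h2 (Real.exp_pos _).le
    rw [h3] at h4
    linarith
  have h5 := Real.log_le_log (mul_pos hs (Real.exp_pos _)) h1
  rw [Real.log_mul (ne_of_gt hs) (ne_of_gt (Real.exp_pos _)), Real.log_exp] at h5
  linarith

theorem ff_le_two_exp {s : ℝ} (hs : 1 ≤ s) : ff s ≤ 2 * Real.exp (-s) := by
  unfold ff
  have hs0 : 0 < s := by linarith
  have hy : Real.exp (-s) ≤ 1 / 2 := by
    have h1 : Real.exp (-s) ≤ Real.exp (-1) := Real.exp_le_exp.2 (by linarith)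
    have h2 : Real.exp (-1) ≤ 1 / 2 := by
      rw [Real.exp_neg, one_div]
      apply inv_anti₀ (by norm_num)
      have := Real.add_one_le_exp (1 : ℝ)
      linarith
    linarith
  have h3 := Real.one_sub_inv_le_log_of_pos (one_sub_exp_pos hs0)
  have h4 : (1 - Real.exp (-s))⁻¹ ≤ 1 + 2 * Real.exp (-s) := by
    rw [inv_le_iff_one_le_mul₀ (one_sub_exp_pos hs0)]
    have := Real.exp_pos (-s)
    nlinarith
  linarith

theorem ff_diff {s h : ℝ} (hs : 0 < s) (hh : 0 ≤ h) :
    h / (Real.exp (s + h) - 1) ≤ ff s - ff (s + h) := by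
  have hsh : 0 < s + h := by linarith
  have p1 := one_sub_exp_pos hs
  have p2 := one_sub_exp_pos hsh
  have e1 : ff s - ff (s + h) = Real.log ((1 - Real.exp (-(s + h))) / (1 - Real.exp (-s))) := by
    unfold ff
    rw [Real.log_div (ne_of_gt p2) (ne_of_gt p1)]
    ring
  rw [e1]
  have h3 := Real.one_sub_inv_le_log_of_pos (div_pos p2 p1)
  refine le_trans ?_ h3
  rw [inv_div]
  have hE : 0 < Real.exp (s + h) - 1 := by
    have := Real.add_one_lt_exp (ne_of_gt hsh)
    linarith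
  rw [div_le_iff₀ hE]
  have e2 : Real.exp (-(s + h)) = (Real.exp (s + h))⁻¹ := Real.exp_neg _
  have e3 : Real.exp (-s) = Real.exp h * (Real.exp (s + h))⁻¹ := by
    rw [← Real.exp_neg, ← Real.exp_add]
    congr 1
    ring
  have hpos : 0 < Real.exp (s + h) := Real.exp_pos _
  have e4 : (1 - (1 - Real.exp (-s)) / (1 - Real.exp (-(s + h)))) * (Real.exp (s + h) - 1) =
      Real.exp h - 1 := by
    rw [e2, e3]
    rw [e2] at p2
    have hne : (1 - (Real.exp (s + h))⁻¹) ≠ 0 := ne_of_gt p2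
    have hne2 : Real.exp (s + h) ≠ 0 := ne_of_gt hpos
    have hne3 : Real.exp (s + h) - 1 ≠ 0 := ne_of_gt hE
    have e5 : 1 - (Real.exp (s + h))⁻¹ = (Real.exp (s + h) - 1) / Real.exp (s + h) := by
      field_simp
    rw [e5]
    field_simp
    ring
  rw [e4]
  have := Real.add_one_le_exp h
  linarith

theorem ff_conv {s h : ℝ} (hs : 0 < s) (hh : 0 ≤ h) :
    ff (s + h) - ff (s + h + h) ≤ ff s - ff (s + h) := by
  have hsh : 0 < s + h := by linarith
  have hshh : 0 < s + h + h := by linarith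
  have p1 := one_sub_exp_pos hs
  have p2 := one_sub_exp_pos hsh
  have p3 := one_sub_exp_pos hshh
  unfold ff
  have key : Real.log ((1 - Real.exp (-(s + h + h))) * (1 - Real.exp (-s))) ≤
      Real.log ((1 - Real.exp (-(s + h))) * (1 - Real.exp (-(s + h)))) := by
    apply Real.log_le_log (mul_pos p3 p1)
    have e1 : Real.exp (-(s + h)) = Real.exp (-s) * Real.exp (-h) := by
      rw [← Real.exp_add]; congr 1; ring
    have e2 : Real.exp (-(s + h + h)) = Real.exp (-s) * Real.exp (-h) * Real.exp (-h) := by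
      rw [← Real.exp_add, ← Real.exp_add]; congr 1; ring
    rw [e1, e2]
    have h1 : 0 ≤ Real.exp (-s) * (1 - Real.exp (-h)) ^ 2 :=
      mul_nonneg (Real.exp_pos _).le (sq_nonneg _)
    nlinarith
  rw [Real.log_mul (ne_of_gt p3) (ne_of_gt p1), Real.log_mul (ne_of_gt p2) (ne_of_gt p2)] at key
  linarith

theorem hasSum_ff {s : ℝ} (hs : 0 < s) :
    HasSum (fun n : ℕ => Real.exp (-s) ^ (n + 1) / ((n : ℝ) + 1)) (ff s) := by
  unfold ff
  apply Real.hasSum_pow_div_log_of_abs_lt_one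
  rw [abs_of_pos (Real.exp_pos _), Real.exp_lt_one_iff]
  linarith

theorem sum_le_ff {s : ℝ} (hs : 0 < s) (K : ℕ) :
    ∑ m ∈ range K, Real.exp (-(((m : ℝ) + 1) * s)) / ((m : ℝ) + 1) ≤ ff s := by
  have h := hasSum_ff hs
  have h2 : ∑ m ∈ range K, Real.exp (-s) ^ (m + 1) / ((m : ℝ) + 1) ≤ ff s := by
    apply sum_le_hasSum (range K) _ h
    intro i _
    positivity
  refine le_trans (le_of_eq ?_) h2
  apply Finset.sum_congr rfl
  intro m _
  rw [← Real.exp_nat_mul]
  congr 2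
  push_cast
  ring

/-- the rate `q = -log(1-p)` -/
noncomputable def qq (p : ℝ) : ℝ := -Real.log (1 - p)

theorem exp_neg_qq {p : ℝ} (h1 : p < 1) : Real.exp (-(qq p)) = 1 - p := by
  unfold qq
  rw [neg_neg, Real.exp_log (by linarith)]

theorem le_qq {p : ℝ} (h1 : p < 1) : p ≤ qq p := by
  unfold qq
  have := Real.log_le_sub_one_of_pos (by linarith : 0 < 1 - p)
  linarith

theorem qq_le {p : ℝ} (h1 : p < 1) : qq p ≤ p / (1 - p) := by
  unfold qq
  have hp : 0 < 1 - p := by linarith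
  have := Real.one_sub_inv_le_log_of_pos hp
  have e : p / (1 - p) = (1 - p)⁻¹ - 1 := by
    field_simp
    ring
  rw [e]
  linarith

theorem qq_le_two {p : ℝ} (h0 : 0 < p) (h1 : p ≤ 1 / 2) : qq p ≤ 2 * p := by
  refine (qq_le (by linarith)).trans ?_
  rw [div_le_iff₀ (by linarith)]
  nlinarith

theorem qq_pos {p : ℝ} (h0 : 0 < p) (h1 : p < 1) : 0 < qq p := lt_of_lt_of_le h0 (le_qq h1)

theorem inv_qq_ge {p : ℝ} (h0 : 0 < p) (h1 : p < 1) : 1 / p - 1 ≤ 1 / qq p := by
  have hq := qq_pos h0 h1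
  have h2 := qq_le h1
  have h3 : 1 / (p / (1 - p)) ≤ 1 / qq p := one_div_le_one_div_of_le hq h2
  have e : 1 / (p / (1 - p)) = 1 / p - 1 := by
    have : (1 - p) ≠ 0 := by linarith
    field_simp
  linarith

/-- `1-(1-p)^n = exp(-ff(q n))`. -/
theorem one_sub_pow_eq {p : ℝ} (h0 : 0 < p) (h1 : p < 1) {n : ℕ} (hn : 1 ≤ n) :
    1 - (1 - p) ^ n = Real.exp (-(ff (qq p * n))) := by
  have hq := qq_pos h0 h1
  have hn' : (0 : ℝ) < n := by exact_mod_cast hn
  have hs : 0 < qq p * n := mul_pos hq hn'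
  unfold ff
  rw [neg_neg, Real.exp_log (one_sub_exp_pos hs)]
  have : Real.exp (-(qq p * n)) = (1 - p) ^ n := by
    rw [← exp_neg_qq h1, ← Real.exp_nat_mul]
    congr 1
    ring
  rw [this]

/-- shifted, lowered cost function -/
noncomputable def gcost (q : ℝ) (x0 : ℕ) (e : ℝ) (i : ℕ) : ℝ := ff (q * ((i : ℝ) + x0)) - e

noncomputable def wcost (q : ℝ) (x0 : ℕ) (e : ℝ) (i : ℕ) : ℝ := max (gcost q x0 e i) 0

theorem gcost_anti {q : ℝ} (hq : 0 < q) {x0 : ℕ} (hx : 1 ≤ x0) (e : ℝ) {i j : ℕ} (h : i ≤ j) :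
    gcost q x0 e j ≤ gcost q x0 e i := by
  unfold gcost
  have hx' : (0 : ℝ) < x0 := by exact_mod_cast hx
  have hi : (0 : ℝ) ≤ (i : ℝ) := Nat.cast_nonneg _
  have hij : (i : ℝ) ≤ (j : ℝ) := by exact_mod_cast h
  have := ff_anti (s := q * ((i : ℝ) + x0)) (t := q * ((j : ℝ) + x0)) (by positivity)
    (mul_le_mul_of_nonneg_left (by linarith) hq.le)
  linarith

theorem wcost_cost {q : ℝ} (hq : 0 < q) {x0 : ℕ} (hx : 1 ≤ x0) (e : ℝ) :
    Cost (wcost q x0 e) := by
  have hx' : (0 : ℝ) < x0 := by exact_mod_cast hx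
  refine ⟨?_, ?_, ?_⟩
  · intro i
    unfold wcost
    exact max_le_max (gcost_anti hq hx e (Nat.le_succ i)) (le_refl _)
  · intro i
    exact le_max_right _ _
  · intro i
    have hi : (0 : ℝ) ≤ (i : ℝ) := Nat.cast_nonneg _
    have c := ff_conv (s := q * ((i : ℝ) + x0)) (h := q) (by positivity) hq.le
    have e1 : q * ((i : ℝ) + x0) + q = q * (((i + 1 : ℕ) : ℝ) + x0) := by push_cast; ring
    have e2 : q * (((i + 1 : ℕ) : ℝ) + x0) + q = q * (((i + 2 : ℕ) : ℝ) + x0) := by
      push_cast; ring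
    rw [e1, e2] at c
    have c' : gcost q x0 e (i + 1) - gcost q x0 e (i + 2) ≤
        gcost q x0 e i - gcost q x0 e (i + 1) := by
      unfold gcost
      linarith
    have a1 := gcost_anti hq hx e (Nat.le_succ i)
    have a2 := gcost_anti hq hx e (Nat.le_succ (i + 1))
    simp only [Nat.succ_eq_add_one] at a1 a2
    have a3 : i + 1 + 1 = i + 2 := rfl
    rw [a3] at a2
    unfold wcost
    set g0 := gcost q x0 e i
    set g1 := gcost q x0 e (i + 1)
    set g2 := gcost q x0 e (i + 2)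
    rcases le_total g2 0 with h2 | h2
    · rw [max_eq_right h2]
      rcases le_total g1 0 with h1 | h1
      · rw [max_eq_right h1]
        have := le_max_right g0 0
        linarith
      · rw [max_eq_left h1]
        have := le_max_left g0 0
        linarith
    · rw [max_eq_left h2, max_eq_left (h2.trans a2), max_eq_left ((h2.trans a2).trans a1)]
      exact c'

theorem exp_sub_one_le {y : ℝ} (h0 : 0 ≤ y) (h2 : y ≤ 2) : Real.exp y - 1 ≤ 4 * y := by
  have hc := convexOn_exp.2 (Set.mem_univ (0 : ℝ)) (Set.mem_univ (2 : ℝ))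
    (by linarith : 0 ≤ 1 - y / 2) (by linarith : 0 ≤ y / 2) (by ring)
  simp only [smul_eq_mul, mul_zero, zero_add, Real.exp_zero, mul_one] at hc
  have e : y / 2 * 2 = y := by ring
  rw [e] at hc
  have h3 : Real.exp 2 ≤ 9 := by
    have h4 : Real.exp 1 < 2.7182818286 := Real.exp_one_lt_d9
    have h5 : Real.exp 2 = Real.exp 1 * Real.exp 1 := by
      rw [← Real.exp_add]; norm_num
    rw [h5]
    have h6 := Real.exp_pos 1
    nlinarith
  nlinarith

end Pool.Agent.Helper42.Boot
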