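import Mathlib

set_option autoImplicit false

namespace Pool.Agent.Helper42.Boot

open Finset

/-- A rectangle of sites `[x1,x2) × [y1,y2)`. -/
structure Rect where
  x1 : ℕ
  x2 : ℕ
  y1 : ℕ
  y2 : ℕ
deriving DecidableEq

namespace Rect

def valid (R : Rect) : Prop := R.x1 < R.x2 ∧ R.y1 < R.y2

/-- width -/
def wd (R : Rect) : ℕ := R.x2 - R.x1

/-- height -/
def ht (R : Rect) : ℕ := R.y2 - R.y1

/-- half perimeter -/
def phi (R : Rect) : ℕ := (R.x2 - R.x1) + (R.y2 - R.y1)

def sites (R : Rect) : Finset (ℕ × ℕ) := Finset.Ico R.x1 R.x2 ×ˢ Finset.Ico R.y1 R.y2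

def sub (R S : Rect) : Prop := S.x1 ≤ R.x1 ∧ R.x2 ≤ S.x2 ∧ S.y1 ≤ R.y1 ∧ R.y2 ≤ S.y2

def touch (R S : Rect) : Prop := R.x1 ≤ S.x2 ∧ S.x1 ≤ R.x2 ∧ R.y1 ≤ S.y2 ∧ S.y1 ≤ R.y2

def hull (R S : Rect) : Rect :=
  ⟨min R.x1 S.x1, max R.x2 S.x2, min R.y1 S.y1, max R.y2 S.y2⟩

theorem mem_sites {R : Rect} {v : ℕ × ℕ} :
    v ∈ R.sites ↔ (R.x1 ≤ v.1 ∧ v.1 < R.x2) ∧ (R.y1 ≤ v.2 ∧ v.2 < R.y2) := by
  unfold sites
  rw [Finset.mem_product, Finset.mem_Ico, Finset.mem_Ico]

theorem sites_card (R : Rect) : R.sites.card = R.wd * R.ht := by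
  unfold sites wd ht
  rw [Finset.card_product, Nat.card_Ico, Nat.card_Ico]

theorem sub_refl (R : Rect) : R.sub R := ⟨le_refl _, le_refl _, le_refl _, le_refl _⟩

theorem sub_trans {R S T : Rect} (h1 : R.sub S) (h2 : S.sub T) : R.sub T :=
  ⟨h2.1.trans h1.1, h1.2.1.trans h2.2.1, h2.2.2.1.trans h1.2.2.1, h1.2.2.2.trans h2.2.2.2⟩

theorem sites_subset {R S : Rect} (h : R.sub S) : R.sites ⊆ S.sites := by
  intro v hv
  rw [mem_sites] at hv ⊢
  obtain ⟨h1, h2, h3, h4⟩ := h
  omega

theorem sub_hull_left (R S : Rect) : R.sub (R.hull S) := by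
  unfold sub hull
  simp

theorem sub_hull_right (R S : Rect) : S.sub (R.hull S) := by
  unfold sub hull
  simp

end Rect

open Rect

/-- `Gen A R`: the finite set of sites `A` generates the rectangle `R` by successive merging of
touching rectangles, each obtained from disjoint subsets of `A`. -/
inductive Gen : Finset (ℕ × ℕ) → Rect → Prop
  | single (i j : ℕ) : Gen {(i, j)} ⟨i, i + 1, j, j + 1⟩
  | merge {A B : Finset (ℕ × ℕ)} {R S : Rect} : Gen A R → Gen B S → Disjoint A B →
      R.touch S → ¬ R.sub S → ¬ S.sub R → Gen (A ∪ B) (R.hull S)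

theorem Gen.valid {A : Finset (ℕ × ℕ)} {R : Rect} (h : Gen A R) : R.valid := by
  induction h with
  | single i j => unfold Rect.valid; simp
  | merge _ _ _ _ _ _ ih1 ih2 =>
    unfold Rect.valid Rect.hull at *
    simp only
    omega

theorem Gen.col {A : Finset (ℕ × ℕ)} {R : Rect} (h : Gen A R) :
    ∀ i, R.x1 ≤ i → i < R.x2 → ∃ j, (i, j) ∈ A := by
  induction h with
  | single i j =>
    intro i' h1 h2
    simp only at h1 h2
    have : i' = i := by omega
    subst this
    exact ⟨j, by simp⟩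
  | @merge A B R S h1 h2 hd ht hn1 hn2 ih1 ih2 =>
    intro i hi1 hi2
    have v1 := h1.valid
    have v2 := h2.valid
    unfold Rect.valid at v1 v2
    unfold Rect.touch at ht
    unfold Rect.hull at hi1 hi2
    simp only at hi1 hi2
    by_cases hc : R.x1 ≤ i ∧ i < R.x2
    · obtain ⟨j, hj⟩ := ih1 i hc.1 hc.2
      exact ⟨j, Finset.mem_union_left _ hj⟩
    · have hc' : S.x1 ≤ i ∧ i < S.x2 := by omega
      obtain ⟨j, hj⟩ := ih2 i hc'.1 hc'.2
      exact ⟨j, Finset.mem_union_right _ hj⟩

theorem Gen.row {A : Finset (ℕ × ℕ)} {R : Rect} (h : Gen A R) :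
    ∀ j, R.y1 ≤ j → j < R.y2 → ∃ i, (i, j) ∈ A := by
  induction h with
  | single i j =>
    intro j' h1 h2
    simp only at h1 h2
    have : j' = j := by omega
    subst this
    exact ⟨i, by simp⟩
  | @merge A B R S h1 h2 hd ht hn1 hn2 ih1 ih2 =>
    intro i hi1 hi2
    have v1 := h1.valid
    have v2 := h2.valid
    unfold Rect.valid at v1 v2
    unfold Rect.touch at ht
    unfold Rect.hull at hi1 hi2
    simp only at hi1 hi2
    by_cases hc : R.y1 ≤ i ∧ i < R.y2
    · obtain ⟨j, hj⟩ := ih1 i hc.1 hc.2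
      exact ⟨j, Finset.mem_union_left _ hj⟩
    · have hc' : S.y1 ≤ i ∧ i < S.y2 := by omega
      obtain ⟨j, hj⟩ := ih2 i hc'.1 hc'.2
      exact ⟨j, Finset.mem_union_right _ hj⟩

theorem Gen.subset_sites {A : Finset (ℕ × ℕ)} {R : Rect} (h : Gen A R) : A ⊆ R.sites := by
  induction h with
  | single i j =>
    intro v hv
    rw [Finset.mem_singleton] at hv
    subst hv
    rw [Rect.mem_sites]
    simp
  | @merge A B R S h1 h2 hd ht hn1 hn2 ih1 ih2 =>
    intro v hv
    rw [Finset.mem_union] at hv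
    rcases hv with hv | hv
    · exact Rect.sites_subset (Rect.sub_hull_left R S) (ih1 hv)
    · exact Rect.sites_subset (Rect.sub_hull_right R S) (ih2 hv)

/-- Decomposition of a generated rectangle: a growth step of bounded size or a merge of two
rectangles both with large half perimeter. -/
theorem Gen.dec {A : Finset (ℕ × ℕ)} {R : Rect} (h : Gen A R) (ℓ τ : ℕ) (T : Rect)
    (hRT : R.sub T) (hphi : T.phi < R.phi + ℓ) (hT : ℓ + 2 ≤ T.phi) :
    (∃ R' : Rect, ∃ A' ⊆ A, Gen A' R' ∧ R'.sub T ∧ R'.phi + ℓ ≤ T.phi ∧ T.phi ≤ R'.phi + ℓ + τ) ∨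
    (∃ R' S : Rect, ∃ A' ⊆ A, ∃ B' ⊆ A, Disjoint A' B' ∧ Gen A' R' ∧ Gen B' S ∧ R'.touch S ∧
      ¬ R'.sub S ∧ ¬ S.sub R' ∧ (R'.hull S).sub T ∧ T.phi < (R'.hull S).phi + ℓ ∧
      τ ≤ R'.phi ∧ τ ≤ S.phi) := by
  induction h with
  | single i j =>
    exfalso
    unfold Rect.phi at hphi hT
    simp only at hphi
    omega
  | @merge A B R S h1 h2 hd ht hn1 hn2 ih1 ih2 =>
    have v1 := h1.valid
    have v2 := h2.valid
    have hsum : (R.hull S).phi ≤ R.phi + S.phi := by
      unfold Rect.valid at v1 v2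
      unfold Rect.touch at ht
      unfold Rect.phi Rect.hull
      simp only
      omega
    have s1 : R.sub T := Rect.sub_trans (Rect.sub_hull_left R S) hRT
    have s2 : S.sub T := Rect.sub_trans (Rect.sub_hull_right R S) hRT
    by_cases hR : τ ≤ R.phi
    · by_cases hS : τ ≤ S.phi
      · right
        exact ⟨R, S, A, Finset.subset_union_left, B, Finset.subset_union_right, hd, h1, h2, ht,
          hn1, hn2, hRT, hphi, hR, hS⟩
      · by_cases hc : R.phi + ℓ ≤ T.phi
        · left
          refine ⟨R, A, Finset.subset_union_left, h1, s1, hc, ?_⟩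
          omega
        · rcases ih1 s1 (by omega) with ⟨R', A', hA', hr⟩ | ⟨R', S', A', hA', B', hB', hr⟩
          · left
            exact ⟨R', A', hA'.trans Finset.subset_union_left, hr⟩
          · right
            exact ⟨R', S', A', hA'.trans Finset.subset_union_left, B',
              hB'.trans Finset.subset_union_left, hr⟩
    · by_cases hc : S.phi + ℓ ≤ T.phi
      · left
        refine ⟨S, B, Finset.subset_union_right, h2, s2, hc, ?_⟩
        omega
      · rcases ih2 s2 (by omega) with ⟨R', A', hA', hr⟩ | ⟨R', S', A', hA', B', hB', hr⟩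
        · left
          exact ⟨R', A', hA'.trans Finset.subset_union_right, hr⟩
        · right
          exact ⟨R', S', A', hA'.trans Finset.subset_union_right, B',
            hB'.trans Finset.subset_union_right, hr⟩

/-- First time that the larger side reaches `B`. -/
theorem Gen.dec_big {A : Finset (ℕ × ℕ)} {R : Rect} (h : Gen A R) (b : ℕ) (hb : 2 ≤ b)
    (hR : b ≤ R.wd ∨ b ≤ R.ht) :
    ∃ R' S : Rect, ∃ A' ⊆ A, ∃ B' ⊆ A, Disjoint A' B' ∧ Gen A' R' ∧ Gen B' S ∧ R'.touch S ∧
      (R'.hull S).sub R ∧ (R'.wd < b ∧ R'.ht < b) ∧ (S.wd < b ∧ S.ht < b) ∧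
      (b ≤ (R'.hull S).wd ∨ b ≤ (R'.hull S).ht) := by
  induction h with
  | single i j =>
    exfalso
    unfold Rect.wd Rect.ht at hR
    simp only at hR
    omega
  | @merge A B R S h1 h2 hd ht hn1 hn2 ih1 ih2 =>
    by_cases c1 : b ≤ R.wd ∨ b ≤ R.ht
    · obtain ⟨R', S', A', hA', B', hB', q1, q2, q3, q4, q5, q6⟩ := ih1 c1
      exact ⟨R', S', A', hA'.trans Finset.subset_union_left, B',
        hB'.trans Finset.subset_union_left, q1, q2, q3, q4,
        Rect.sub_trans q5 (Rect.sub_hull_left R S), q6⟩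
    · by_cases c2 : b ≤ S.wd ∨ b ≤ S.ht
      · obtain ⟨R', S', A', hA', B', hB', q1, q2, q3, q4, q5, q6⟩ := ih2 c2
        exact ⟨R', S', A', hA'.trans Finset.subset_union_right, B',
          hB'.trans Finset.subset_union_right, q1, q2, q3, q4,
          Rect.sub_trans q5 (Rect.sub_hull_right R S), q6⟩
      · push Not at c1 c2
        exact ⟨R, S, A, Finset.subset_union_left, B, Finset.subset_union_right, hd, h1, h2, ht,
          Rect.sub_refl _, c1, c2, hR⟩

/-- the sites `u` and `v` are horizontal neighbours -/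
def hadj (u v : ℕ × ℕ) : Prop := u.2 = v.2 ∧ (u.1 + 1 = v.1 ∨ v.1 + 1 = u.1)

/-- the sites `u` and `v` are vertical neighbours -/
def vadj (u v : ℕ × ℕ) : Prop := u.1 = v.1 ∧ (u.2 + 1 = v.2 ∨ v.2 + 1 = u.2)

/-- `S` is closed under the modified rule at all sites of `V`. -/
def ClosedOn (V : Finset (ℕ × ℕ)) (S : Finset (ℕ × ℕ)) : Prop :=
  ∀ v ∈ V, ((∃ u ∈ S, hadj u v) ∧ (∃ u ∈ S, vadj u v)) → v ∈ S

/-- `A` spans `V` using only infections inside `V`. -/
def Spans (V : Finset (ℕ × ℕ)) (A : Finset (ℕ × ℕ)) : Prop :=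
  ∀ S : Finset (ℕ × ℕ), A ⊆ S → ClosedOn V S → V ⊆ S

/-- the full grid `[0,n)²` -/
def grid (n : ℕ) : Rect := ⟨0, n, 0, n⟩

/-- If `A` percolates on the grid then a subset of `A` generates the grid by merging. -/
theorem exists_gen_of_spans {n : ℕ} (hn : 0 < n) {A : Finset (ℕ × ℕ)}
    (hA : A ⊆ (grid n).sites) (hperc : Spans (grid n).sites A) :
    ∃ A' ⊆ A, Gen A' (grid n) := by
  classical
  -- good families
  let Good : Finset (Finset (ℕ × ℕ) × Rect) → Prop := fun F =>
    (∀ x ∈ F, x.1 ⊆ A ∧ Gen x.1 x.2) ∧ (∀ x ∈ F, ∀ y ∈ F, x ≠ y → Disjoint x.1 y.1) ∧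
    (∀ v ∈ A, ∃ x ∈ F, v ∈ x.2.sites)
  have hex : ∃ m : ℕ, ∃ F, Good F ∧ F.card = m := by
    refine ⟨_, A.image (fun v => (({v} : Finset (ℕ × ℕ)), (⟨v.1, v.1 + 1, v.2, v.2 + 1⟩ : Rect))),
      ⟨?_, ?_, ?_⟩, rfl⟩
    · intro x hx
      rw [Finset.mem_image] at hx
      obtain ⟨v, hv, rfl⟩ := hx
      exact ⟨by simpa using hv, Gen.single v.1 v.2⟩
    · intro x hx y hy hxy
      rw [Finset.mem_image] at hx hy
      obtain ⟨v, hv, rfl⟩ := hx
      obtain ⟨w, hw, rfl⟩ := hy
      simp only [Finset.disjoint_singleton]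
      rintro rfl
      exact hxy rfl
    · intro v hv
      refine ⟨_, Finset.mem_image_of_mem _ hv, ?_⟩
      rw [Rect.mem_sites]
      simp
  obtain ⟨F, hF, hFc⟩ := Nat.find_spec hex
  have hmin : ∀ F', Good F' → F.card ≤ F'.card := by
    intro F' hF'
    rw [hFc]
    exact Nat.find_min' hex ⟨F', hF', rfl⟩
  -- no two members touch
  have hnt : ∀ x ∈ F, ∀ y ∈ F, x ≠ y → ¬ x.2.touch y.2 := by
    intro x hx y hy hxy htouch
    by_cases c1 : x.2.sub y.2
    · have hg : Good (F.erase x) := by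
        refine ⟨fun z hz => hF.1 z (Finset.mem_of_mem_erase hz),
          fun z hz z' hz' h => hF.2.1 z (Finset.mem_of_mem_erase hz) z'
            (Finset.mem_of_mem_erase hz') h, ?_⟩
        intro v hv
        obtain ⟨z, hz, hvz⟩ := hF.2.2 v hv
        by_cases hzx : z = x
        · subst hzx
          exact ⟨y, Finset.mem_erase.2 ⟨fun h => hxy h.symm, hy⟩, Rect.sites_subset c1 hvz⟩
        · exact ⟨z, Finset.mem_erase.2 ⟨hzx, hz⟩, hvz⟩
      have h1 := hmin _ hg
      have h2 := Finset.card_erase_lt_of_mem hx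
      omega
    · by_cases c2 : y.2.sub x.2
      · have hg : Good (F.erase y) := by
          refine ⟨fun z hz => hF.1 z (Finset.mem_of_mem_erase hz),
            fun z hz z' hz' h => hF.2.1 z (Finset.mem_of_mem_erase hz) z'
              (Finset.mem_of_mem_erase hz') h, ?_⟩
          intro v hv
          obtain ⟨z, hz, hvz⟩ := hF.2.2 v hv
          by_cases hzx : z = y
          · subst hzx
            exact ⟨x, Finset.mem_erase.2 ⟨hxy, hx⟩, Rect.sites_subset c2 hvz⟩
          · exact ⟨z, Finset.mem_erase.2 ⟨hzx, hz⟩, hvz⟩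
        have h1 := hmin _ hg
        have h2 := Finset.card_erase_lt_of_mem hy
        omega
      · have hy' : y ∈ F.erase x := Finset.mem_erase.2 ⟨fun h => hxy h.symm, hy⟩
        have hg : Good (insert (x.1 ∪ y.1, x.2.hull y.2) ((F.erase x).erase y)) := by
          refine ⟨?_, ?_, ?_⟩
          · intro z hz
            rw [Finset.mem_insert] at hz
            rcases hz with rfl | hz
            · exact ⟨Finset.union_subset (hF.1 x hx).1 (hF.1 y hy).1,
                Gen.merge (hF.1 x hx).2 (hF.1 y hy).2 (hF.2.1 x hx y hy hxy) htouch c1 c2⟩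
            · exact hF.1 z (Finset.mem_of_mem_erase (Finset.mem_of_mem_erase hz))
          · have aux : ∀ z ∈ (F.erase x).erase y, Disjoint (x.1 ∪ y.1) z.1 := by
              intro z hz
              rw [Finset.mem_erase, Finset.mem_erase] at hz
              rw [Finset.disjoint_union_left]
              exact ⟨hF.2.1 x hx z hz.2.2 (fun h => hz.2.1 h.symm),
                hF.2.1 y hy z hz.2.2 (fun h => hz.1 h.symm)⟩
            intro z hz z' hz' hne
            rw [Finset.mem_insert] at hz hz'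
            rcases hz with rfl | hz
            · rcases hz' with rfl | hz'
              · exact absurd rfl hne
              · exact aux z' hz'
            · rcases hz' with rfl | hz'
              · exact (aux z hz).symm
              · exact hF.2.1 z (Finset.mem_of_mem_erase (Finset.mem_of_mem_erase hz)) z'
                  (Finset.mem_of_mem_erase (Finset.mem_of_mem_erase hz')) hne
          · intro v hv
            obtain ⟨z, hz, hvz⟩ := hF.2.2 v hv
            by_cases hzx : z = x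
            · subst hzx
              exact ⟨_, Finset.mem_insert_self _ _,
                Rect.sites_subset (Rect.sub_hull_left _ _) hvz⟩
            · by_cases hzy : z = y
              · subst hzy
                exact ⟨_, Finset.mem_insert_self _ _,
                  Rect.sites_subset (Rect.sub_hull_right _ _) hvz⟩
              · exact ⟨z, Finset.mem_insert_of_mem (Finset.mem_erase.2 ⟨hzy,
                  Finset.mem_erase.2 ⟨hzx, hz⟩⟩), hvz⟩
        have h1 := hmin _ hg
        have h2 := Finset.card_erase_lt_of_mem hx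
        have h3 := Finset.card_erase_lt_of_mem hy'
        have h4 := Finset.card_insert_le (x.1 ∪ y.1, x.2.hull y.2) ((F.erase x).erase y)
        omega
  -- rectangles of the family are inside the grid
  have hgrid : ∀ x ∈ F, x.2.sub (grid n) := by
    intro x hx
    obtain ⟨hxA, hgen⟩ := hF.1 x hx
    have hv := hgen.valid
    unfold Rect.valid at hv
    obtain ⟨j, hj⟩ := hgen.col (x.2.x2 - 1) (by omega) (by omega)
    obtain ⟨i, hi⟩ := hgen.row (x.2.y2 - 1) (by omega) (by omega)
    have h1 := hA (hxA hj)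
    have h2 := hA (hxA hi)
    rw [Rect.mem_sites] at h1 h2
    unfold grid at h1 h2 ⊢
    unfold Rect.sub
    simp only at h1 h2 ⊢
    omega
  -- the union is closed
  have hcl : ClosedOn (grid n).sites (F.biUnion (fun x => x.2.sites)) := by
    rintro v _ ⟨⟨u, hu, huv⟩, ⟨u', hu', hu'v⟩⟩
    rw [Finset.mem_biUnion] at hu hu' ⊢
    obtain ⟨x, hx, hux⟩ := hu
    obtain ⟨y, hy, huy⟩ := hu'
    have hxy : x = y := by
      by_contra hne
      apply hnt x hx y hy hne
      rw [Rect.mem_sites] at hux huy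
      unfold hadj at huv
      unfold vadj at hu'v
      unfold Rect.touch
      omega
    subst hxy
    refine ⟨x, hx, ?_⟩
    rw [Rect.mem_sites] at hux huy ⊢
    unfold hadj at huv
    unfold vadj at hu'v
    omega
  have hAS : A ⊆ F.biUnion (fun x => x.2.sites) := by
    intro v hv
    obtain ⟨x, hx, hvx⟩ := hF.2.2 v hv
    exact Finset.mem_biUnion.2 ⟨x, hx, hvx⟩
  have hfull := hperc _ hAS hcl
  have h00 : ((0 : ℕ), (0 : ℕ)) ∈ (grid n).sites := by
    rw [Rect.mem_sites]; unfold grid; simp only; omega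
  obtain ⟨x, hx, hx0⟩ := Finset.mem_biUnion.1 (hfull h00)
  have hsub := hgrid x hx
  have hx0' := hx0
  rw [Rect.mem_sites] at hx0'
  unfold Rect.sub grid at hsub
  simp only at hsub hx0'
  have e2 : x.2.x2 = n := by
    by_contra hne
    have hm : ((x.2.x2 : ℕ), (0 : ℕ)) ∈ (grid n).sites := by
      rw [Rect.mem_sites]; unfold grid; simp only; omega
    obtain ⟨y, hy, hy0⟩ := Finset.mem_biUnion.1 (hfull hm)
    rw [Rect.mem_sites] at hy0
    simp only at hy0
    have hne' : x ≠ y := by
      rintro rfl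
      omega
    apply hnt x hx y hy hne'
    unfold Rect.touch
    omega
  have e4 : x.2.y2 = n := by
    by_contra hne
    have hm : ((0 : ℕ), (x.2.y2 : ℕ)) ∈ (grid n).sites := by
      rw [Rect.mem_sites]; unfold grid; simp only; omega
    obtain ⟨y, hy, hy0⟩ := Finset.mem_biUnion.1 (hfull hm)
    rw [Rect.mem_sites] at hy0
    simp only at hy0
    have hne' : x ≠ y := by
      rintro rfl
      omega
    apply hnt x hx y hy hne'
    unfold Rect.touch
    omega
  have hxg : x.2 = grid n := by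
    have e1 : x.2.x1 = 0 := by omega
    have e3 : x.2.y1 = 0 := by omega
    obtain ⟨a, ⟨b1, b2, b3, b4⟩⟩ := x
    unfold grid
    simp only at e1 e2 e3 e4
    subst e1 e2 e3
    simp [e4]
  refine ⟨x.1, (hF.1 x hx).1, ?_⟩
  rw [← hxg]
  exact (hF.1 x hx).2

end Pool.Agent.Helper42.Boot
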