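import Pool.Agent.Helper42.Boot.Prob
import Pool.Agent.Helper42.Boot.Rect

set_option autoImplicit false

namespace Pool.Agent.Helper42.Boot

open Finset

/-- the embedding of the coordinates -/
def emb (n : ℕ) : Fin n × Fin n ↪ ℕ × ℕ :=
  ⟨fun v => ((v.1 : ℕ), (v.2 : ℕ)), by
    intro v w h
    simp only [Prod.mk.injEq] at h
    exact Prod.ext (Fin.ext h.1) (Fin.ext h.2)⟩

theorem emb_apply {n : ℕ} (v : Fin n × Fin n) : emb n v = ((v.1 : ℕ), (v.2 : ℕ)) := rfl

theorem mem_grid {n : ℕ} {v : ℕ × ℕ} : v ∈ (grid n).sites ↔ v.1 < n ∧ v.2 < n := by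
  rw [Rect.mem_sites]
  unfold grid
  simp

theorem grid_card (n : ℕ) : (grid n).sites.card = n ^ 2 := by
  rw [Rect.sites_card]
  unfold Rect.wd Rect.ht grid
  simp [pow_two]

theorem emb_mem_grid {n : ℕ} (v : Fin n × Fin n) : emb n v ∈ (grid n).sites := by
  rw [mem_grid]
  exact ⟨v.1.isLt, v.2.isLt⟩

theorem exists_emb {n : ℕ} {v : ℕ × ℕ} (hv : v ∈ (grid n).sites) : ∃ w, emb n w = v := by
  rw [mem_grid] at hv
  exact ⟨(⟨v.1, hv.1⟩, ⟨v.2, hv.2⟩), rfl⟩

/-- The event of the frozen statement. -/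
def Perc (n : ℕ) (A : Finset (Fin n × Fin n)) : Prop :=
  ∀ S : Finset (Fin n × Fin n), A ⊆ S →
    (∀ v : Fin n × Fin n,
      ((∃ u ∈ S, u.2 = v.2 ∧ ((u.1 : ℕ) + 1 = v.1 ∨ (v.1 : ℕ) + 1 = u.1)) ∧
       (∃ u ∈ S, u.1 = v.1 ∧ ((u.2 : ℕ) + 1 = v.2 ∨ (v.2 : ℕ) + 1 = u.2))) →
      v ∈ S) →
    S = Finset.univ

theorem perc_iff {n : ℕ} (A : Finset (Fin n × Fin n)) :
    Perc n A ↔ Spans (grid n).sites (A.map (emb n)) := by
  classical
  constructor
  · intro h S hAS hcl w hw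
    have h1 := h (Finset.univ.filter (fun v => emb n v ∈ S)) ?_ ?_
    · obtain ⟨w', rfl⟩ := exists_emb hw
      have : w' ∈ Finset.univ.filter (fun v => emb n v ∈ S) := by rw [h1]; exact mem_univ _
      rw [mem_filter] at this
      exact this.2
    · intro v hv
      rw [mem_filter]
      exact ⟨mem_univ _, hAS (mem_map_of_mem _ hv)⟩
    · rintro v ⟨⟨u, hu, hu1, hu2⟩, ⟨u', hu', hu1', hu2'⟩⟩
      rw [mem_filter] at hu hu' ⊢
      refine ⟨mem_univ _, hcl _ (emb_mem_grid v) ⟨⟨_, hu.2, ?_, ?_⟩, ⟨_, hu'.2, ?_, ?_⟩⟩⟩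
      · rw [emb_apply, emb_apply, hu1]
      · rw [emb_apply, emb_apply]; exact hu2
      · rw [emb_apply, emb_apply, hu1']
      · rw [emb_apply, emb_apply]; exact hu2'
  · intro h S hAS hcl
    have h1 := h (S.map (emb n)) (map_subset_map.2 hAS) ?_
    · rw [Finset.eq_univ_iff_forall]
      intro v
      have := h1 (emb_mem_grid v)
      rwa [mem_map' ] at this
    · rintro w hw ⟨⟨u, hu, hu1, hu2⟩, ⟨u', hu', hu1', hu2'⟩⟩
      obtain ⟨w', rfl⟩ := exists_emb hw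
      rw [mem_map] at hu hu'
      obtain ⟨u0, hu0, rfl⟩ := hu
      obtain ⟨u0', hu0', rfl⟩ := hu'
      rw [emb_apply, emb_apply] at hu1 hu2 hu1' hu2'
      simp only at hu1 hu2 hu1' hu2'
      rw [mem_map']
      exact hcl w' ⟨⟨u0, hu0, Fin.ext hu1, hu2⟩, ⟨u0', hu0', Fin.ext hu1', hu2'⟩⟩

open scoped Classical in
theorem bridge (n : ℕ) (p : ℝ) :
    (∑ A : Finset (Fin n × Fin n),
            (if (∀ S : Finset (Fin n × Fin n), A ⊆ S →
                  (∀ v : Fin n × Fin n,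
                    ((∃ u ∈ S, u.2 = v.2 ∧ ((u.1 : ℕ) + 1 = v.1 ∨ (v.1 : ℕ) + 1 = u.1)) ∧
                     (∃ u ∈ S, u.1 = v.1 ∧ ((u.2 : ℕ) + 1 = v.2 ∨ (v.2 : ℕ) + 1 = u.2))) →
                    v ∈ S) →
                  S = Finset.univ)
              then p ^ A.card * (1 - p) ^ (n ^ 2 - A.card) else 0)) =
      Pr p (grid n).sites (Spans (grid n).sites) := by
  unfold Pr
  refine Finset.sum_bij (fun A _ => A.map (emb n)) ?_ ?_ ?_ ?_
  · intro A _
    rw [mem_powerset]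
    intro w hw
    rw [mem_map] at hw
    obtain ⟨v, _, rfl⟩ := hw
    exact emb_mem_grid v
  · intro A _ B _ h
    exact Finset.map_injective _ h
  · intro B hB
    rw [mem_powerset] at hB
    refine ⟨Finset.univ.filter (fun v => emb n v ∈ B), mem_univ _, ?_⟩
    ext w
    rw [mem_map]
    constructor
    · rintro ⟨v, hv, rfl⟩
      rw [mem_filter] at hv
      exact hv.2
    · intro hw
      obtain ⟨v, rfl⟩ := exists_emb (hB hw)
      exact ⟨v, by rw [mem_filter]; exact ⟨mem_univ _, hw⟩, rfl⟩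
  · intro A _
    have h := perc_iff A
    unfold Perc at h
    rw [card_map, grid_card]
    by_cases hA : Spans (grid n).sites (A.map (emb n))
    · rw [if_pos hA, if_pos (h.2 hA)]
    · rw [if_neg hA, if_neg (fun hh => hA (h.1 hh))]

end Pool.Agent.Helper42.Boot
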