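import Pool.Agent.Helper42.Boot.Lower2

set_option autoImplicit false

namespace Pool.Agent.Helper42.Boot

open Finset Filter Topology

theorem Pr_none {p : ℝ} (h0 : 0 ≤ p) (h1 : p ≤ 1) {ι : Type*} [DecidableEq ι]
    (I : Finset ι) (V : ι → Finset (ℕ × ℕ)) (E : ι → Finset (ℕ × ℕ) → Prop)
    {g : ℝ} (hg : ∀ i ∈ I, g ≤ Pr p (V i) (E i)) (hg1 : g ≤ 1)
    (hd : ∀ i ∈ I, ∀ j ∈ I, i ≠ j → Disjoint (V i) (V j)) :
    ∀ W : Finset (ℕ × ℕ), (∀ i ∈ I, V i ⊆ W) →
    Pr p W (fun A => ∀ i ∈ I, ¬ E i (A ∩ V i)) ≤ (1 - g) ^ I.card := by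
  classical
  induction I using Finset.induction_on with
  | empty =>
    intro W _
    simp only [Finset.card_empty, pow_zero]
    exact Pr_le_one h0 h1 _ _
  | insert i I hi ih =>
    intro W hW
    have hViW : V i ⊆ W := hW i (Finset.mem_insert_self _ _)
    have hsplit : W = V i ∪ (W \ V i) := (Finset.union_sdiff_of_subset hViW).symm
    have hdis : ∀ j ∈ I, Disjoint (V i) (V j) := by
      intro j hj
      apply hd i (Finset.mem_insert_self _ _) j (Finset.mem_insert_of_mem hj)
      rintro rfl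
      exact hi hj
    rw [hsplit, Finset.card_insert_of_notMem hi, pow_succ, mul_comm]
    have hstep := Pr_indep_le (p := p) h0 h1 (V := V i) (W := W \ V i) Finset.disjoint_sdiff
      (E := fun A => ∀ j ∈ insert i I, ¬ E j (A ∩ V j))
      (F := fun A => ¬ E i A) (G := fun A => ∀ j ∈ I, ¬ E j (A ∩ V j))
      (by
        intro A hA B hB h
        constructor
        · have h2 := h i (Finset.mem_insert_self _ _)
          have e : (A ∪ B) ∩ V i = A := by
            ext x
            simp only [Finset.mem_inter, Finset.mem_union]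
            constructor
            · rintro ⟨h3 | h3, h4⟩
              · exact h3
              · exact absurd h4 (Finset.mem_sdiff.1 (hB h3)).2
            · intro h3
              exact ⟨Or.inl h3, hA h3⟩
          rw [e] at h2
          exact h2
        · intro j hj
          have h2 := h j (Finset.mem_insert_of_mem hj)
          have e : (A ∪ B) ∩ V j = B ∩ V j := by
            ext x
            simp only [Finset.mem_inter, Finset.mem_union]
            constructor
            · rintro ⟨h3 | h3, h4⟩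
              · exact absurd h4 (fun h5 => Finset.disjoint_left.1 (hdis j hj) (hA h3) h5)
              · exact ⟨h3, h4⟩
            · rintro ⟨h3, h4⟩
              exact ⟨Or.inr h3, h4⟩
          rw [e] at h2
          exact h2)
    refine hstep.trans ?_
    apply mul_le_mul
    · rw [Pr_not]
      have := hg i (Finset.mem_insert_self _ _)
      linarith
    · apply ih (fun j hj => hg j (Finset.mem_insert_of_mem hj))
        (fun a ha b hb => hd a (Finset.mem_insert_of_mem ha) b (Finset.mem_insert_of_mem hb))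
      intro j hj x hx
      rw [Finset.mem_sdiff]
      exact ⟨hW j (Finset.mem_insert_of_mem hj) hx,
        fun h2 => Finset.disjoint_left.1 (hdis j hj) h2 hx⟩
    · exact Pr_nonneg h0 h1 _ _
    · linarith

theorem Pr_segment {p : ℝ} {W s : Finset (ℕ × ℕ)} (hs : s ⊆ W) :
    Pr p W (fun A => ∀ x ∈ s, x ∉ A) = (1 - p) ^ s.card := by
  classical
  have h2 : Pr p W (fun A => ∀ x ∈ s, x ∉ A) = Pr p s (fun A => ∀ x ∈ s, x ∉ A) := by
    apply Pr_restrict hs
    intro A _
    constructor
    · intro h x hx hxA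
      exact h x hx (Finset.mem_inter.1 hxA).1
    · intro h x hx hxA
      exact h x hx (Finset.mem_inter.2 ⟨hxA, hx⟩)
  rw [h2]
  have h3 : Pr p s (fun A => ∀ x ∈ s, x ∉ A) = Pr p s (fun A => ¬ A.Nonempty) := by
    apply Pr_congr
    intro A hA
    constructor
    · rintro h ⟨x, hx⟩
      exact h x (hA hx) hx
    · intro h x _ hxA
      exact h ⟨x, hxA⟩
  rw [h3, Pr_not, Pr_occ]
  ring

/-- horizontal segment -/
def hseg (i j L : ℕ) : Finset (ℕ × ℕ) := Finset.Ico i (i + L) ×ˢ {j}

def vseg (i j L : ℕ) : Finset (ℕ × ℕ) := {i} ×ˢ Finset.Ico j (j + L)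

/-- the deterministic percolation criterion -/
theorem spans_grid {n L a b : ℕ} (hL : 1 ≤ L) (ha : a + L ≤ n) (hb : b + L ≤ n)
    {A : Finset (ℕ × ℕ)} (hbox : Spans (box a b L).sites (A ∩ (box a b L).sites))
    (hh : ∀ j, j < n → ∃ x ∈ hseg a j L, x ∈ A)
    (hv : ∀ i, i < n → ∃ x ∈ vseg i b L, x ∈ A) :
    Spans (grid n).sites A := by
  classical
  intro S hS hcl
  have hsub : (box a b L).sites ⊆ (grid n).sites := by
    intro v hv
    rw [mem_box] at hv
    rw [Rect.mem_sites]
    unfold grid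
    simp only
    omega
  have hfull := hbox S (Finset.inter_subset_left.trans hS) (fun v hv h => hcl v (hsub hv) h)
  have hgr : ∀ i j, i < n → j < n → (i, j) ∈ (grid n).sites := by
    intro i j h1 h2
    rw [Rect.mem_sites]
    unfold grid
    simp only
    omega
  have f0 : ∀ x y, a ≤ x → x < a + L → b ≤ y → y < b + L → (x, y) ∈ S := by
    intro x y h1 h2 h3 h4
    apply hfull
    rw [mem_box]
    exact ⟨⟨h1, h2⟩, ⟨h3, h4⟩⟩
  have hh' : ∀ j, j < n → ∃ i, a ≤ i ∧ i < a + L ∧ (i, j) ∈ S := by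
    intro j hj
    obtain ⟨⟨x, y⟩, hx, hxA⟩ := hh j hj
    unfold hseg at hx
    rw [Finset.mem_product, Finset.mem_Ico, Finset.mem_singleton] at hx
    simp only at hx
    refine ⟨x, hx.1.1, hx.1.2, hS ?_⟩
    rw [← hx.2]
    exact hxA
  have hv' : ∀ i, i < n → ∃ j, b ≤ j ∧ j < b + L ∧ (i, j) ∈ S := by
    intro i hi
    obtain ⟨⟨x, y⟩, hx, hxA⟩ := hv i hi
    unfold vseg at hx
    rw [Finset.mem_product, Finset.mem_Ico, Finset.mem_singleton] at hx
    simp only at hx
    refine ⟨y, hx.2.1, hx.2.2, hS ?_⟩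
    rw [← hx.1]
    exact hxA
  have f1 : ∀ x y, a ≤ x → x < a + L → b ≤ y → y < n → (x, y) ∈ S := by
    apply grow_rows_up hcl (b2 := b + L) (by omega) _ f0
    · intro j _ h2
      exact hh' j h2
    · intro x y h1 h2 h3 h4
      exact hgr x y (by omega) h4
  have f2 : ∀ x y, a ≤ x → x < a + L → y < n → (x, y) ∈ S := by
    apply grow_rows_down hcl (b1 := b) (by omega) _ f1
    · intro j h2
      exact hh' j (by omega)
    · intro x y h1 h2 h3
      exact hgr x y (by omega) (by omega)
  have f3 : ∀ x y, a ≤ x → x < n → 0 ≤ y → y < n → (x, y) ∈ S := by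
    apply grow_cols_up hcl (a2 := a + L) (by omega) _ (fun x y h1 h2 _ h4 => f2 x y h1 h2 h4)
    · intro i _ h2
      obtain ⟨j, h3, h4, h5⟩ := hv' i h2
      exact ⟨j, Nat.zero_le _, by omega, h5⟩
    · intro x y h1 h2 h3 h4
      exact hgr x y h2 h4
  have f4 : ∀ x y, x < n → 0 ≤ y → y < n → (x, y) ∈ S := by
    apply grow_cols_down hcl (a1 := a) (by omega) _ f3
    · intro i h2
      obtain ⟨j, h3, h4, h5⟩ := hv' i (by omega)
      exact ⟨j, Nat.zero_le _, by omega, h5⟩
    · intro x y h1 h2 h3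
      exact hgr x y (by omega) h3
  intro v hv2
  rw [Rect.mem_sites] at hv2
  unfold grid at hv2
  simp only at hv2
  exact f4 v.1 v.2 hv2.1.2 (Nat.zero_le _) hv2.2.2

/-- quantitative percolation criterion -/
theorem perc_ge {p : ℝ} (h0 : 0 ≤ p) (h1 : p ≤ 1) {n L m : ℕ} (hL : 1 ≤ L) (hm : m * L ≤ n)
    {g : ℝ} (hg1 : g ≤ 1) (hg : ∀ i j, g ≤ G p i j L) :
    1 - (1 - g) ^ (m * m) - 2 * (n : ℝ) ^ 2 * (1 - p) ^ L ≤
      Pr p (grid n).sites (Spans (grid n).sites) := by
  classical
  set W := (grid n).sites with hW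
  let I : Finset (ℕ × ℕ) := Finset.range m ×ˢ Finset.range m
  let V : ℕ × ℕ → Finset (ℕ × ℕ) := fun t => (box (t.1 * L) (t.2 * L) L).sites
  have hIn : ∀ t ∈ I, t.1 * L + L ≤ n ∧ t.2 * L + L ≤ n := by
    intro t ht
    simp only [I, Finset.mem_product, Finset.mem_range] at ht
    constructor
    · calc t.1 * L + L = (t.1 + 1) * L := by ring
        _ ≤ m * L := Nat.mul_le_mul_right _ ht.1
        _ ≤ n := hm
    · calc t.2 * L + L = (t.2 + 1) * L := by ring
        _ ≤ m * L := Nat.mul_le_mul_right _ ht.2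
        _ ≤ n := hm
  have hVW : ∀ t ∈ I, V t ⊆ W := by
    intro t ht v hv
    have := hIn t ht
    simp only [V] at hv
    rw [mem_box] at hv
    rw [hW, Rect.mem_sites]
    unfold grid
    simp only
    omega
  have hdis : ∀ s ∈ I, ∀ t ∈ I, s ≠ t → Disjoint (V s) (V t) := by
    intro s _ t _ hst
    rw [Finset.disjoint_left]
    intro v h2 h3
    simp only [V] at h2 h3
    rw [mem_box] at h2 h3
    apply hst
    have aux : ∀ x y z : ℕ, x * L ≤ z → z < x * L + L → y * L ≤ z → z < y * L + L → x = y := by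
      intro x y z h4 h5 h6 h7
      have e1 : z / L = x := by
        apply Nat.div_eq_of_lt_le h4
        rw [Nat.succ_mul]
        exact h5
      have e2 : z / L = y := by
        apply Nat.div_eq_of_lt_le h6
        rw [Nat.succ_mul]
        exact h7
      rw [← e1, ← e2]
    exact Prod.ext (aux _ _ _ h2.1.1 h2.1.2 h3.1.1 h3.1.2) (aux _ _ _ h2.2.1 h2.2.2 h3.2.1 h3.2.2)
  have b1 := Pr_none h0 h1 I V (fun t => Spans (V t)) (g := g)
    (fun t _ => hg (t.1 * L) (t.2 * L)) hg1 hdis W hVW
  have hcard : I.card = m * m := by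
    simp only [I, Finset.card_product, Finset.card_range]
  rw [hcard] at b1
  -- bad segments
  let J : Finset (ℕ × ℕ) := (Finset.range n ×ˢ Finset.range n).filter (fun t => t.1 + L ≤ n)
  let J' : Finset (ℕ × ℕ) := (Finset.range n ×ˢ Finset.range n).filter (fun t => t.2 + L ≤ n)
  have hJc : ∀ K ⊆ Finset.range n ×ˢ Finset.range n, (K.card : ℝ) ≤ (n : ℝ) ^ 2 := by
    intro K hK
    have := Finset.card_le_card hK
    rw [Finset.card_product, Finset.card_range] at this
    have h3 : (K.card : ℝ) ≤ ((n * n : ℕ) : ℝ) := by exact_mod_cast this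
    push_cast at h3
    rw [sq]
    exact h3
  have hpw : 0 ≤ (1 - p) ^ L := pow_nonneg (by linarith) _
  have b2 : Pr p W (fun A => ∃ t ∈ J, ∀ x ∈ hseg t.1 t.2 L, x ∉ A) ≤
      (n : ℝ) ^ 2 * (1 - p) ^ L := by
    refine (Pr_exists_le h0 h1 _ _ _).trans ?_
    calc _ ≤ ∑ _t ∈ J, (1 - p) ^ L := by
          apply Finset.sum_le_sum
          intro t ht
          simp only [J, Finset.mem_filter, Finset.mem_product, Finset.mem_range] at ht
          rw [Pr_segment]
          · unfold hseg
            rw [Finset.card_product, Nat.card_Ico, Finset.card_singleton]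
            simp
          · intro v hv
            unfold hseg at hv
            rw [Finset.mem_product, Finset.mem_Ico, Finset.mem_singleton] at hv
            rw [hW, Rect.mem_sites]
            unfold grid
            simp only
            omega
      _ = (J.card : ℝ) * (1 - p) ^ L := by rw [Finset.sum_const, nsmul_eq_mul]
      _ ≤ _ := mul_le_mul_of_nonneg_right (hJc J (Finset.filter_subset _ _)) hpw
  have b3 : Pr p W (fun A => ∃ t ∈ J', ∀ x ∈ vseg t.1 t.2 L, x ∉ A) ≤
      (n : ℝ) ^ 2 * (1 - p) ^ L := by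
    refine (Pr_exists_le h0 h1 _ _ _).trans ?_
    calc _ ≤ ∑ _t ∈ J', (1 - p) ^ L := by
          apply Finset.sum_le_sum
          intro t ht
          simp only [J', Finset.mem_filter, Finset.mem_product, Finset.mem_range] at ht
          rw [Pr_segment]
          · unfold vseg
            rw [Finset.card_product, Nat.card_Ico, Finset.card_singleton]
            simp
          · intro v hv
            unfold vseg at hv
            rw [Finset.mem_product, Finset.mem_Ico, Finset.mem_singleton] at hv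
            rw [hW, Rect.mem_sites]
            unfold grid
            simp only
            omega
      _ = (J'.card : ℝ) * (1 - p) ^ L := by rw [Finset.sum_const, nsmul_eq_mul]
      _ ≤ _ := mul_le_mul_of_nonneg_right (hJc J' (Finset.filter_subset _ _)) hpw
  have key : Pr p W (fun A => ¬ Spans W A) ≤
      Pr p W (fun A => (∀ t ∈ I, ¬ Spans (V t) (A ∩ V t)) ∨
        ((∃ t ∈ J, ∀ x ∈ hseg t.1 t.2 L, x ∉ A) ∨
        (∃ t ∈ J', ∀ x ∈ vseg t.1 t.2 L, x ∉ A))) := by
    apply Pr_mono h0 h1
    intro A _ hA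
    by_contra hcon
    push Not at hcon
    obtain ⟨⟨t, ht, hspan⟩, hJ1, hJ2⟩ := hcon
    apply hA
    have hti := hIn t ht
    refine spans_grid hL hti.1 hti.2 hspan ?_ ?_
    · intro j hj
      apply hJ1 (t.1 * L, j)
      simp only [J, Finset.mem_filter, Finset.mem_product, Finset.mem_range]
      omega
    · intro i hi
      apply hJ2 (i, t.2 * L)
      simp only [J', Finset.mem_filter, Finset.mem_product, Finset.mem_range]
      omega
  rw [Pr_not] at key
  have k2 := Pr_or_le h0 h1 W (fun A => (∀ t ∈ I, ¬ Spans (V t) (A ∩ V t)))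
    (fun A => (∃ t ∈ J, ∀ x ∈ hseg t.1 t.2 L, x ∉ A) ∨ (∃ t ∈ J', ∀ x ∈ vseg t.1 t.2 L, x ∉ A))
  have k3 := Pr_or_le h0 h1 W (fun A => (∃ t ∈ J, ∀ x ∈ hseg t.1 t.2 L, x ∉ A))
    (fun A => ∃ t ∈ J', ∀ x ∈ vseg t.1 t.2 L, x ∉ A)
  linarith

theorem lower_fixed {p : ℝ} (h0 : 0 < p) (hp : p ≤ 1 / 10 ^ 10)
    (hz : 32 * p ^ (-(7 : ℝ)) ≤ Real.exp (p ^ (-(1 / 2 : ℝ)) / 1600))
    (n : ℕ) (hn1 : Real.exp (Real.pi ^ 2 / 6 / p - p ^ (-(1 / 2 : ℝ)) / 3200) ≤ (n : ℝ))
    (hn2 : (n : ℝ) ≤ Real.exp (2 / p)) :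
    1 / 2 ≤ Pr p (grid n).sites (Spans (grid n).sites) := by
  have h1 : p ≤ 1 := by linarith [hp]
  set x := 1 / p with hx
  have hx0 : 0 < x := by positivity
  have hxbig : 10 ^ 10 ≤ x := by
    rw [hx, le_div_iff₀ h0]
    have := mul_le_mul_of_nonneg_left hp (by norm_num : (0 : ℝ) ≤ 10 ^ 10)
    linarith
  have hpx : p * x = 1 := by rw [hx]; field_simp
  set L : ℕ := ⌈x ^ 3⌉₊ with hL
  have hLge : x ^ 3 ≤ (L : ℝ) := Nat.le_ceil _
  have hx3 : 1 ≤ x ^ 3 := one_le_pow₀ (by linarith)
  have hLle : (L : ℝ) ≤ 2 * x ^ 3 := by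
    have := Nat.ceil_lt_add_one (by positivity : 0 ≤ x ^ 3)
    rw [← hL] at this
    linarith
  have hL1 : 1 ≤ L := by
    have : (1 : ℝ) ≤ (L : ℝ) := by linarith
    exact_mod_cast this
  have hLpos : (0 : ℝ) < (L : ℝ) := by linarith
  set z := p ^ (-(1 / 2 : ℝ)) with hzdef
  have hz0 : 0 < z := Real.rpow_pos_of_pos h0 _
  have hzz : z * z = x := by
    rw [hzdef, ← Real.rpow_add h0]
    have : -(1 / 2 : ℝ) + -(1 / 2 : ℝ) = -1 := by norm_num
    rw [this, Real.rpow_neg_one, hx, one_div]
  have hzx : z ≤ x := by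
    have h3 : 1 ≤ z := by
      by_contra hcon
      push Not at hcon
      have : z * z < 1 := by nlinarith
      rw [hzz] at this
      linarith
    rw [← hzz]
    nlinarith
  set lam := Real.pi ^ 2 / 6 with hlam
  have hlam1 : 3 / 2 ≤ lam := by
    rw [hlam]
    have h8 := Real.pi_gt_d2
    nlinarith
  have hlamx : lam / p = lam * x := by rw [hx]; ring
  rw [hlamx] at hn1
  have hlx : 3 / 2 * x ≤ lam * x := mul_le_mul_of_nonneg_right hlam1 hx0.le
  -- n is large
  have hnbig : 4 * x ^ 3 ≤ (n : ℝ) := by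
    refine le_trans ?_ hn1
    have h3 : x ≤ lam * x - z / 3200 := by linarith
    refine le_trans ?_ (Real.exp_le_exp.2 h3)
    have h4 := Real.pow_div_factorial_le_exp x hx0.le 4
    refine le_trans ?_ h4
    rw [le_div_iff₀ (by positivity)]
    have e : (Nat.factorial 4 : ℝ) = 24 := by norm_num [Nat.factorial]
    rw [e]
    have h5 : 96 * x ^ 3 ≤ x * x ^ 3 := mul_le_mul_of_nonneg_right (by linarith) (by positivity)
    linarith
  set m : ℕ := n / L with hm
  have hmL : m * L ≤ n := Nat.div_mul_le_self n L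
  have hmge : (n : ℝ) / (2 * L) ≤ (m : ℝ) := by
    rw [div_le_iff₀ (by positivity)]
    have h3 : n < (m + 1) * L := by
      rw [hm]
      exact (Nat.div_lt_iff_lt_mul (by omega)).1 (Nat.lt_succ_self _)
    have h4 : (n : ℝ) < ((m : ℝ) + 1) * L := by exact_mod_cast h3
    have h5 : (L : ℝ) ≤ (n : ℝ) / 2 := by linarith
    linarith
  -- g
  set g := p * Real.exp (-(2 * (lam / p)) + z / 800) with hg
  have hgL : ∀ i j, g ≤ G p i j L := by
    intro i j
    apply G_lower h0 hp i j L
    refine le_trans ?_ hLge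
    have e : 3 / p = 3 * x := by rw [hx]; ring
    rw [e]
    have h3 : 6 * x ≤ x ^ 2 * x := mul_le_mul_of_nonneg_right (by nlinarith) hx0.le
    have h4 : x ^ 3 = x ^ 2 * x := by ring
    rw [h4]
    linarith
  have hg0 : 0 < g := by positivity
  have hg1 : g ≤ 1 := (hgL 0 0).trans (Pr_le_one h0.le h1 _ _)
  have hperc := perc_ge h0.le h1 hL1 hmL hg1 hgL
  refine le_trans ?_ hperc
  -- first term
  have t1 : (1 - g) ^ (m * m) ≤ 1 / 4 := by
    have h3 : (1 - g) ^ (m * m) ≤ Real.exp (-(g * (m * m))) := by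
      calc (1 - g) ^ (m * m) ≤ (Real.exp (-g)) ^ (m * m) :=
            pow_le_pow_left₀ (by linarith) (Real.one_sub_le_exp_neg g) _
        _ = Real.exp (-(g * (m * m))) := by
            rw [← Real.exp_nat_mul]
            congr 1
            push_cast
            ring
    have h4 : 2 ≤ g * ((m : ℝ) * m) := by
      have h5 : (n : ℝ) ^ 2 / (4 * (L : ℝ) ^ 2) ≤ (m : ℝ) * m := by
        have : (n : ℝ) ^ 2 / (4 * (L : ℝ) ^ 2) = ((n : ℝ) / (2 * L)) * ((n : ℝ) / (2 * L)) := by
          field_simp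
          ring
        rw [this]
        exact mul_le_mul hmge hmge (by positivity) (Nat.cast_nonneg _)
      have h6 : Real.exp (2 * (lam * x) - z / 1600) ≤ (n : ℝ) ^ 2 := by
        have h7 := pow_le_pow_left₀ (Real.exp_pos _).le hn1 2
        rw [← Real.exp_nat_mul] at h7
        refine le_trans (le_of_eq ?_) h7
        congr 1
        push_cast
        ring
      have h7 : (L : ℝ) ^ 2 ≤ 4 * x ^ 6 := by
        have := pow_le_pow_left₀ hLpos.le hLle 2
        calc (L : ℝ) ^ 2 ≤ (2 * x ^ 3) ^ 2 := this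
          _ = 4 * x ^ 6 := by ring
      have h8 : Real.exp (2 * (lam * x) - z / 1600) / (16 * x ^ 6) ≤
          (n : ℝ) ^ 2 / (4 * (L : ℝ) ^ 2) := by
        rw [div_le_div_iff₀ (by positivity) (by positivity)]
        calc Real.exp (2 * (lam * x) - z / 1600) * (4 * (L : ℝ) ^ 2) ≤
              (n : ℝ) ^ 2 * (4 * (4 * x ^ 6)) := by
              apply mul_le_mul h6 (by linarith) (by positivity) (by positivity)
          _ = (n : ℝ) ^ 2 * (16 * x ^ 6) := by ring
      have h9 : g * (Real.exp (2 * (lam * x) - z / 1600) / (16 * x ^ 6)) ≤ g * ((m : ℝ) * m) :=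
        mul_le_mul_of_nonneg_left (h8.trans h5) hg0.le
      refine le_trans ?_ h9
      have e1 : g * (Real.exp (2 * (lam * x) - z / 1600) / (16 * x ^ 6)) =
          Real.exp (z / 1600) / (16 * x ^ 7) := by
        have e2 : Real.exp (-(2 * (lam / p)) + z / 800) * Real.exp (2 * (lam * x) - z / 1600) =
            Real.exp (z / 1600) := by
          rw [← Real.exp_add, hlamx]
          congr 1
          ring
        rw [hg]
        have hp' : p = 1 / x := by rw [hx]; field_simp
        calc p * Real.exp (-(2 * (lam / p)) + z / 800) *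
              (Real.exp (2 * (lam * x) - z / 1600) / (16 * x ^ 6)) =
              p * (Real.exp (-(2 * (lam / p)) + z / 800) *
                Real.exp (2 * (lam * x) - z / 1600)) / (16 * x ^ 6) := by ring
          _ = p * Real.exp (z / 1600) / (16 * x ^ 6) := by rw [e2]
          _ = (1 / x) * Real.exp (z / 1600) / (16 * x ^ 6) := by rw [← hp']
          _ = Real.exp (z / 1600) / (16 * x ^ 7) := by field_simp
      rw [e1, le_div_iff₀ (by positivity)]
      have e3 : p ^ (-(7 : ℝ)) = x ^ 7 := by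
        rw [hx, Real.rpow_neg h0.le, one_div, inv_pow]
        congr 1
        exact_mod_cast Real.rpow_natCast p 7
      rw [e3] at hz
      linarith
    refine h3.trans ?_
    have h5 : Real.exp (-(g * (m * m))) ≤ Real.exp (-2) := Real.exp_le_exp.2 (by linarith)
    refine h5.trans ?_
    rw [Real.exp_neg, one_div]
    apply inv_anti₀ (by norm_num)
    have h6 : Real.exp 2 = Real.exp 1 * Real.exp 1 := by
      rw [← Real.exp_add]; norm_num
    rw [h6]
    have h7 := Real.add_one_le_exp (1 : ℝ)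
    nlinarith
  -- second term
  have t2 : 2 * (n : ℝ) ^ 2 * (1 - p) ^ L ≤ 1 / 4 := by
    have h3 : (1 - p) ^ L ≤ Real.exp (-(p * L)) := by
      calc (1 - p) ^ L ≤ (Real.exp (-p)) ^ L :=
            pow_le_pow_left₀ (by linarith) (Real.one_sub_le_exp_neg p) _
        _ = Real.exp (-(p * L)) := by
            rw [← Real.exp_nat_mul]
            congr 1
            ring
    have h4 : (n : ℝ) ^ 2 ≤ Real.exp (4 * x) := by
      have h5 := pow_le_pow_left₀ (Nat.cast_nonneg n) hn2 2
      rw [← Real.exp_nat_mul] at h5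
      refine h5.trans (le_of_eq ?_)
      congr 1
      rw [hx]
      push_cast
      ring
    have h5 : x ^ 2 ≤ p * L := by
      have h6 := mul_le_mul_of_nonneg_left hLge h0.le
      have e : p * x ^ 3 = x ^ 2 := by
        calc p * x ^ 3 = (p * x) * x ^ 2 := by ring
          _ = x ^ 2 := by rw [hpx, one_mul]
      rw [e] at h6
      exact h6
    calc 2 * (n : ℝ) ^ 2 * (1 - p) ^ L ≤ 2 * Real.exp (4 * x) * Real.exp (-(p * L)) := by
          apply mul_le_mul (by linarith) h3 (pow_nonneg (by linarith) _) (by positivity)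
      _ = 2 * Real.exp (4 * x + -(p * L)) := by rw [mul_assoc, ← Real.exp_add]
      _ ≤ 2 * Real.exp (-8) := by
          apply mul_le_mul_of_nonneg_left _ (by norm_num)
          apply Real.exp_le_exp.2
          nlinarith
      _ ≤ 1 / 4 := by
          have h6 : Real.exp (-8) ≤ 1 / 8 := by
            rw [Real.exp_neg, one_div]
            apply inv_anti₀ (by norm_num)
            have := Real.add_one_le_exp (8 : ℝ)
            linarith
          linarith
  linarith

end Pool.Agent.Helper42.Boot
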