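import Pool.Agent.Helper42.Boot.Params
import Pool.Agent.Helper42.Boot.Lower3

set_option autoImplicit false

namespace Pool.Agent.Helper42.Boot

open Finset Filter Topology

theorem ev_small (C : ℝ) (a : ℕ) {b : ℝ} (hb : 0 < b) :
    ∀ᶠ p : ℝ in 𝓝[>] (0 : ℝ), C * (-Real.log p) ^ a * p ^ b ≤ 1 := by
  set c : ℝ := b / (a + 1) with hc
  have ha : (0 : ℝ) < (a : ℝ) + 1 := by positivity
  have hc0 : 0 < c := by positivity
  have t1 := tendsto_log_mul_rpow_nhdsGT_zero hc0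
  have t2 : Tendsto (fun p : ℝ => p ^ c) (𝓝[>] (0 : ℝ)) (𝓝 0) := by
    have h := (Real.continuousAt_rpow_const (0 : ℝ) c (Or.inr hc0.le)).tendsto
    rw [Real.zero_rpow hc0.ne'] at h
    exact h.mono_left nhdsWithin_le_nhds
  have t3 : Tendsto (fun p : ℝ => C * (-(Real.log p * p ^ c)) ^ a * p ^ c) (𝓝[>] (0 : ℝ))
      (𝓝 (C * (-0) ^ a * 0)) :=
    ((tendsto_const_nhds).mul ((t1.neg).pow a)).mul t2
  rw [mul_zero] at t3
  have t4 := t3.eventually (eventually_le_nhds (by norm_num : (0 : ℝ) < 1))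
  filter_upwards [t4, self_mem_nhdsWithin] with p hp hp0
  have hp0' : (0 : ℝ) < p := hp0
  refine le_trans (le_of_eq ?_) hp
  have e1 : (-(Real.log p * p ^ c)) ^ a = (-Real.log p) ^ a * (p ^ c) ^ a := by
    rw [← mul_pow]; ring
  rw [e1, mul_assoc C, mul_assoc C, mul_assoc ((-Real.log p) ^ a), ← pow_succ,
    ← Real.rpow_natCast (p ^ c), ← Real.rpow_mul hp0'.le]
  have e2 : c * ((a + 1 : ℕ) : ℝ) = b := by
    rw [hc]
    push_cast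
    field_simp
  rw [e2]

theorem ev_small' (C : ℝ) {b : ℝ} (hb : 0 < b) :
    ∀ᶠ p : ℝ in 𝓝[>] (0 : ℝ), C * p ^ b ≤ 1 := by
  have := ev_small C 0 hb
  simpa using this

theorem ev_small'' (C : ℝ) (m : ℕ) (hm : m ≠ 0) :
    ∀ᶠ p : ℝ in 𝓝[>] (0 : ℝ), C * p ^ m ≤ 1 := by
  have hm' : (0 : ℝ) < (m : ℝ) := by exact_mod_cast Nat.pos_of_ne_zero hm
  filter_upwards [ev_small' C hm'] with p hp
  rwa [Real.rpow_natCast] at hp

theorem ev_log (C : ℝ) {δ : ℝ} (hδ : 0 < δ) :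
    ∀ᶠ p : ℝ in 𝓝[>] (0 : ℝ), C ≤ δ * (-Real.log p) := by
  have h := Real.tendsto_log_nhdsGT_zero.eventually_le_atBot (-(C / δ))
  filter_upwards [h] with p hp
  have : C / δ ≤ -Real.log p := by linarith
  rw [div_le_iff₀ hδ] at this
  linarith

theorem upper_ev {δ : ℝ} (hδ : 0 < δ) (hδ1 : δ ≤ 1 / 20) :
    ∀ᶠ p : ℝ in 𝓝[>] (0 : ℝ), ∀ n : ℕ, 1 ≤ n →
      (n : ℝ) ≤ Real.exp (Real.pi ^ 2 / 6 / p - p ^ (-(1 / 2) - 3 * δ)) →
      Pr p (grid n).sites (Spans (grid n).sites) < 1 / 2 := by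
  classical
  obtain ⟨ℓs, hℓs⟩ : ∃ ℓs : ℕ, 20 ≤ δ * (ℓs : ℝ) := by
    obtain ⟨m, hm⟩ := exists_nat_ge (20 / δ)
    refine ⟨m, ?_⟩
    rw [div_le_iff₀ hδ] at hm
    linarith
  obtain ⟨τs, hτs⟩ : ∃ τs : ℕ, (ℓs : ℝ) + 22 ≤ 3 * δ * (τs : ℝ) := by
    obtain ⟨m, hm⟩ := exists_nat_ge (((ℓs : ℝ) + 22) / (3 * δ))
    refine ⟨m, ?_⟩
    rw [div_le_iff₀ (by positivity)] at hm
    linarith
  obtain ⟨D, hD⟩ : ∃ D : ℕ, 50 ≤ δ * (D : ℝ) := by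
    obtain ⟨m, hm⟩ := exists_nat_ge (50 / δ)
    refine ⟨m, ?_⟩
    rw [div_le_iff₀ hδ] at hm
    linarith
  have hhalf : ∀ᶠ p : ℝ in 𝓝[>] (0 : ℝ), p ≤ 1 / 2 := by
    have := Ioc_mem_nhdsGT (show (0 : ℝ) < 1 / 2 by norm_num)
    filter_upwards [this] with p hp
    exact hp.2
  filter_upwards [self_mem_nhdsWithin, hhalf,
    ev_small'' ((2 : ℝ) ^ ((ℓs + 2 * τs + 2) ^ 2)) 1 (by norm_num),
    ev_small'' (2 * (3 : ℝ) ^ 8 * (2 : ℝ) ^ ((ℓs + τs) ^ 2)) 2 (by norm_num),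
    ev_small' ((2 : ℝ) ^ (τs ^ 2)) (show 0 < 3 * δ by positivity),
    ev_log 4 hδ,
    ev_small' 40 (show 0 < 1 / 2 - 2 * δ by linarith),
    ev_small' (4 / δ) (show 0 < 1 / 2 + δ by linarith),
    ev_small (4 * 289 * ((D : ℝ) + 1) / δ) 2 (show 0 < 3 * δ by positivity),
    ev_small (157 * 192 / δ ^ 2) 3 (show 0 < 2 * δ by positivity),
    ev_small (2 * 4 ^ 8) 8 (show (0 : ℝ) < 4 by norm_num),
    ev_small (4 * 291 * 256 * ((D : ℝ) + 1) / δ) 2 (show 0 < 2 * δ by positivity),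
    ev_small 34 1 hδ,
    ev_small 5 1 (show (0 : ℝ) < 1 by norm_num)] with p h0 hp hc1 hc2 hc3 hΛ hy hX4 hcT hc5 hc7
      hcM hc9 hc10 n hn hnle
  have h0' : (0 : ℝ) < p := h0
  have hQ := upper_fixed h0' hδ hδ1 ℓs τs D hℓs hτs hD hp (by simpa using hc1) hc2 hc3 hΛ hy hX4
    hcT hc5 (by
      have : p ^ (4 : ℝ) = p ^ 4 := by
        rw [← Real.rpow_natCast]; norm_num
      rwa [this] at hc7) hcM (by simpa using hc9) (by simpa using hc10) n hn hnle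
  refine lt_of_le_of_lt ?_ hQ
  unfold Q
  refine Pr_mono h0'.le (by linarith) ?_
  intro A hA hs
  obtain ⟨A', hA', hg⟩ := exists_gen_of_spans (by omega) hA hs
  exact ⟨A', hA', hg⟩

theorem lower_ev :
    ∀ᶠ p : ℝ in 𝓝[>] (0 : ℝ), ∀ n : ℕ,
      Real.exp (Real.pi ^ 2 / 6 / p - p ^ (-(1 / 2 : ℝ)) / 3200) ≤ (n : ℝ) →
      (n : ℝ) ≤ Real.exp (2 / p) →
      1 / 2 ≤ Pr p (grid n).sites (Spans (grid n).sites) := by
  have hhalf : ∀ᶠ p : ℝ in 𝓝[>] (0 : ℝ), p ≤ 1 / 10 ^ 10 := by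
    have := Ioc_mem_nhdsGT (show (0 : ℝ) < 1 / 10 ^ 10 by norm_num)
    filter_upwards [this] with p hp
    exact hp.2
  have t1 : Tendsto (fun p : ℝ => p ^ (-(1 / 2 : ℝ))) (𝓝[>] (0 : ℝ)) atTop :=
    tendsto_rpow_neg_nhdsGT_zero (by norm_num)
  have t2 : Tendsto (fun p : ℝ => p ^ (-(1 / 2 : ℝ)) / 1600) (𝓝[>] (0 : ℝ)) atTop :=
    t1.atTop_div_const (by norm_num)
  have t3 := (Real.tendsto_pow_mul_exp_neg_atTop_nhds_zero 14).comp t2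
  have t4 := t3.const_mul (32 * 1600 ^ 14)
  rw [mul_zero] at t4
  have t5 := t4.eventually (eventually_le_nhds (by norm_num : (0 : ℝ) < 1))
  filter_upwards [self_mem_nhdsWithin, hhalf, t5] with p h0 hp h5 n hn1 hn2
  have h0' : (0 : ℝ) < p := h0
  refine lower_fixed h0' hp ?_ n hn1 hn2
  simp only [Function.comp] at h5
  set s := p ^ (-(1 / 2 : ℝ)) with hs
  have e1 : p ^ (-(7 : ℝ)) = s ^ 14 := by
    rw [hs, ← Real.rpow_natCast, ← Real.rpow_mul h0'.le]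
    norm_num
  rw [e1]
  rw [Real.exp_neg] at h5
  have h6 : 32 * 1600 ^ 14 * ((s / 1600) ^ 14) ≤ Real.exp (s / 1600) := by
    rw [← mul_assoc, mul_inv_le_iff₀ (Real.exp_pos _)] at h5
    linarith
  refine le_trans (le_of_eq ?_) h6
  rw [div_pow]
  ring

end Pool.Agent.Helper42.Boot
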