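import Mathlib

set_option autoImplicit false

namespace Pool.Agent.Helper42.Boot

open Finset

/-- Path cost of a rectangle with sides `a`, `b` for the cost function `w`. -/
noncomputable def Wf (w : ℕ → ℝ) (a b : ℕ) : ℝ :=
  ∑ i ∈ range (min a b), (w i + w (i + 1)) + ((max a b - min a b : ℕ) : ℝ) * w (min a b)

theorem Wf_symm (w : ℕ → ℝ) (a b : ℕ) : Wf w a b = Wf w b a := by
  unfold Wf
  rw [min_comm, max_comm]

theorem Wf_right_eq (w : ℕ → ℝ) {a b : ℕ} (h : b ≤ a) : Wf w (a + 1) b = Wf w a b + w b := by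
  unfold Wf
  rw [min_eq_right h, min_eq_right (by omega : b ≤ a + 1), max_eq_left h,
    max_eq_left (by omega : b ≤ a + 1)]
  have : a + 1 - b = (a - b) + 1 := by omega
  rw [this]
  push_cast
  ring

theorem Wf_up_eq (w : ℕ → ℝ) {i j : ℕ} (h : i ≤ j + 1) : Wf w i (j + 1) = Wf w i j + w i := by
  rcases Nat.lt_or_ge j i with h1 | h1
  · have : i = j + 1 := by omega
    subst this
    unfold Wf
    rw [min_self, max_self, min_eq_right (by omega : j ≤ j + 1),
      max_eq_left (by omega : j ≤ j + 1), Finset.sum_range_succ]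
    have e1 : j + 1 - (j + 1) = 0 := by omega
    have e2 : j + 1 - j = 1 := by omega
    rw [e1, e2]
    push_cast
    ring
  · rw [Wf_symm w i (j + 1), Wf_symm w i j]
    exact Wf_right_eq w h1

theorem Wf_zero (w : ℕ → ℝ) : Wf w 0 0 = 0 := by
  unfold Wf
  simp

/-- The hypotheses on cost functions. -/
structure Cost (w : ℕ → ℝ) : Prop where
  anti : ∀ i, w (i + 1) ≤ w i
  nonneg : ∀ i, 0 ≤ w i
  conv : ∀ i, w (i + 1) - w (i + 2) ≤ w i - w (i + 1)

namespace Cost

variable {w : ℕ → ℝ} (hw : Cost w)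

include hw

theorem mono {i j : ℕ} (h : i ≤ j) : w j ≤ w i := antitone_nat_of_succ_le hw.anti h

theorem diff_mono {i j : ℕ} (h : i ≤ j) : w j - w (j + 1) ≤ w i - w (i + 1) := by
  have : Antitone (fun i => w i - w (i + 1)) := antitone_nat_of_succ_le hw.conv
  exact this h

theorem conv_sum (m d : ℕ) : w (m + 1) - w (m + 1 + d) ≤ (d : ℝ) * (w m - w (m + 1)) := by
  induction d with
  | zero => simp
  | succ d ih =>
    have h := hw.diff_mono (i := m) (j := m + 1 + d) (by omega)
    push_cast
    have e : m + 1 + (d + 1) = m + 1 + d + 1 := by ring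
    rw [e]
    linarith

/-- one step of growth in the first side -/
theorem step_x (a b : ℕ) : Wf w (a + 1) b ≤ Wf w a b + w b := by
  rcases Nat.lt_or_ge a b with h | h
  · -- a < b
    obtain ⟨d, rfl⟩ : ∃ d, b = a + 1 + d := ⟨b - (a + 1), by omega⟩
    unfold Wf
    rw [min_eq_left (by omega : a + 1 ≤ a + 1 + d), min_eq_left (by omega : a ≤ a + 1 + d),
      max_eq_right (by omega : a + 1 ≤ a + 1 + d), max_eq_right (by omega : a ≤ a + 1 + d),
      Finset.sum_range_succ]
    have e1 : a + 1 + d - (a + 1) = d := by omega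
    have e2 : a + 1 + d - a = d + 1 := by omega
    rw [e1, e2]
    have := hw.conv_sum a d
    push_cast
    linarith
  · exact le_of_eq (Wf_right_eq w h)

theorem step_y (a b : ℕ) : Wf w a (b + 1) ≤ Wf w a b + w a := by
  rw [Wf_symm w a (b + 1), Wf_symm w a b]
  exact hw.step_x b a

theorem grow_x (a b x : ℕ) : Wf w (a + x) b ≤ Wf w a b + x * w b := by
  induction x with
  | zero => simp
  | succ x ih =>
    have := hw.step_x (a + x) b
    push_cast
    have e : a + (x + 1) = a + x + 1 := by ring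
    rw [e]
    linarith

theorem grow_y (a b y : ℕ) : Wf w a (b + y) ≤ Wf w a b + y * w a := by
  rw [Wf_symm w a (b + y), Wf_symm w a b]
  exact hw.grow_x b a y

theorem grow (a b x y : ℕ) : Wf w (a + x) (b + y) ≤ Wf w a b + x * w b + y * w a := by
  have h1 := hw.grow_x a b x
  have h2 := hw.grow_y (a + x) b y
  have h3 : w (a + x) ≤ w a := hw.mono (by omega)
  have h4 : (y : ℝ) * w (a + x) ≤ y * w a := mul_le_mul_of_nonneg_left h3 (Nat.cast_nonneg _)
  linarith

theorem le_w0 (a b : ℕ) : Wf w a b ≤ (a + b : ℕ) * w 0 := by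
  have := hw.grow 0 0 a b
  rw [Wf_zero, zero_add, zero_add] at this
  push_cast
  linarith

theorem grow_w0 (a b x y : ℕ) : Wf w (a + x) (b + y) ≤ Wf w a b + (x + y : ℕ) * w 0 := by
  have := hw.grow a b x y
  have h1 : (x : ℝ) * w b ≤ x * w 0 :=
    mul_le_mul_of_nonneg_left (hw.mono (Nat.zero_le _)) (Nat.cast_nonneg _)
  have h2 : (y : ℝ) * w a ≤ y * w 0 :=
    mul_le_mul_of_nonneg_left (hw.mono (Nat.zero_le _)) (Nat.cast_nonneg _)
  push_cast
  linarith

theorem clip_x (a' a i c : ℕ) :
    Wf w (min (a' + (i + 1)) a) c ≤ Wf w (min (a' + i) a) c + w c := by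
  rcases Nat.lt_or_ge (a' + i) a with h | h
  · rw [min_eq_left (by omega : a' + (i + 1) ≤ a), min_eq_left (by omega : a' + i ≤ a)]
    exact hw.step_x _ _
  · rw [min_eq_right (by omega : a ≤ a' + (i + 1)), min_eq_right h]
    have := hw.nonneg c
    linarith

theorem clip_y (b' b j c : ℕ) :
    Wf w c (min (b' + (j + 1)) b) ≤ Wf w c (min (b' + j) b) + w c := by
  rw [Wf_symm w c (min (b' + (j + 1)) b), Wf_symm w c (min (b' + j) b)]
  exact hw.clip_x b' b j c

/-- Subadditivity with a gain. -/
theorem merge_gain {a b a' b' a'' b'' k : ℕ} (ha : a ≤ a' + a'') (hb : b ≤ b' + b'')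
    (ha1 : a' ≤ a) (ha2 : a'' ≤ a) (hb1 : b' ≤ b) (hb2 : b'' ≤ b)
    (hk1 : k ≤ a'') (hk2 : k ≤ b'') (hka : 2 * k ≤ a') (hkb : 2 * k ≤ b') :
    Wf w a b + 2 * k * (w k - w (2 * k)) ≤ Wf w a' b' + Wf w a'' b'' := by
  have hg1 : w (2 * k) ≤ w k := hw.mono (by omega)
  have hg0 := hw.nonneg (2 * k)
  -- the diagonal part
  have diag : ∀ n : ℕ, n ≤ k →
      Wf w (min (a' + n) a) (min (b' + n) b) + 2 * n * (w k - w (2 * k)) ≤
        Wf w a' b' + Wf w n n := by
    intro n
    induction n with
    | zero =>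
      intro _
      rw [Wf_zero]
      simp only [Nat.add_zero, min_eq_left ha1, min_eq_left hb1]
      push_cast
      linarith
    | succ n ih =>
      intro hn
      have h := ih (by omega)
      have c1 := hw.clip_x a' a n (min (b' + n) b)
      have c2 := hw.clip_y b' b n (min (a' + (n + 1)) a)
      have e1 : Wf w (n + 1) n = Wf w n n + w n := Wf_right_eq w (le_refl _)
      have e2 : Wf w (n + 1) (n + 1) = Wf w (n + 1) n + w (n + 1) :=
        Wf_up_eq w (le_refl _)
      have m1 : w (min (b' + n) b) ≤ w (2 * k) := hw.mono (by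
        rw [le_min_iff]; constructor <;> omega)
      have m2 : w (min (a' + (n + 1)) a) ≤ w (2 * k) := hw.mono (by
        rw [le_min_iff]; constructor <;> omega)
      have m3 : w k ≤ w n := hw.mono (by omega)
      have m4 : w k ≤ w (n + 1) := hw.mono (by omega)
      rw [e2, e1]
      push_cast
      nlinarith [c1, c2, m1, m2, m3, m4, h]
  -- the rest of the path
  have gen : ∀ s i j : ℕ, i + j = s → k ≤ i → k ≤ j → i ≤ a'' → j ≤ b'' →
      Wf w (min (a' + i) a) (min (b' + j) b) + 2 * k * (w k - w (2 * k)) ≤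
        Wf w a' b' + Wf w i j := by
    intro s
    induction s with
    | zero =>
      intro i j hs hi hj _ _
      have hi0 : i = 0 := by omega
      have hj0 : j = 0 := by omega
      have hk0 : k = 0 := by omega
      subst hi0 hj0 hk0
      exact diag 0 (le_refl _)
    | succ s ih =>
      intro i j hs hi hj hia hjb
      by_cases hbase : i = k ∧ j = k
      · obtain ⟨rfl, rfl⟩ := hbase
        exact diag _ (le_refl _)
      · rcases Nat.lt_or_ge j i with h | h
        · -- predecessor (i-1, j)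
          obtain ⟨i', rfl⟩ : ∃ i', i = i' + 1 := ⟨i - 1, by omega⟩
          have h1 := ih i' j (by omega) (by omega) hj (by omega) hjb
          have c1 := hw.clip_x a' a i' (min (b' + j) b)
          have e1 : Wf w (i' + 1) j = Wf w i' j + w j := Wf_right_eq w (by omega)
          have m1 : w (min (b' + j) b) ≤ w j := hw.mono (by
            rw [le_min_iff]; constructor <;> omega)
          rw [e1]
          linarith
        · obtain ⟨j', rfl⟩ : ∃ j', j = j' + 1 := ⟨j - 1, by omega⟩
          have h1 := ih i j' (by omega) hi (by omega) hia (by omega)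
          have c1 := hw.clip_y b' b j' (min (a' + i) a)
          have e1 : Wf w i (j' + 1) = Wf w i j' + w i := Wf_up_eq w (by omega)
          have m1 : w (min (a' + i) a) ≤ w i := hw.mono (by
            rw [le_min_iff]; constructor <;> omega)
          rw [e1]
          linarith
  have := gen (a'' + b'') a'' b'' rfl hk1 hk2 (le_refl _) (le_refl _)
  rw [min_eq_right ha, min_eq_right hb] at this
  exact this

/-- Subadditivity. -/
theorem merge {a b a' b' a'' b'' : ℕ} (ha : a ≤ a' + a'') (hb : b ≤ b' + b'')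
    (ha1 : a' ≤ a) (ha2 : a'' ≤ a) (hb1 : b' ≤ b) (hb2 : b'' ≤ b) :
    Wf w a b ≤ Wf w a' b' + Wf w a'' b'' := by
  have := hw.merge_gain (k := 0) ha hb ha1 ha2 hb1 hb2 (by omega) (by omega) (by omega) (by omega)
  simpa using this

theorem sum_range_le {m n : ℕ} (h : m ≤ n) :
    ∑ i ∈ range m, (w i + w (i + 1)) ≤ ∑ i ∈ range n, (w i + w (i + 1)) := by
  apply Finset.sum_le_sum_of_subset_of_nonneg
  · intro i hi
    rw [Finset.mem_range] at hi ⊢
    omega
  · intro i _ _
    have := hw.nonneg i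
    have := hw.nonneg (i + 1)
    linarith

theorem big_aux {a b B : ℕ} (hB : w B = 0) (ha : B ≤ a) :
    ∑ i ∈ range B, (w i + w (i + 1)) ≤ Wf w a b := by
  rcases Nat.lt_or_ge b B with h | h
  · obtain ⟨d, hd⟩ : ∃ d, B = b + d := ⟨B - b, by omega⟩
    have hwa : w a = 0 := le_antisymm (by rw [← hB]; exact hw.mono ha) (hw.nonneg a)
    have h1 := hw.grow_y a b d
    rw [hwa, mul_zero, add_zero, ← hd] at h1
    refine le_trans ?_ h1
    unfold Wf
    rw [min_eq_right ha]
    have := mul_nonneg (Nat.cast_nonneg (α := ℝ) (max a B - B)) (hw.nonneg B)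
    linarith
  · have h1 : B ≤ min a b := le_min ha h
    unfold Wf
    have h2 := hw.sum_range_le h1
    have := mul_nonneg (Nat.cast_nonneg (α := ℝ) (max a b - min a b)) (hw.nonneg (min a b))
    linarith

theorem big {a b B : ℕ} (hB : w B = 0) (h : B ≤ a ∨ B ≤ b) :
    ∑ i ∈ range B, (w i + w (i + 1)) ≤ Wf w a b := by
  rcases h with h | h
  · exact hw.big_aux hB h
  · rw [Wf_symm]
    exact hw.big_aux hB h

theorem Wf_nonneg (a b : ℕ) : 0 ≤ Wf w a b := by
  unfold Wf
  apply add_nonneg
  · apply Finset.sum_nonneg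
    intro i _
    have := hw.nonneg i
    have := hw.nonneg (i + 1)
    linarith
  · exact mul_nonneg (Nat.cast_nonneg _) (hw.nonneg _)

end Cost

end Pool.Agent.Helper42.Boot
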