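import Pool.Agent.Helper42.Boot.Recur
import Pool.Agent.Helper42.Boot.WFun

set_option autoImplicit false

namespace Pool.Agent.Helper42.Boot

open Finset

/-- The induction for all rectangles with sides below `B`. -/
theorem fat_fixed {p : ℝ} (h0 : 0 < p) (h1 : p ≤ 1 / 2)
    (w v r : ℕ → ℝ) (hw : Cost w)
    (hv : ∀ n, 1 ≤ n → 1 - (1 - p) ^ n = Real.exp (-(v n)))
    (B k D : ℕ) (hk : 1 ≤ k) (X β L : ℝ) (hβ0 : 0 ≤ β) (hL0 : 0 ≤ L)
    (ℓ : ℕ → ℕ)
    (hr0 : ∀ n, 0 ≤ r n) (hranti : ∀ m n, m ≤ n → r n ≤ r m)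
    (hρ : ∀ z, 1 ≤ z → z < B → r z ≤ v z - w z)
    (hℓ1 : ∀ M, 1 ≤ ℓ M)
    (hℓr : ∀ M, M < B → 2 * L ≤ (ℓ M : ℝ) * r M)
    (hT : ∀ M, M < B → (D + 1) * ℓ M ≤ k)
    (h2 : ∀ M a' b' : ℕ, X < (M : ℝ) → M < B → k ≤ b' → b' < B → M ≤ 2 * a' → a' < B →
      (((D + 1) * ℓ M : ℕ) : ℝ) * p ≤
        1 / 2 * (v b' - w b') * (1 - (1 - p) ^ b') * (1 - (1 - p) ^ a'))
    (h3 : ∀ R : Rect, R.valid → R.wd < B → R.ht < B →
      ((R.wd ≤ 2 * k ∨ R.ht ≤ 2 * k) ∨ ((R.wd : ℝ) ≤ X ∧ (R.ht : ℝ) ≤ X)) →
      Q p R ≤ Real.exp (-(Wf w R.wd R.ht) - β * (R.phi : ℝ)))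
    (h4 : w 0 + L ≤ β * D)
    (h5 : ∀ M, M < B → (ℓ M : ℝ) * w 0 + L ≤ 2 * k * (w k - w (2 * k)))
    (h7 : 2 * (2 * (B : ℝ)) ^ 8 * Real.exp (-L) ≤ 1)
    (R : Rect) (hRv : R.valid) (hRw : R.wd < B) (hRh : R.ht < B) :
    Q p R ≤ Real.exp (-(Wf w R.wd R.ht)) := by
  have hp1 : p ≤ 1 := by linarith
  have h0' : 0 ≤ p := h0.le
  have hw0 : 0 ≤ w 0 := hw.nonneg 0
  induction hN : R.phi using Nat.strong_induction_on generalizing R with
  | _ N ih =>
    by_cases hnf : (R.wd ≤ 2 * k ∨ R.ht ≤ 2 * k) ∨ ((R.wd : ℝ) ≤ X ∧ (R.ht : ℝ) ≤ X)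
    · refine (h3 R hRv hRw hRh hnf).trans ?_
      apply Real.exp_le_exp.2
      have : 0 ≤ β * (R.phi : ℝ) := mul_nonneg hβ0 (Nat.cast_nonneg _)
      linarith
    · push Not at hnf
      obtain ⟨⟨hw2, hh2⟩, hX⟩ := hnf
      set M := max R.wd R.ht with hM
      have hMB : M < B := max_lt hRw hRh
      have hXM : X < (M : ℝ) := by
        by_cases hc : (R.wd : ℝ) ≤ X
        · have := hX hc
          have h5 : (R.ht : ℝ) ≤ (M : ℝ) := by exact_mod_cast le_max_right _ _
          linarith
        · push Not at hc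
          have h5 : (R.wd : ℝ) ≤ (M : ℝ) := by exact_mod_cast le_max_left _ _
          linarith
      have hTk := hT M hMB
      have hphi : R.phi = R.wd + R.ht := rfl
      set c := Real.exp (-(Wf w R.wd R.ht) - L) with hc
      have hcpos : 0 ≤ c := (Real.exp_pos _).le
      have hℓk : ℓ M ≤ k := by
        have := hℓ1 M
        nlinarith
      have hrec := Q_rec h0' h1 R hRv (ℓ M) (D * ℓ M) (hℓ1 M) (by omega) c hcpos ?_ ?_
      · refine hrec.trans ?_
        have e1 : (R.phi : ℝ) + 1 ≤ 2 * (B : ℝ) := by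
          have : R.phi + 1 ≤ 2 * B := by omega
          exact_mod_cast this
        have e2 : ((R.phi : ℝ) + 1) ^ 8 ≤ (2 * (B : ℝ)) ^ 8 :=
          pow_le_pow_left₀ (by positivity) e1 8
        have e3 : c = Real.exp (-(Wf w R.wd R.ht)) * Real.exp (-L) := by
          rw [hc, ← Real.exp_add]
          congr 1
        calc 2 * ((R.phi : ℝ) + 1) ^ 8 * c ≤ 2 * (2 * (B : ℝ)) ^ 8 * c := by
              apply mul_le_mul_of_nonneg_right _ hcpos
              linarith
          _ = (2 * (2 * (B : ℝ)) ^ 8 * Real.exp (-L)) * Real.exp (-(Wf w R.wd R.ht)) := by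
              rw [e3]; ring
          _ ≤ 1 * Real.exp (-(Wf w R.wd R.ht)) :=
              mul_le_mul_of_nonneg_right h7 (Real.exp_pos _).le
          _ = _ := one_mul _
      · -- growth
        intro R' hv' hs hφ1 hφ2
        have hvv := hv'
        unfold Rect.valid at hvv
        have hss := hs
        unfold Rect.sub at hss
        have hwle : R'.wd ≤ R.wd := by unfold Rect.wd; omega
        have hhle : R'.ht ≤ R.ht := by unfold Rect.ht; omega
        have hphi' : R'.phi = R'.wd + R'.ht := rfl
        obtain ⟨x, hx⟩ : ∃ x, R.wd = R'.wd + x := ⟨R.wd - R'.wd, by omega⟩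
        obtain ⟨y, hy⟩ : ∃ y, R.ht = R'.ht + y := ⟨R.ht - R'.ht, by omega⟩
        have hxy1 : ℓ M ≤ x + y := by omega
        have hexp : (D + 1) * ℓ M = D * ℓ M + ℓ M := by ring
        have hxy2 : x + y ≤ (D + 1) * ℓ M := by rw [hexp]; omega
        have hIH := ih R'.phi (by have := hℓ1 M; omega) R' hv' (by omega) (by omega) rfl
        have ha'k : k ≤ R'.wd := by omega
        have hb'k : k ≤ R'.ht := by omega
        have ha'1 : 1 ≤ R'.wd := by omega
        have hb'1 : 1 ≤ R'.ht := by omega
        set ub := 1 - (1 - p) ^ R'.ht with hub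
        set ua := 1 - (1 - p) ^ R'.wd with hua
        have hube : ub = Real.exp (-(v R'.ht)) := hv _ hb'1
        have huae : ua = Real.exp (-(v R'.wd)) := hv _ ha'1
        have hub0 : 0 < ub := by rw [hube]; exact Real.exp_pos _
        have hua0 : 0 < ua := by rw [huae]; exact Real.exp_pos _
        have hub1 : ub ≤ 1 := by
          rw [hub]
          have : 0 ≤ (1 - p) ^ R'.ht := pow_nonneg (by linarith) _
          linarith
        have hua1 : ua ≤ 1 := by
          rw [hua]
          have : 0 ≤ (1 - p) ^ R'.wd := pow_nonneg (by linarith) _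
          linarith
        have hocc := Pr_OccEv h0' hp1 hub0 hub1 hua0 hua1 hv' hs (le_refl _) (le_refl _)
        have ex : R.wd - R'.wd = x := by omega
        have ey : R.ht - R'.ht = y := by omega
        rw [ex, ey] at hocc
        set κ := p / (ub * ua) with hκ
        have hκ0 : 0 ≤ κ := by positivity
        have e1 : ub ^ x = Real.exp (-((x : ℝ) * v R'.ht)) := by
          rw [hube, ← Real.exp_nat_mul]
          congr 1
          ring
        have e2 : ua ^ y = Real.exp (-((y : ℝ) * v R'.wd)) := by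
          rw [huae, ← Real.exp_nat_mul]
          congr 1
          ring
        have e3 : (1 + κ) ^ (x * y) ≤ Real.exp ((x : ℝ) * y * κ) := by
          have : 1 + κ ≤ Real.exp κ := by
            have := Real.add_one_le_exp κ
            linarith
          calc (1 + κ) ^ (x * y) ≤ (Real.exp κ) ^ (x * y) :=
                pow_le_pow_left₀ (by linarith) this _
            _ = Real.exp ((x : ℝ) * y * κ) := by
                rw [← Real.exp_nat_mul]
                congr 1
                push_cast
                ring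
        have hgrow : Wf w R.wd R.ht ≤ Wf w R'.wd R'.ht + x * w R'.ht + y * w R'.wd := by
          rw [hx, hy]
          exact hw.grow _ _ _ _
        have hρb := hρ R'.ht hb'1 (by omega)
        have hρa := hρ R'.wd ha'1 (by omega)
        have hMb : R'.ht ≤ M := le_trans hhle (le_max_right _ _)
        have hMa : R'.wd ≤ M := le_trans hwle (le_max_left _ _)
        have hrb := hranti _ _ hMb
        have hra := hranti _ _ hMa
        have hrM := hr0 M
        have hx0 : (0 : ℝ) ≤ (x : ℝ) := Nat.cast_nonneg _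
        have hy0 : (0 : ℝ) ≤ (y : ℝ) := Nat.cast_nonneg _
        have hsum : (ℓ M : ℝ) ≤ (x : ℝ) + y := by exact_mod_cast hxy1
        have hLr := hℓr M hMB
        have hxTr : (x : ℝ) ≤ (((D + 1) * ℓ M : ℕ) : ℝ) := by
          exact_mod_cast (by omega : x ≤ (D + 1) * ℓ M)
        have hyTr : (y : ℝ) ≤ (((D + 1) * ℓ M : ℕ) : ℝ) := by
          exact_mod_cast (by omega : y ≤ (D + 1) * ℓ M)
        have huu : 0 < ub * ua := mul_pos hub0 hua0
        -- the key inequality on exponents
        have hkey : L ≤ (x : ℝ) * (v R'.ht - w R'.ht) + (y : ℝ) * (v R'.wd - w R'.wd) -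
            (x : ℝ) * y * κ := by
          have hlow : L ≤ 1 / 2 * ((x : ℝ) + y) * r M := by
            have : (ℓ M : ℝ) * r M ≤ ((x : ℝ) + y) * r M :=
              mul_le_mul_of_nonneg_right hsum hrM
            linarith
          rcases le_total R.ht R.wd with hcmp | hcmp
          · -- M = R.wd
            have hMw : M = R.wd := by rw [hM]; exact max_eq_left hcmp
            have hh := h2 M R'.wd R'.ht hXM hMB hb'k (by omega) (by omega) (by omega)
            have hyk : (y : ℝ) * κ ≤ 1 / 2 * (v R'.ht - w R'.ht) := by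
              rw [hκ, ← mul_div_assoc, div_le_iff₀ huu]
              calc (y : ℝ) * p ≤ (((D + 1) * ℓ M : ℕ) : ℝ) * p :=
                    mul_le_mul_of_nonneg_right hyTr h0'
                _ ≤ _ := hh
                _ = _ := by ring
            have h6 : (x : ℝ) * y * κ ≤ (x : ℝ) * (1 / 2 * (v R'.ht - w R'.ht)) := by
              rw [mul_assoc]
              exact mul_le_mul_of_nonneg_left hyk hx0
            have h8 : (x : ℝ) * r M ≤ (x : ℝ) * (v R'.ht - w R'.ht) :=
              mul_le_mul_of_nonneg_left (hrb.trans hρb) hx0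
            have h9 : (y : ℝ) * r M ≤ (y : ℝ) * (v R'.wd - w R'.wd) :=
              mul_le_mul_of_nonneg_left (hra.trans hρa) hy0
            have h10 : 0 ≤ (y : ℝ) * r M := mul_nonneg hy0 hrM
            linarith
          · have hMw : M = R.ht := by rw [hM]; exact max_eq_right hcmp
            have hh := h2 M R'.ht R'.wd hXM hMB ha'k (by omega) (by omega) (by omega)
            have hyk : (x : ℝ) * κ ≤ 1 / 2 * (v R'.wd - w R'.wd) := by
              rw [hκ, ← mul_div_assoc, div_le_iff₀ huu]
              calc (x : ℝ) * p ≤ (((D + 1) * ℓ M : ℕ) : ℝ) * p :=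
                    mul_le_mul_of_nonneg_right hxTr h0'
                _ ≤ _ := hh
                _ = _ := by ring
            have h6 : (x : ℝ) * y * κ ≤ (y : ℝ) * (1 / 2 * (v R'.wd - w R'.wd)) := by
              calc (x : ℝ) * y * κ = (y : ℝ) * ((x : ℝ) * κ) := by ring
                _ ≤ _ := mul_le_mul_of_nonneg_left hyk hy0
            have h8 : (x : ℝ) * r M ≤ (x : ℝ) * (v R'.ht - w R'.ht) :=
              mul_le_mul_of_nonneg_left (hrb.trans hρb) hx0
            have h9 : (y : ℝ) * r M ≤ (y : ℝ) * (v R'.wd - w R'.wd) :=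
              mul_le_mul_of_nonneg_left (hra.trans hρa) hy0
            have h10 : 0 ≤ (x : ℝ) * r M := mul_nonneg hx0 hrM
            linarith
        have hP0 : 0 ≤ Pr p (R.sites \ R'.sites) (OccEv R' R) := Pr_nonneg h0' hp1 _ _
        calc Q p R' * Pr p (R.sites \ R'.sites) (OccEv R' R)
            ≤ Real.exp (-(Wf w R'.wd R'.ht)) * (ub ^ x * ua ^ y * (1 + κ) ^ (x * y)) :=
              mul_le_mul hIH hocc hP0 (Real.exp_pos _).le
          _ ≤ Real.exp (-(Wf w R'.wd R'.ht)) *
              (Real.exp (-((x : ℝ) * v R'.ht)) * Real.exp (-((y : ℝ) * v R'.wd)) *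
                Real.exp ((x : ℝ) * y * κ)) := by
              rw [e1, e2]
              apply mul_le_mul_of_nonneg_left _ (Real.exp_pos _).le
              apply mul_le_mul_of_nonneg_left e3
              positivity
          _ ≤ c := by
              rw [← Real.exp_add, ← Real.exp_add, ← Real.exp_add, hc]
              apply Real.exp_le_exp.2
              linarith
      · -- merging
        intro R' S hv1 hv2 hs1 hs2 ht hn1 hn2 hhull hφ hτ1 hτ2
        have hvv1 := hv1
        have hvv2 := hv2
        unfold Rect.valid at hvv1 hvv2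
        have hss1 := hs1
        have hss2 := hs2
        have hnn1 := hn1
        have hnn2 := hn2
        have htt := ht
        have hhh := hhull
        unfold Rect.sub at hss1 hss2 hnn1 hnn2
        unfold Rect.touch at htt
        unfold Rect.sub Rect.hull at hhh
        simp only at hhh
        have hwle : R'.wd ≤ R.wd := by unfold Rect.wd; omega
        have hhle : R'.ht ≤ R.ht := by unfold Rect.ht; omega
        have hwle2 : S.wd ≤ R.wd := by unfold Rect.wd; omega
        have hhle2 : S.ht ≤ R.ht := by unfold Rect.ht; omega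
        have hlt1 : R'.phi < R.phi := by unfold Rect.phi; omega
        have hlt2 : S.phi < R.phi := by unfold Rect.phi; omega
        set H := R'.hull S with hH
        have hHw1 : R'.wd ≤ H.wd := by unfold Rect.wd; rw [hH]; unfold Rect.hull; simp only; omega
        have hHh1 : R'.ht ≤ H.ht := by unfold Rect.ht; rw [hH]; unfold Rect.hull; simp only; omega
        have hHw2 : S.wd ≤ H.wd := by unfold Rect.wd; rw [hH]; unfold Rect.hull; simp only; omega
        have hHh2 : S.ht ≤ H.ht := by unfold Rect.ht; rw [hH]; unfold Rect.hull; simp only; omega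
        have hHw3 : H.wd ≤ R'.wd + S.wd := by
          unfold Rect.wd; rw [hH]; unfold Rect.hull; simp only; omega
        have hHh3 : H.ht ≤ R'.ht + S.ht := by
          unfold Rect.ht; rw [hH]; unfold Rect.hull; simp only; omega
        have hHwR : H.wd ≤ R.wd := by
          unfold Rect.wd; rw [hH]; unfold Rect.hull; simp only; omega
        have hHhR : H.ht ≤ R.ht := by
          unfold Rect.ht; rw [hH]; unfold Rect.hull; simp only; omega
        have hHphi : H.phi = H.wd + H.ht := rfl
        have hI1 := ih R'.phi (by omega) R' hv1 (by omega) (by omega) rfl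
        have hI2 := ih S.phi (by omega) S hv2 (by omega) (by omega) rfl
        obtain ⟨x, hx⟩ : ∃ x, R.wd = H.wd + x := ⟨R.wd - H.wd, by omega⟩
        obtain ⟨y, hy⟩ : ∃ y, R.ht = H.ht + y := ⟨R.ht - H.ht, by omega⟩
        have hxy : x + y ≤ ℓ M := by omega
        have hdrop : Wf w R.wd R.ht ≤ Wf w H.wd H.ht + (ℓ M : ℝ) * w 0 := by
          rw [hx, hy]
          refine (hw.grow_w0 _ _ _ _).trans ?_
          have : ((x + y : ℕ) : ℝ) * w 0 ≤ (ℓ M : ℝ) * w 0 :=
            mul_le_mul_of_nonneg_right (by exact_mod_cast hxy) hw0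
          linarith
        have hmerge := hw.merge hHw3 hHh3 hHw1 hHw2 hHh1 hHh2
        have hℓM1 : (1 : ℝ) ≤ (ℓ M : ℝ) := by exact_mod_cast hℓ1 M
        have hbonus : (ℓ M : ℝ) * w 0 + L ≤ β * ((D * ℓ M : ℕ) : ℝ) := by
          push_cast
          have q1 : (w 0 + L) * (ℓ M : ℝ) ≤ β * D * (ℓ M : ℝ) :=
            mul_le_mul_of_nonneg_right h4 (by linarith)
          have q2 : L * 1 ≤ L * (ℓ M : ℝ) := mul_le_mul_of_nonneg_left hℓM1 hL0
          nlinarith
        by_cases hnfS : (S.wd ≤ 2 * k ∨ S.ht ≤ 2 * k) ∨ ((S.wd : ℝ) ≤ X ∧ (S.ht : ℝ) ≤ X)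
        · have hS := h3 S hv2 (by omega) (by omega) hnfS
          have hb : β * ((D * ℓ M : ℕ) : ℝ) ≤ β * (S.phi : ℝ) :=
            mul_le_mul_of_nonneg_left (by exact_mod_cast hτ2) hβ0
          calc Q p R' * Q p S ≤ Real.exp (-(Wf w R'.wd R'.ht)) *
                Real.exp (-(Wf w S.wd S.ht) - β * (S.phi : ℝ)) :=
                mul_le_mul hI1 hS (Q_nonneg h0' hp1 _) (Real.exp_pos _).le
            _ ≤ c := by
                rw [← Real.exp_add, hc]
                apply Real.exp_le_exp.2
                linarith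
        · by_cases hnfR : (R'.wd ≤ 2 * k ∨ R'.ht ≤ 2 * k) ∨ ((R'.wd : ℝ) ≤ X ∧ (R'.ht : ℝ) ≤ X)
          · have hS := h3 R' hv1 (by omega) (by omega) hnfR
            have hb : β * ((D * ℓ M : ℕ) : ℝ) ≤ β * (R'.phi : ℝ) :=
              mul_le_mul_of_nonneg_left (by exact_mod_cast hτ1) hβ0
            calc Q p R' * Q p S ≤ Real.exp (-(Wf w R'.wd R'.ht) - β * (R'.phi : ℝ)) *
                  Real.exp (-(Wf w S.wd S.ht)) :=
                  mul_le_mul hS hI2 (Q_nonneg h0' hp1 _) (Real.exp_pos _).le
              _ ≤ c := by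
                  rw [← Real.exp_add, hc]
                  apply Real.exp_le_exp.2
                  linarith
          · push Not at hnfS hnfR
            have hgain := hw.merge_gain (k := k) hHw3 hHh3 hHw1 hHw2 hHh1 hHh2
              (by omega) (by omega) (by omega) (by omega)
            have h5' := h5 M hMB
            calc Q p R' * Q p S ≤ Real.exp (-(Wf w R'.wd R'.ht)) *
                  Real.exp (-(Wf w S.wd S.ht)) :=
                  mul_le_mul hI1 hI2 (Q_nonneg h0' hp1 _) (Real.exp_pos _).le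
              _ ≤ c := by
                  rw [← Real.exp_add, hc]
                  apply Real.exp_le_exp.2
                  linarith

end Pool.Agent.Helper42.Boot
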