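import Pool.Agent.Helper42.Boot.Eventual
import Pool.Agent.Helper42.Boot.Bridge

set_option autoImplicit false

namespace Pool.Agent.Helper42.Boot

open Finset Filter Topology

/-- the percolation probability of the grid -/
noncomputable def PP (n : ℕ) (p : ℝ) : ℝ := Pr p (grid n).sites (Spans (grid n).sites)

/-- the critical probability -/
noncomputable def pcrit (n : ℕ) : ℝ := sInf {p : ℝ | 0 ≤ p ∧ p ≤ 1 ∧ 1 / 2 ≤ PP n p}

theorem PP_zero {n : ℕ} (hn : 1 ≤ n) : PP n 0 = 0 := by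
  classical
  unfold PP Pr
  apply Finset.sum_eq_zero
  intro A hA
  by_cases h : Spans (grid n).sites A
  · rw [if_pos h]
    have hne : A.card ≠ 0 := by
      intro h0
      rw [Finset.card_eq_zero] at h0
      subst h0
      have h1 := h ∅ (Finset.Subset.refl _) (by
        rintro v _ ⟨⟨u, hu, _⟩, _⟩
        exact absurd hu (Finset.notMem_empty _))
      have h2 : ((0 : ℕ), (0 : ℕ)) ∈ (grid n).sites := by
        rw [mem_grid]
        exact ⟨by omega, by omega⟩
      exact absurd (h1 h2) (Finset.notMem_empty _)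
    rw [zero_pow hne, zero_mul]
  · rw [if_neg h]

theorem log_tendsto : Tendsto (fun n : ℕ => Real.log (n : ℝ)) atTop atTop :=
  Real.tendsto_log_atTop.comp tendsto_natCast_atTop_atTop

theorem lam_bounds : 3 / 2 ≤ Real.pi ^ 2 / 6 ∧ Real.pi ^ 2 / 6 ≤ 2 := by
  have h1 := Real.pi_gt_d2
  have h2 := Real.pi_lt_d2
  have h3 := Real.pi_pos
  constructor
  · nlinarith
  · nlinarith

theorem pc_le : ∀ᶠ n : ℕ in atTop,
    (0 ≤ Real.pi ^ 2 / 6 / Real.log n - 1 / 6400 * Real.log n ^ (-(3 / 2 : ℝ)) ∧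
      Real.pi ^ 2 / 6 / Real.log n - 1 / 6400 * Real.log n ^ (-(3 / 2 : ℝ)) ≤ 1 ∧
      1 / 2 ≤ PP n (Real.pi ^ 2 / 6 / Real.log n - 1 / 6400 * Real.log n ^ (-(3 / 2 : ℝ)))) := by
  obtain ⟨hl1, hl2⟩ := lam_bounds
  set lam := Real.pi ^ 2 / 6 with hlam
  have hlow := lower_ev
  rw [eventually_nhdsWithin_iff, Metric.eventually_nhds_iff] at hlow
  obtain ⟨r, hr, hlow⟩ := hlow
  have h1 := log_tendsto.eventually_gt_atTop (max 2 (2 / r))
  filter_upwards [h1, eventually_ge_atTop 1] with n hn hn1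
  set L := Real.log n with hL
  have hL2 : 2 < L := lt_of_le_of_lt (le_max_left _ _) hn
  have hLr : 2 / r < L := lt_of_le_of_lt (le_max_right _ _) hn
  have hL0 : 0 < L := by linarith
  set t := L ^ (-(1 / 2 : ℝ)) with ht
  have ht0 : 0 < t := Real.rpow_pos_of_pos hL0 _
  have ht1 : t ≤ 1 := Real.rpow_le_one_of_one_le_of_nonpos (by linarith) (by norm_num)
  have htt : t * t = 1 / L := by
    rw [ht, ← Real.rpow_add hL0]
    have : -(1 / 2 : ℝ) + -(1 / 2 : ℝ) = -1 := by norm_num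
    rw [this, Real.rpow_neg_one, one_div]
  have e32 : L ^ (-(3 / 2 : ℝ)) = t / L := by
    have : (-(3 / 2 : ℝ)) = -(1 / 2 : ℝ) + -1 := by norm_num
    rw [this, Real.rpow_add hL0, Real.rpow_neg_one, ← ht]
    exact (div_eq_mul_inv t L).symm
  rw [e32]
  set p := lam / L - 1 / 6400 * (t / L) with hp
  have hpL : p * L = lam - t / 6400 := by
    rw [hp]
    field_simp
  have hp1 : 1 / L ≤ p := by
    rw [div_le_iff₀ hL0, hpL]
    linarith
  have hp0 : 0 < p := lt_of_lt_of_le (by positivity) hp1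
  have hp2 : p ≤ 2 / L := by
    rw [le_div_iff₀ hL0, hpL]
    linarith
  have hpr : p < r := by
    refine lt_of_le_of_lt hp2 ?_
    rw [div_lt_iff₀ hL0]
    rw [div_lt_iff₀ hr] at hLr
    linarith
  have hp3 : p ≤ 1 := by
    refine hp2.trans ?_
    rw [div_le_iff₀ hL0]
    linarith
  refine ⟨hp0.le, hp3, ?_⟩
  have hn0 : (0 : ℝ) < n := by exact_mod_cast hn1
  refine hlow (y := p) ?_ hp0 n ?_ ?_
  · rw [Real.dist_eq, sub_zero, abs_of_pos hp0]
    exact hpr
  · rw [← Real.le_log_iff_exp_le hn0, ← hL]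
    -- lam / p - p^(-1/2)/3200 ≤ L
    have hs : t ≤ p ^ (1 / 2 : ℝ) := by
      have h5 : (1 / L) ^ (1 / 2 : ℝ) ≤ p ^ (1 / 2 : ℝ) :=
        Real.rpow_le_rpow (by positivity) hp1 (by norm_num)
      refine le_trans (le_of_eq ?_) h5
      rw [ht, one_div L, Real.inv_rpow hL0.le, Real.rpow_neg hL0.le]
    have e : p ^ (-(1 / 2 : ℝ)) = p ^ (1 / 2 : ℝ) / p := by
      have : (-(1 / 2 : ℝ)) = (1 / 2 : ℝ) - 1 := by norm_num
      rw [this, Real.rpow_sub hp0, Real.rpow_one]
    rw [e]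
    have e2 : lam / p - p ^ (1 / 2 : ℝ) / p / 3200 = (lam - p ^ (1 / 2 : ℝ) / 3200) / p := by
      field_simp
    rw [e2, div_le_iff₀ hp0, mul_comm, hpL]
    linarith
  · rw [← Real.log_le_iff_le_exp hn0, ← hL, le_div_iff₀ hp0, mul_comm, hpL]
    linarith

theorem pc_ge {η : ℝ} (hη : 0 < η) : ∀ᶠ n : ℕ in atTop,
    ∀ p : ℝ, 0 ≤ p → 1 / 2 ≤ PP n p →
      Real.pi ^ 2 / 6 / Real.log n - Real.log n ^ (-(3 / 2 : ℝ) + η) ≤ p := by
  obtain ⟨hl1, hl2⟩ := lam_bounds
  set lam := Real.pi ^ 2 / 6 with hlam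
  obtain ⟨δ, hδ, hδ1, hδη⟩ : ∃ δ : ℝ, 0 < δ ∧ δ ≤ 1 / 20 ∧ 3 * δ < η := by
    refine ⟨min (1 / 20) (η / 4), ?_, min_le_left _ _, ?_⟩
    · exact lt_min (by norm_num) (by linarith)
    · have := min_le_right (1 / 20) (η / 4)
      linarith
  have hup := upper_ev hδ hδ1
  rw [eventually_nhdsWithin_iff, Metric.eventually_nhds_iff] at hup
  obtain ⟨r, hr, hup⟩ := hup
  have h1 := log_tendsto.eventually_gt_atTop (max 2 (2 / r))
  have h2 : Tendsto (fun n : ℕ => Real.log (n : ℝ) ^ (η - 3 * δ)) atTop atTop :=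
    (tendsto_rpow_atTop (by linarith)).comp log_tendsto
  have h3 := h2.eventually_ge_atTop 2
  filter_upwards [h1, h3, eventually_ge_atTop 1] with n hn hn3 hn1 p hp0' hPP
  by_contra hcon
  push Not at hcon
  set L := Real.log n with hL
  have hL2 : 2 < L := lt_of_le_of_lt (le_max_left _ _) hn
  have hLr : 2 / r < L := lt_of_le_of_lt (le_max_right _ _) hn
  have hL0 : 0 < L := by linarith
  have hp0 : 0 < p := by
    rcases hp0'.lt_or_eq with h | h
    · exact h
    · rw [← h, PP_zero hn1] at hPP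
      norm_num at hPP
  have e32 : L ^ (-(3 / 2 : ℝ) + η) = L ^ (-(1 / 2 : ℝ) + η) / L := by
    have : (-(3 / 2 : ℝ)) + η = (-(1 / 2 : ℝ) + η) - 1 := by ring
    rw [this, Real.rpow_sub hL0, Real.rpow_one]
  rw [e32] at hcon
  set t := L ^ (-(1 / 2 : ℝ) + η) with ht
  have ht0 : 0 < t := Real.rpow_pos_of_pos hL0 _
  have hpL : p * L ≤ lam - t := by
    have h5 := mul_le_mul_of_nonneg_right hcon.le hL0.le
    have e : (lam / L - t / L) * L = lam - t := by field_simp
    rwa [e] at h5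
  have hp2 : p ≤ 2 / L := by
    rw [le_div_iff₀ hL0]
    linarith
  have hpr : p < r := by
    refine lt_of_le_of_lt hp2 ?_
    rw [div_lt_iff₀ hL0]
    rw [div_lt_iff₀ hr] at hLr
    linarith
  have hn0 : (0 : ℝ) < n := by exact_mod_cast hn1
  have hlt := hup (y := p) (by rw [Real.dist_eq, sub_zero, abs_of_pos hp0]; exact hpr) hp0 n hn1 ?_
  · unfold PP at hPP
    linarith
  · rw [← Real.log_le_iff_le_exp hn0, ← hL]
    have hs : p ^ (1 / 2 - 3 * δ) ≤ t := by
      have h5 : p ^ (1 / 2 - 3 * δ) ≤ (2 / L) ^ (1 / 2 - 3 * δ) :=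
        Real.rpow_le_rpow hp0.le hp2 (by linarith)
      refine h5.trans ?_
      rw [Real.div_rpow (by norm_num) hL0.le]
      have h6 : (2 : ℝ) ^ (1 / 2 - 3 * δ) ≤ 2 := by
        calc (2 : ℝ) ^ (1 / 2 - 3 * δ) ≤ (2 : ℝ) ^ (1 : ℝ) :=
              Real.rpow_le_rpow_of_exponent_le (by norm_num) (by linarith)
          _ = 2 := Real.rpow_one 2
      have e : t = L ^ (η - 3 * δ) / L ^ (1 / 2 - 3 * δ) := by
        rw [ht, ← Real.rpow_sub hL0]
        congr 1
        ring
      rw [e]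
      exact div_le_div_of_nonneg_right (h6.trans hn3) (Real.rpow_pos_of_pos hL0 _).le
    have e : p ^ (-(1 / 2) - 3 * δ) = p ^ (1 / 2 - 3 * δ) / p := by
      have : (-(1 / 2 : ℝ)) - 3 * δ = (1 / 2 - 3 * δ) - 1 := by ring
      rw [this, Real.rpow_sub hp0, Real.rpow_one]
    rw [e, ← sub_div, le_div_iff₀ hp0, mul_comm]
    linarith

theorem main :
    ∃ ε : ℕ → ℝ, Filter.Tendsto ε Filter.atTop (nhds 0) ∧
      ∀ᶠ n : ℕ in Filter.atTop,
        pcrit n = Real.pi ^ 2 / (6 * Real.log n) - 1 / Real.log n ^ ((3 : ℝ) / 2 + ε n) := by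
  set lam := Real.pi ^ 2 / 6 with hlam
  -- bounds on the gap
  have hupper : ∀ᶠ n : ℕ in atTop,
      1 / 6400 * Real.log n ^ (-(3 / 2 : ℝ)) ≤ lam / Real.log n - pcrit n := by
    filter_upwards [pc_le] with n hn
    have : pcrit n ≤ lam / Real.log n - 1 / 6400 * Real.log n ^ (-(3 / 2 : ℝ)) := by
      unfold pcrit
      refine csInf_le ⟨0, ?_⟩ hn
      rintro p ⟨hp, _⟩
      exact hp
    linarith
  have hlower : ∀ η : ℝ, 0 < η → ∀ᶠ n : ℕ in atTop,
      lam / Real.log n - pcrit n ≤ Real.log n ^ (-(3 / 2 : ℝ) + η) := by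
    intro η hη
    filter_upwards [pc_le, pc_ge hη] with n hn hge
    have : lam / Real.log n - Real.log n ^ (-(3 / 2 : ℝ) + η) ≤ pcrit n := by
      unfold pcrit
      refine le_csInf ⟨_, hn⟩ ?_
      rintro p ⟨hp, _, hp2⟩
      exact hge p hp hp2
    linarith
  refine ⟨fun n => -Real.log (lam / Real.log n - pcrit n) / Real.log (Real.log n) - 3 / 2, ?_, ?_⟩
  · rw [Metric.tendsto_nhds]
    intro η hη
    have hLL : Tendsto (fun n : ℕ => Real.log (Real.log (n : ℝ))) atTop atTop :=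
      Real.tendsto_log_atTop.comp log_tendsto
    filter_upwards [hupper, hlower (η / 2) (by linarith), log_tendsto.eventually_gt_atTop 1,
      hLL.eventually_gt_atTop (max 0 (Real.log 6400 / η))] with n h1 h2 h3 h4
    set L := Real.log n with hL
    set D := lam / L - pcrit n with hD
    have hL0 : 0 < L := by linarith
    have hLL0 : 0 < Real.log L := lt_of_le_of_lt (le_max_left _ _) h4
    have hLL1 : Real.log 6400 / η < Real.log L := lt_of_le_of_lt (le_max_right _ _) h4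
    have hD0 : 0 < D := lt_of_lt_of_le (by positivity) h1
    have b1 : Real.log D ≤ (-(3 / 2 : ℝ) + η / 2) * Real.log L := by
      have := Real.log_le_log hD0 h2
      rwa [Real.log_rpow hL0] at this
    have b2 : -Real.log 6400 + (-(3 / 2 : ℝ)) * Real.log L ≤ Real.log D := by
      have := Real.log_le_log (by positivity) h1
      rwa [Real.log_mul (by norm_num) (Real.rpow_pos_of_pos hL0 _).ne', Real.log_rpow hL0, one_div,
        Real.log_inv] at this
    rw [Real.dist_eq, sub_zero, abs_lt]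
    constructor
    · have : -η / 2 + 3 / 2 ≤ -Real.log D / Real.log L := by
        rw [le_div_iff₀ hLL0]
        linarith
      linarith
    · have : -Real.log D / Real.log L < η + 3 / 2 := by
        rw [div_lt_iff₀ hLL0]
        rw [div_lt_iff₀ hη] at hLL1
        linarith
      linarith
  · have hLL : Tendsto (fun n : ℕ => Real.log (Real.log (n : ℝ))) atTop atTop :=
      Real.tendsto_log_atTop.comp log_tendsto
    filter_upwards [hupper, log_tendsto.eventually_gt_atTop 1, hLL.eventually_gt_atTop 0] with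
      n h1 h3 h4
    set L := Real.log n with hL
    have hL0 : 0 < L := by linarith
    set D := lam / L - pcrit n with hD
    have hD0 : 0 < D := lt_of_lt_of_le (by positivity) h1
    have e1 : L ^ ((3 : ℝ) / 2 + (-Real.log D / Real.log L - 3 / 2)) = D⁻¹ := by
      rw [Real.rpow_def_of_pos hL0]
      have : Real.log L * ((3 : ℝ) / 2 + (-Real.log D / Real.log L - 3 / 2)) = -Real.log D := by
        field_simp
        ring
      rw [this, Real.exp_neg, Real.exp_log hD0]
    rw [e1, one_div, inv_inv, hD, hlam]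
    have : Real.pi ^ 2 / (6 * L) = Real.pi ^ 2 / 6 / L := by
      field_simp
    rw [this]
    ring

end Pool.Agent.Helper42.Boot
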