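import Pool.Agent.Helper42.Boot.Analysis

set_option autoImplicit false

namespace Pool.Agent.Helper42.Boot

open Finset

theorem inv_exp_sub_one_ge {y : ℝ} (hy : 0 < y) : 1 / y - 1 ≤ 1 / (Real.exp y - 1) := by
  have hE : 0 < Real.exp y - 1 := by
    have := Real.add_one_lt_exp (ne_of_gt hy)
    linarith
  rcases le_or_gt 1 y with h | h
  · have h1 : 1 / y ≤ 1 := by rw [div_le_one hy]; exact h
    have h2 : 0 ≤ 1 / (Real.exp y - 1) := by positivity
    linarith
  · have h1 : Real.exp y ≤ 1 / (1 - y) := by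
      have := Real.one_sub_le_exp_neg y
      rw [Real.exp_neg] at this
      rw [le_div_iff₀ (by linarith)]
      have hp := Real.exp_pos y
      calc Real.exp y * (1 - y) ≤ Real.exp y * (Real.exp y)⁻¹ :=
            mul_le_mul_of_nonneg_left this hp.le
        _ = 1 := mul_inv_cancel₀ (ne_of_gt hp)
    have h2 : Real.exp y - 1 ≤ y / (1 - y) := by
      have : y / (1 - y) = 1 / (1 - y) - 1 := by
        have : (1 - y) ≠ 0 := by linarith
        field_simp
        ring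
      rw [this]
      linarith
    have h3 : 1 / (y / (1 - y)) ≤ 1 / (Real.exp y - 1) := one_div_le_one_div_of_le hE h2
    have e : 1 / (y / (1 - y)) = 1 / y - 1 := by
      have : (1 - y) ≠ 0 := by linarith
      field_simp
    linarith

theorem geom_sum_exp {y : ℝ} (hy : 0 < y) (N : ℕ) :
    ∑ j ∈ range N, Real.exp (-(((j : ℝ) + 1) * y)) =
      (1 - Real.exp (-(N * y))) * (1 / (Real.exp y - 1)) := by
  have hE : 0 < Real.exp y - 1 := by
    have := Real.add_one_lt_exp (ne_of_gt hy)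
    linarith
  induction N with
  | zero => simp
  | succ N ih =>
    rw [Finset.sum_range_succ, ih]
    have e1 : Real.exp (-(((N + 1 : ℕ) : ℝ) * y)) =
        Real.exp (-(N * y)) * (Real.exp y)⁻¹ := by
      rw [← Real.exp_neg, ← Real.exp_add]
      congr 1
      push_cast
      ring
    have e2 : Real.exp (-(((N : ℝ) + 1) * y)) = Real.exp (-(N * y)) * (Real.exp y)⁻¹ := by
      rw [← Real.exp_neg, ← Real.exp_add]
      congr 1
      ring
    rw [e1, e2]
    have hp : Real.exp y ≠ 0 := ne_of_gt (Real.exp_pos y)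
    have hE' : Real.exp y - 1 ≠ 0 := ne_of_gt hE
    field_simp
    ring

theorem zeta_partial_ge {K : ℕ} (hK : 1 ≤ K) :
    Real.pi ^ 2 / 6 - 1 / K ≤ ∑ m ∈ range K, 1 / ((m : ℝ) + 1) ^ 2 := by
  have hs : HasSum (fun n : ℕ => 1 / ((n : ℝ) + 1) ^ 2) (Real.pi ^ 2 / 6) := by
    have h := hasSum_zeta_two
    have h2 := (hasSum_nat_add_iff' (f := fun n : ℕ => 1 / (n : ℝ) ^ 2) 1).2 h
    simpa using h2
  have ht := hs.tendsto_sum_nat
  have hanti : ∀ n : ℕ, ∑ m ∈ range (K + n), 1 / ((m : ℝ) + 1) ^ 2 + 1 / ((K + n : ℕ) : ℝ) ≤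
      ∑ m ∈ range K, 1 / ((m : ℝ) + 1) ^ 2 + 1 / K := by
    intro n
    induction n with
    | zero => simp
    | succ n ih =>
      refine le_trans ?_ ih
      rw [← Nat.add_assoc, Finset.sum_range_succ]
      have hpos : (0 : ℝ) < ((K + n : ℕ) : ℝ) := by exact_mod_cast (by omega : 0 < K + n)
      set z := ((K + n : ℕ) : ℝ) with hz
      have e : ((K + n + 1 : ℕ) : ℝ) = z + 1 := by push_cast; rw [hz]; push_cast; ring
      rw [e]
      have h3 : 1 / (z + 1) ^ 2 + 1 / (z + 1) ≤ 1 / z := by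
        rw [div_add_div _ _ (by positivity) (by positivity), div_le_div_iff₀ (by positivity) hpos]
        nlinarith [hpos, sq_nonneg z]
      linarith
  have hlim : Real.pi ^ 2 / 6 ≤ ∑ m ∈ range K, 1 / ((m : ℝ) + 1) ^ 2 + 1 / K := by
    apply le_of_tendsto ht
    filter_upwards [Filter.eventually_ge_atTop K] with n hn
    obtain ⟨d, rfl⟩ : ∃ d, n = K + d := ⟨n - K, by omega⟩
    have h1 := hanti d
    have h2 : (0 : ℝ) ≤ 1 / ((K + d : ℕ) : ℝ) := by positivity
    linarith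
  linarith

theorem zeta_partial_le (K : ℕ) :
    ∑ m ∈ range K, 1 / ((m : ℝ) + 1) ^ 2 ≤ Real.pi ^ 2 / 6 := by
  have hs : HasSum (fun n : ℕ => 1 / ((n : ℝ) + 1) ^ 2) (Real.pi ^ 2 / 6) := by
    have h := hasSum_zeta_two
    have h2 := (hasSum_nat_add_iff' (f := fun n : ℕ => 1 / (n : ℝ) ^ 2) 1).2 h
    simpa using h2
  apply sum_le_hasSum (range K) _ hs
  intro i _
  positivity

/-- lower bound on the sum of `ff`. -/
theorem sum_ff_ge {q : ℝ} (hq : 0 < q) (N K : ℕ) (hK : 1 ≤ K) (hKq : K * q ≤ 1) :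
    (Real.pi ^ 2 / 6) / q - 1 / (q * K) - K - Real.exp (-(N * q)) * ((Real.pi ^ 2 / 6) / q) ≤
      ∑ j ∈ range N, ff (q * ((j : ℝ) + 1)) := by
  set η := Real.exp (-(N * q)) with hη
  have hη0 : 0 < η := Real.exp_pos _
  have hη1 : η ≤ 1 := by
    rw [hη, Real.exp_le_one_iff]
    have : (0 : ℝ) ≤ N * q := mul_nonneg (Nat.cast_nonneg _) hq.le
    linarith
  have h1 : ∑ j ∈ range N, ∑ m ∈ range K,
      Real.exp (-(((m : ℝ) + 1) * (q * ((j : ℝ) + 1)))) / ((m : ℝ) + 1) ≤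
      ∑ j ∈ range N, ff (q * ((j : ℝ) + 1)) := by
    apply Finset.sum_le_sum
    intro j _
    exact sum_le_ff (by positivity) K
  refine le_trans ?_ h1
  rw [Finset.sum_comm]
  have h2 : ∀ m ∈ range K, (1 - η) * (1 / q * (1 / ((m : ℝ) + 1) ^ 2) - 1) ≤
      ∑ j ∈ range N, Real.exp (-(((m : ℝ) + 1) * (q * ((j : ℝ) + 1)))) / ((m : ℝ) + 1) := by
    intro m hm
    rw [Finset.mem_range] at hm
    rw [← Finset.sum_div]
    have hm0 : (0 : ℝ) < (m : ℝ) + 1 := by positivity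
    have hy : 0 < ((m : ℝ) + 1) * q := by positivity
    have e1 : ∀ j ∈ range N, Real.exp (-(((m : ℝ) + 1) * (q * ((j : ℝ) + 1)))) =
        Real.exp (-(((j : ℝ) + 1) * (((m : ℝ) + 1) * q))) := by
      intro j _
      congr 1
      ring
    rw [Finset.sum_congr rfl e1, geom_sum_exp hy N]
    have hmq : ((m : ℝ) + 1) * q ≤ 1 := by
      have : (m : ℝ) + 1 ≤ K := by exact_mod_cast hm
      calc ((m : ℝ) + 1) * q ≤ K * q := mul_le_mul_of_nonneg_right this hq.le
        _ ≤ 1 := hKq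
    have h3 : 1 / (((m : ℝ) + 1) * q) - 1 ≤ 1 / (Real.exp (((m : ℝ) + 1) * q) - 1) :=
      inv_exp_sub_one_ge hy
    have h4 : 0 ≤ 1 / (((m : ℝ) + 1) * q) - 1 := by
      have : 1 ≤ 1 / (((m : ℝ) + 1) * q) := by
        rw [le_div_iff₀ hy]; linarith
      linarith
    have h5 : 1 - η ≤ 1 - Real.exp (-(N * (((m : ℝ) + 1) * q))) := by
      have : Real.exp (-(N * (((m : ℝ) + 1) * q))) ≤ η := by
        rw [hη]
        apply Real.exp_le_exp.2
        have h6 : (N : ℝ) * q ≤ N * (((m : ℝ) + 1) * q) := by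
          apply mul_le_mul_of_nonneg_left _ (Nat.cast_nonneg _)
          have : (0 : ℝ) ≤ (m : ℝ) := Nat.cast_nonneg _
          nlinarith
        linarith
      linarith
    have h6 : (1 - η) * (1 / (((m : ℝ) + 1) * q) - 1) ≤
        (1 - Real.exp (-(N * (((m : ℝ) + 1) * q)))) * (1 / (Real.exp (((m : ℝ) + 1) * q) - 1)) :=
      mul_le_mul h5 h3 h4 (by linarith)
    rw [le_div_iff₀ hm0]
    refine le_trans ?_ h6
    have e2 : (1 - η) * (1 / q * (1 / ((m : ℝ) + 1) ^ 2) - 1) * ((m : ℝ) + 1) =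
        (1 - η) * (1 / (((m : ℝ) + 1) * q) - ((m : ℝ) + 1)) := by
      field_simp
    rw [e2]
    apply mul_le_mul_of_nonneg_left _ (by linarith)
    have : (0 : ℝ) ≤ (m : ℝ) := Nat.cast_nonneg _
    linarith
  refine le_trans ?_ (Finset.sum_le_sum h2)
  rw [← Finset.mul_sum, Finset.sum_sub_distrib, ← Finset.mul_sum, Finset.sum_const,
    Finset.card_range, nsmul_eq_mul, mul_one]
  have hz1 := zeta_partial_ge hK
  have hz2 := zeta_partial_le K
  set s := ∑ m ∈ range K, 1 / ((m : ℝ) + 1) ^ 2 with hs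
  have hKpos : (0 : ℝ) < K := by exact_mod_cast hK
  have e3 : (Real.pi ^ 2 / 6) / q - 1 / (q * K) = 1 / q * (Real.pi ^ 2 / 6 - 1 / K) := by
    field_simp
  have h7 : 1 / q * (Real.pi ^ 2 / 6 - 1 / K) ≤ 1 / q * s :=
    mul_le_mul_of_nonneg_left hz1 (by positivity)
  have h8 : 1 / q * s ≤ (Real.pi ^ 2 / 6) / q := by
    rw [one_div, inv_mul_eq_div]
    exact div_le_div_of_nonneg_right hz2 hq.le
  have h9 : η * (1 / q * s) ≤ η * ((Real.pi ^ 2 / 6) / q) :=
    mul_le_mul_of_nonneg_left h8 hη0.le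
  have h10 : 0 ≤ η * (K : ℝ) := by positivity
  rw [e3]
  nlinarith

/-- lower bound for the total cost. -/
theorem sum_wcost_ge {q : ℝ} (hq : 0 < q) {x0 : ℕ} (hx : 1 ≤ x0) (e : ℝ) (B K : ℕ)
    (hK : 1 ≤ K) (hKq : K * q ≤ 1) :
    2 * ((Real.pi ^ 2 / 6) / q - 1 / (q * K) - K -
      Real.exp (-(((x0 + B : ℕ) : ℝ) * q)) * ((Real.pi ^ 2 / 6) / q) - x0 * ff q - B * e) ≤
      ∑ i ∈ range B, (wcost q x0 e i + wcost q x0 e (i + 1)) := by
  have hc := wcost_cost hq hx e
  have h1 : ∑ i ∈ range B, (wcost q x0 e (i + 1) + wcost q x0 e (i + 1)) ≤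
      ∑ i ∈ range B, (wcost q x0 e i + wcost q x0 e (i + 1)) := by
    apply Finset.sum_le_sum
    intro i _
    have := hc.anti i
    linarith
  refine le_trans ?_ h1
  have h2 : ∀ i ∈ range B, 2 * (ff (q * (((x0 + i : ℕ) : ℝ) + 1)) - e) ≤
      wcost q x0 e (i + 1) + wcost q x0 e (i + 1) := by
    intro i _
    have h3 : gcost q x0 e (i + 1) ≤ wcost q x0 e (i + 1) := le_max_left _ _
    have e1 : gcost q x0 e (i + 1) = ff (q * (((x0 + i : ℕ) : ℝ) + 1)) - e := by
      unfold gcost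
      congr 2
      push_cast
      ring
    linarith
  refine le_trans ?_ (Finset.sum_le_sum h2)
  rw [← Finset.mul_sum]
  apply mul_le_mul_of_nonneg_left _ (by norm_num)
  rw [Finset.sum_sub_distrib, Finset.sum_const, Finset.card_range, nsmul_eq_mul]
  have h4 := sum_ff_ge hq (x0 + B) K hK hKq
  rw [Finset.sum_range_add] at h4
  have h5 : ∑ j ∈ range x0, ff (q * ((j : ℝ) + 1)) ≤ x0 * ff q := by
    calc ∑ j ∈ range x0, ff (q * ((j : ℝ) + 1)) ≤ ∑ _j ∈ range x0, ff q := by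
          apply Finset.sum_le_sum
          intro j _
          apply ff_anti hq
          have : (0 : ℝ) ≤ (j : ℝ) := Nat.cast_nonneg _
          nlinarith
      _ = x0 * ff q := by rw [Finset.sum_const, Finset.card_range, nsmul_eq_mul]
  linarith

end Pool.Agent.Helper42.Boot
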