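import Pool.Agent.Helper42.Boot.Occ
import Pool.Agent.Helper42.Boot.SumBound

set_option autoImplicit false

namespace Pool.Agent.Helper42.Boot

open Finset

theorem Pr_cols_ge {p : ℝ} (h0 : 0 ≤ p) (h1 : p ≤ 1) {a : ℝ} (ha : 0 ≤ a) (OR : Finset ℕ)
    (hOR : a ≤ 1 - (1 - p) ^ OR.card) (C0 : Finset ℕ) :
    a ^ C0.card ≤ Pr p (C0 ×ˢ OR) (fun A => ∀ i ∈ C0, ∃ j ∈ OR, (i, j) ∈ A) := by
  classical
  induction C0 using Finset.induction_on with
  | empty =>
    simp only [Finset.card_empty, pow_zero]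
    have : Pr p ((∅ : Finset ℕ) ×ˢ OR) (fun A => ∀ i ∈ (∅ : Finset ℕ), ∃ j ∈ OR, (i, j) ∈ A) =
        1 := by
      rw [← Pr_true (p := p) ((∅ : Finset ℕ) ×ˢ OR)]
      exact Pr_congr (fun A _ => by simp)
    rw [this]
  | insert c C0 hc ih =>
    have hV : (insert c C0) ×ˢ OR = (C0 ×ˢ OR) ∪ ({c} ×ˢ OR) := by
      rw [← Finset.union_product]
      congr 1
      ext x
      simp only [Finset.mem_union, Finset.mem_insert, Finset.mem_singleton]
      tauto
    have hd : Disjoint (C0 ×ˢ OR) (({c} : Finset ℕ) ×ˢ OR) := by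
      rw [Finset.disjoint_left]
      rintro ⟨i, j⟩ h2 h3
      simp only [Finset.mem_product, Finset.mem_singleton] at h2 h3
      rw [h3.1] at h2
      exact hc h2.1
    rw [hV, Finset.card_insert_of_notMem hc, pow_succ]
    have hstep := Pr_indep_ge (p := p) h0 h1 hd
      (E := fun A => ∀ i ∈ insert c C0, ∃ j ∈ OR, (i, j) ∈ A)
      (F := fun A => ∀ i ∈ C0, ∃ j ∈ OR, (i, j) ∈ A) (G := fun A => A.Nonempty)
      (by
        intro A hA B hB h1 h2 i hi
        rw [Finset.mem_insert] at hi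
        rcases hi with rfl | hi
        · obtain ⟨⟨i', j⟩, hj⟩ := h2
          have := hB hj
          simp only [Finset.mem_product, Finset.mem_singleton] at this
          refine ⟨j, this.2, Finset.mem_union_right _ ?_⟩
          rw [this.1] at hj
          exact hj
        · obtain ⟨j, hj, hjA⟩ := h1 i hi
          exact ⟨j, hj, Finset.mem_union_left _ hjA⟩)
    refine le_trans ?_ hstep
    rw [Pr_occ]
    apply mul_le_mul ih _ ha (Pr_nonneg h0 h1 _ _)
    rw [Finset.card_product, Finset.card_singleton, one_mul]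
    exact hOR

theorem Pr_rows_ge {p : ℝ} (h0 : 0 ≤ p) (h1 : p ≤ 1) {a : ℝ} (ha : 0 ≤ a) (OC : Finset ℕ)
    (hOC : a ≤ 1 - (1 - p) ^ OC.card) (R0 : Finset ℕ) :
    a ^ R0.card ≤ Pr p (OC ×ˢ R0) (fun A => ∀ j ∈ R0, ∃ i ∈ OC, (i, j) ∈ A) := by
  classical
  induction R0 using Finset.induction_on with
  | empty =>
    simp only [Finset.card_empty, pow_zero]
    have : Pr p (OC ×ˢ (∅ : Finset ℕ)) (fun A => ∀ j ∈ (∅ : Finset ℕ), ∃ i ∈ OC, (i, j) ∈ A) =
        1 := by
      rw [← Pr_true (p := p) (OC ×ˢ (∅ : Finset ℕ))]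
      exact Pr_congr (fun A _ => by simp)
    rw [this]
  | insert c R0 hc ih =>
    have hV : OC ×ˢ (insert c R0) = (OC ×ˢ R0) ∪ (OC ×ˢ {c}) := by
      rw [← Finset.product_union]
      congr 1
      ext x
      simp only [Finset.mem_union, Finset.mem_insert, Finset.mem_singleton]
      tauto
    have hd : Disjoint (OC ×ˢ R0) (OC ×ˢ ({c} : Finset ℕ)) := by
      rw [Finset.disjoint_left]
      rintro ⟨i, j⟩ h2 h3
      simp only [Finset.mem_product, Finset.mem_singleton] at h2 h3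
      rw [h3.2] at h2
      exact hc h2.2
    rw [hV, Finset.card_insert_of_notMem hc, pow_succ]
    have hstep := Pr_indep_ge (p := p) h0 h1 hd
      (E := fun A => ∀ j ∈ insert c R0, ∃ i ∈ OC, (i, j) ∈ A)
      (F := fun A => ∀ j ∈ R0, ∃ i ∈ OC, (i, j) ∈ A) (G := fun A => A.Nonempty)
      (by
        intro A hA B hB h1 h2 j hj
        rw [Finset.mem_insert] at hj
        rcases hj with rfl | hj
        · obtain ⟨⟨i, j'⟩, hi⟩ := h2
          have := hB hi
          simp only [Finset.mem_product, Finset.mem_singleton] at this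
          refine ⟨i, this.1, Finset.mem_union_right _ ?_⟩
          rw [this.2] at hi
          exact hi
        · obtain ⟨i, hi, hiA⟩ := h1 j hj
          exact ⟨i, hi, Finset.mem_union_left _ hiA⟩)
    refine le_trans ?_ hstep
    rw [Pr_occ]
    apply mul_le_mul ih _ ha (Pr_nonneg h0 h1 _ _)
    rw [Finset.card_product, Finset.card_singleton, mul_one]
    exact hOC

/-- If a row is full on `[a1,a2)` and the adjacent row `j'` has a site there then it fills. -/
theorem fill_row {V S : Finset (ℕ × ℕ)} (hcl : ClosedOn V S) {a1 a2 j j' : ℕ}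
    (hadj' : j + 1 = j' ∨ j' + 1 = j)
    (hV : ∀ i, a1 ≤ i → i < a2 → (i, j') ∈ V)
    (hfull : ∀ i, a1 ≤ i → i < a2 → (i, j) ∈ S)
    {i0 : ℕ} (hi1 : a1 ≤ i0) (hi2 : i0 < a2) (hi : (i0, j') ∈ S) :
    ∀ i, a1 ≤ i → i < a2 → (i, j') ∈ S := by
  -- to the right
  have right : ∀ d, i0 + d < a2 → (i0 + d, j') ∈ S := by
    intro d
    induction d with
    | zero => intro _; exact hi
    | succ d ih =>
      intro hd
      have h1 := ih (by omega)
      apply hcl _ (hV _ (by omega) (by omega))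
      refine ⟨⟨_, h1, rfl, Or.inl rfl⟩, ⟨_, hfull (i0 + (d + 1)) (by omega) (by omega), rfl, ?_⟩⟩
      exact hadj'
  have left : ∀ d, a1 + d ≤ i0 → (i0 - d, j') ∈ S := by
    intro d
    induction d with
    | zero => intro _; simpa using hi
    | succ d ih =>
      intro hd
      have h1 := ih (by omega)
      apply hcl _ (hV _ (by omega) (by omega))
      refine ⟨⟨_, h1, rfl, Or.inr ?_⟩, ⟨_, hfull (i0 - (d + 1)) (by omega) (by omega), rfl, ?_⟩⟩
      · show i0 - (d + 1) + 1 = i0 - d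
        omega
      · exact hadj'
  intro i h1 h2
  rcases Nat.lt_or_ge i i0 with h | h
  · have := left (i0 - i) (by omega)
    have e : i0 - (i0 - i) = i := by omega
    rw [e] at this
    exact this
  · have := right (i - i0) (by omega)
    have e : i0 + (i - i0) = i := by omega
    rw [e] at this
    exact this

theorem fill_col {V S : Finset (ℕ × ℕ)} (hcl : ClosedOn V S) {b1 b2 i i' : ℕ}
    (hadj' : i + 1 = i' ∨ i' + 1 = i)
    (hV : ∀ j, b1 ≤ j → j < b2 → (i', j) ∈ V)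
    (hfull : ∀ j, b1 ≤ j → j < b2 → (i, j) ∈ S)
    {j0 : ℕ} (hj1 : b1 ≤ j0) (hj2 : j0 < b2) (hj : (i', j0) ∈ S) :
    ∀ j, b1 ≤ j → j < b2 → (i', j) ∈ S := by
  have right : ∀ d, j0 + d < b2 → (i', j0 + d) ∈ S := by
    intro d
    induction d with
    | zero => intro _; exact hj
    | succ d ih =>
      intro hd
      have h1 := ih (by omega)
      apply hcl _ (hV _ (by omega) (by omega))
      refine ⟨⟨_, hfull (j0 + (d + 1)) (by omega) (by omega), rfl, ?_⟩, ⟨_, h1, rfl, Or.inl rfl⟩⟩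
      exact hadj'
  have left : ∀ d, b1 + d ≤ j0 → (i', j0 - d) ∈ S := by
    intro d
    induction d with
    | zero => intro _; simpa using hj
    | succ d ih =>
      intro hd
      have h1 := ih (by omega)
      apply hcl _ (hV _ (by omega) (by omega))
      refine ⟨⟨_, hfull (j0 - (d + 1)) (by omega) (by omega), rfl, ?_⟩, ⟨_, h1, rfl, Or.inr ?_⟩⟩
      · exact hadj'
      · show j0 - (d + 1) + 1 = j0 - d
        omega
  intro j h1 h2
  rcases Nat.lt_or_ge j j0 with h | h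
  · have := left (j0 - j) (by omega)
    have e : j0 - (j0 - j) = j := by omega
    rw [e] at this
    exact this
  · have := right (j - j0) (by omega)
    have e : j0 + (j - j0) = j := by omega
    rw [e] at this
    exact this

/-- growth upwards -/
theorem grow_rows_up {V S : Finset (ℕ × ℕ)} (hcl : ClosedOn V S) {a1 a2 b1 b2 b3 : ℕ}
    (hb : b1 < b2)
    (hV : ∀ i j, a1 ≤ i → i < a2 → b2 ≤ j → j < b3 → (i, j) ∈ V)
    (hfull : ∀ i j, a1 ≤ i → i < a2 → b1 ≤ j → j < b2 → (i, j) ∈ S)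
    (hocc : ∀ j, b2 ≤ j → j < b3 → ∃ i, a1 ≤ i ∧ i < a2 ∧ (i, j) ∈ S) :
    ∀ i j, a1 ≤ i → i < a2 → b1 ≤ j → j < b3 → (i, j) ∈ S := by
  have key : ∀ d, b2 + d < b3 → ∀ i, a1 ≤ i → i < a2 → (i, b2 + d) ∈ S := by
    intro d
    induction d with
    | zero =>
      intro hd
      obtain ⟨i0, h1, h2, h3⟩ := hocc b2 (le_refl _) (by omega)
      exact fill_row hcl (j := b2 - 1) (j' := b2) (Or.inl (by omega))
        (fun i h4 h5 => hV i b2 h4 h5 (le_refl _) (by omega))
        (fun i h4 h5 => hfull i (b2 - 1) h4 h5 (by omega) (by omega)) h1 h2 h3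
    | succ d ih =>
      intro hd
      obtain ⟨i0, h1, h2, h3⟩ := hocc (b2 + (d + 1)) (by omega) (by omega)
      exact fill_row hcl (j := b2 + d) (j' := b2 + (d + 1)) (Or.inl (by omega))
        (fun i h4 h5 => hV i _ h4 h5 (by omega) (by omega)) (ih (by omega)) h1 h2 h3
  intro i j h1 h2 h3 h4
  rcases Nat.lt_or_ge j b2 with h | h
  · exact hfull i j h1 h2 h3 h
  · have := key (j - b2) (by omega) i h1 h2
    have e : b2 + (j - b2) = j := by omega
    rw [e] at this
    exact this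

theorem grow_rows_down {V S : Finset (ℕ × ℕ)} (hcl : ClosedOn V S) {a1 a2 b1 b2 : ℕ}
    (hb : b1 < b2)
    (hV : ∀ i j, a1 ≤ i → i < a2 → j < b1 → (i, j) ∈ V)
    (hfull : ∀ i j, a1 ≤ i → i < a2 → b1 ≤ j → j < b2 → (i, j) ∈ S)
    (hocc : ∀ j, j < b1 → ∃ i, a1 ≤ i ∧ i < a2 ∧ (i, j) ∈ S) :
    ∀ i j, a1 ≤ i → i < a2 → j < b2 → (i, j) ∈ S := by
  have key : ∀ d, d < b1 → ∀ i, a1 ≤ i → i < a2 → (i, b1 - (d + 1)) ∈ S := by
    intro d
    induction d with
    | zero =>
      intro hd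
      obtain ⟨i0, h1, h2, h3⟩ := hocc (b1 - (0 + 1)) (by omega)
      exact fill_row hcl (j := b1) (j' := b1 - (0 + 1)) (Or.inr (by omega))
        (fun i h4 h5 => hV i _ h4 h5 (by omega))
        (fun i h4 h5 => hfull i b1 h4 h5 (by omega) (by omega)) h1 h2 h3
    | succ d ih =>
      intro hd
      obtain ⟨i0, h1, h2, h3⟩ := hocc (b1 - (d + 1 + 1)) (by omega)
      exact fill_row hcl (j := b1 - (d + 1)) (j' := b1 - (d + 1 + 1)) (Or.inr (by omega))
        (fun i h4 h5 => hV i _ h4 h5 (by omega)) (ih (by omega)) h1 h2 h3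
  intro i j h1 h2 h3
  rcases Nat.lt_or_ge j b1 with h | h
  · have := key (b1 - 1 - j) (by omega) i h1 h2
    have e : b1 - (b1 - 1 - j + 1) = j := by omega
    rw [e] at this
    exact this
  · exact hfull i j h1 h2 h h3

theorem grow_cols_up {V S : Finset (ℕ × ℕ)} (hcl : ClosedOn V S) {a1 a2 a3 b1 b2 : ℕ}
    (ha : a1 < a2)
    (hV : ∀ i j, a2 ≤ i → i < a3 → b1 ≤ j → j < b2 → (i, j) ∈ V)
    (hfull : ∀ i j, a1 ≤ i → i < a2 → b1 ≤ j → j < b2 → (i, j) ∈ S)
    (hocc : ∀ i, a2 ≤ i → i < a3 → ∃ j, b1 ≤ j ∧ j < b2 ∧ (i, j) ∈ S) :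
    ∀ i j, a1 ≤ i → i < a3 → b1 ≤ j → j < b2 → (i, j) ∈ S := by
  have key : ∀ d, a2 + d < a3 → ∀ j, b1 ≤ j → j < b2 → (a2 + d, j) ∈ S := by
    intro d
    induction d with
    | zero =>
      intro hd
      obtain ⟨j0, h1, h2, h3⟩ := hocc a2 (le_refl _) (by omega)
      exact fill_col hcl (i := a2 - 1) (i' := a2) (Or.inl (by omega))
        (fun j h4 h5 => hV a2 j (le_refl _) (by omega) h4 h5)
        (fun j h4 h5 => hfull (a2 - 1) j (by omega) (by omega) h4 h5) h1 h2 h3
    | succ d ih =>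
      intro hd
      obtain ⟨j0, h1, h2, h3⟩ := hocc (a2 + (d + 1)) (by omega) (by omega)
      exact fill_col hcl (i := a2 + d) (i' := a2 + (d + 1)) (Or.inl (by omega))
        (fun j h4 h5 => hV _ j (by omega) (by omega) h4 h5) (ih (by omega)) h1 h2 h3
  intro i j h1 h2 h3 h4
  rcases Nat.lt_or_ge i a2 with h | h
  · exact hfull i j h1 h h3 h4
  · have := key (i - a2) (by omega) j h3 h4
    have e : a2 + (i - a2) = i := by omega
    rw [e] at this
    exact this

theorem grow_cols_down {V S : Finset (ℕ × ℕ)} (hcl : ClosedOn V S) {a1 a2 b1 b2 : ℕ}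
    (ha : a1 < a2)
    (hV : ∀ i j, i < a1 → b1 ≤ j → j < b2 → (i, j) ∈ V)
    (hfull : ∀ i j, a1 ≤ i → i < a2 → b1 ≤ j → j < b2 → (i, j) ∈ S)
    (hocc : ∀ i, i < a1 → ∃ j, b1 ≤ j ∧ j < b2 ∧ (i, j) ∈ S) :
    ∀ i j, i < a2 → b1 ≤ j → j < b2 → (i, j) ∈ S := by
  have key : ∀ d, d < a1 → ∀ j, b1 ≤ j → j < b2 → (a1 - (d + 1), j) ∈ S := by
    intro d
    induction d with
    | zero =>
      intro hd
      obtain ⟨j0, h1, h2, h3⟩ := hocc (a1 - (0 + 1)) (by omega)
      exact fill_col hcl (i := a1) (i' := a1 - (0 + 1)) (Or.inr (by omega))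
        (fun j h4 h5 => hV _ j (by omega) h4 h5)
        (fun j h4 h5 => hfull a1 j (by omega) (by omega) h4 h5) h1 h2 h3
    | succ d ih =>
      intro hd
      obtain ⟨j0, h1, h2, h3⟩ := hocc (a1 - (d + 1 + 1)) (by omega)
      exact fill_col hcl (i := a1 - (d + 1)) (i' := a1 - (d + 1 + 1)) (Or.inr (by omega))
        (fun j h4 h5 => hV _ j (by omega) h4 h5) (ih (by omega)) h1 h2 h3
  intro i j h1 h2 h3
  rcases Nat.lt_or_ge i a1 with h | h
  · have := key (a1 - 1 - i) (by omega) j h2 h3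
    have e : a1 - (a1 - 1 - i + 1) = i := by omega
    rw [e] at this
    exact this
  · exact hfull i j h h1 h2 h3

/-- square box with corner `(i,j)` and side `s` -/
def box (i j s : ℕ) : Rect := ⟨i, i + s, j, j + s⟩

theorem mem_box {i j s : ℕ} {v : ℕ × ℕ} :
    v ∈ (box i j s).sites ↔ (i ≤ v.1 ∧ v.1 < i + s) ∧ (j ≤ v.2 ∧ v.2 < j + s) := by
  rw [Rect.mem_sites]
  rfl

/-- rows first -/
def E1 (i j s l : ℕ) (A : Finset (ℕ × ℕ)) : Prop :=
  (∀ b ∈ Finset.Ico (j + s) (j + s + l), ∃ a ∈ Finset.Ico i (i + s), (a, b) ∈ A) ∧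
  (∀ a ∈ Finset.Ico (i + s) (i + s + l), ∃ b ∈ Finset.Ico j (j + s + l), (a, b) ∈ A)

/-- columns first -/
def E2 (i j s l : ℕ) (A : Finset (ℕ × ℕ)) : Prop :=
  (∀ a ∈ Finset.Ico (i + s) (i + s + l), ∃ b ∈ Finset.Ico j (j + s), (a, b) ∈ A) ∧
  (∀ b ∈ Finset.Ico (j + s) (j + s + l), ∃ a ∈ Finset.Ico i (i + s + l), (a, b) ∈ A)

theorem spans_of_E1 {i j s l : ℕ} (hs : 1 ≤ s) {A B : Finset (ℕ × ℕ)}
    (hA : Spans (box i j s).sites A) (hB : E1 i j s l B) :
    Spans (box i j (s + l)).sites (A ∪ B) := by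
  intro S hS hcl
  have hAS : A ⊆ S := Finset.subset_union_left.trans hS
  have hBS : B ⊆ S := Finset.subset_union_right.trans hS
  have hsub : (box i j s).sites ⊆ (box i j (s + l)).sites := by
    intro v hv
    rw [mem_box] at hv ⊢
    omega
  have hcl' : ClosedOn (box i j s).sites S := fun v hv h => hcl v (hsub hv) h
  have hfull := hA S hAS hcl'
  have f0 : ∀ a b, i ≤ a → a < i + s → j ≤ b → b < j + s → (a, b) ∈ S := by
    intro a b h1 h2 h3 h4
    apply hfull
    rw [mem_box]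
    exact ⟨⟨h1, h2⟩, ⟨h3, h4⟩⟩
  have f1 : ∀ a b, i ≤ a → a < i + s → j ≤ b → b < j + s + l → (a, b) ∈ S := by
    apply grow_rows_up hcl (b2 := j + s) (by omega) _ f0
    · intro b h1 h2
      obtain ⟨a, ha, hab⟩ := hB.1 b (Finset.mem_Ico.2 ⟨h1, h2⟩)
      rw [Finset.mem_Ico] at ha
      exact ⟨a, ha.1, ha.2, hBS hab⟩
    · intro a b h1 h2 h3 h4
      rw [mem_box]
      simp only
      omega
  have f2 : ∀ a b, i ≤ a → a < i + s + l → j ≤ b → b < j + s + l → (a, b) ∈ S := by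
    apply grow_cols_up hcl (a2 := i + s) (by omega) _ f1
    · intro a h1 h2
      obtain ⟨b, hb, hab⟩ := hB.2 a (Finset.mem_Ico.2 ⟨h1, h2⟩)
      rw [Finset.mem_Ico] at hb
      exact ⟨b, hb.1, hb.2, hBS hab⟩
    · intro a b h1 h2 h3 h4
      rw [mem_box]
      simp only
      omega
  intro v hv
  rw [mem_box] at hv
  exact f2 v.1 v.2 hv.1.1 (by omega) hv.2.1 (by omega)

theorem spans_of_E2 {i j s l : ℕ} (hs : 1 ≤ s) {A B : Finset (ℕ × ℕ)}
    (hA : Spans (box i j s).sites A) (hB : E2 i j s l B) :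
    Spans (box i j (s + l)).sites (A ∪ B) := by
  intro S hS hcl
  have hAS : A ⊆ S := Finset.subset_union_left.trans hS
  have hBS : B ⊆ S := Finset.subset_union_right.trans hS
  have hsub : (box i j s).sites ⊆ (box i j (s + l)).sites := by
    intro v hv
    rw [mem_box] at hv ⊢
    omega
  have hcl' : ClosedOn (box i j s).sites S := fun v hv h => hcl v (hsub hv) h
  have hfull := hA S hAS hcl'
  have f0 : ∀ a b, i ≤ a → a < i + s → j ≤ b → b < j + s → (a, b) ∈ S := by
    intro a b h1 h2 h3 h4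
    apply hfull
    rw [mem_box]
    exact ⟨⟨h1, h2⟩, ⟨h3, h4⟩⟩
  have f1 : ∀ a b, i ≤ a → a < i + s + l → j ≤ b → b < j + s → (a, b) ∈ S := by
    apply grow_cols_up hcl (a2 := i + s) (by omega) _ f0
    · intro a h1 h2
      obtain ⟨b, hb, hab⟩ := hB.1 a (Finset.mem_Ico.2 ⟨h1, h2⟩)
      rw [Finset.mem_Ico] at hb
      exact ⟨b, hb.1, hb.2, hBS hab⟩
    · intro a b h1 h2 h3 h4
      rw [mem_box]
      simp only
      omega
  have f2 : ∀ a b, i ≤ a → a < i + s + l → j ≤ b → b < j + s + l → (a, b) ∈ S := by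
    apply grow_rows_up hcl (b2 := j + s) (by omega) _ f1
    · intro b h1 h2
      obtain ⟨a, ha, hab⟩ := hB.2 b (Finset.mem_Ico.2 ⟨h1, h2⟩)
      rw [Finset.mem_Ico] at ha
      exact ⟨a, ha.1, ha.2, hBS hab⟩
    · intro a b h1 h2 h3 h4
      rw [mem_box]
      simp only
      omega
  intro v hv
  rw [mem_box] at hv
  exact f2 v.1 v.2 hv.1.1 (by omega) hv.2.1 (by omega)

/-- the probability that a box is internally spanned -/
noncomputable def G (p : ℝ) (i j s : ℕ) : ℝ := Pr p (box i j s).sites (Spans (box i j s).sites)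

theorem G_nonneg {p : ℝ} (h0 : 0 ≤ p) (h1 : p ≤ 1) (i j s : ℕ) : 0 ≤ G p i j s :=
  Pr_nonneg h0 h1 _ _

theorem G_one {p : ℝ} (h0 : 0 ≤ p) (h1 : p ≤ 1) (i j : ℕ) : p ≤ G p i j 1 := by
  classical
  have e : (box i j 1).sites = {(i, j)} := by
    ext v
    rw [mem_box, Finset.mem_singleton]
    constructor
    · intro h
      ext
      · simp only; omega
      · simp only; omega
    · rintro rfl
      simp
  have h2 : Pr p (box i j 1).sites (fun A => A.Nonempty) = p := by
    rw [Pr_occ, e, Finset.card_singleton]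
    ring
  nth_rewrite 1 [← h2]
  unfold G
  apply Pr_mono h0 h1
  intro A hA hne S hAS _
  rw [e] at hA ⊢
  obtain ⟨v, hv⟩ := hne
  have := hA hv
  rw [Finset.mem_singleton] at this
  rw [this] at hv
  intro x hx
  rw [Finset.mem_singleton] at hx
  rw [hx]
  exact hAS hv

theorem box_split (i j s l : ℕ) :
    (box i j (s + l)).sites = (box i j s).sites ∪
      ((box i j (s + l)).sites \ (box i j s).sites) := by
  classical
  symm
  apply Finset.union_sdiff_of_subset
  intro v hv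
  rw [mem_box] at hv ⊢
  omega

theorem G_step {p : ℝ} (h0 : 0 ≤ p) (h1 : p ≤ 1) (i j s l : ℕ) (hs : 1 ≤ s) :
    G p i j s * Pr p ((box i j (s + l)).sites \ (box i j s).sites)
      (fun A => E1 i j s l A ∨ E2 i j s l A) ≤ G p i j (s + l) := by
  classical
  unfold G
  conv_rhs => rw [box_split i j s l]
  apply Pr_indep_ge h0 h1 Finset.disjoint_sdiff
  intro A _ B _ hA hB
  rw [← box_split]
  rcases hB with hB | hB
  · exact spans_of_E1 hs hA hB
  · exact spans_of_E2 hs hA hB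

theorem Pr_E1_ge {p : ℝ} (h0 : 0 ≤ p) (h1 : p ≤ 1) (i j s l : ℕ) {u u' : ℝ} (hu : 0 ≤ u)
    (hu' : 0 ≤ u') (h : u ≤ 1 - (1 - p) ^ s) (h' : u' ≤ 1 - (1 - p) ^ (s + l)) :
    u ^ l * u' ^ l ≤ Pr p ((box i j (s + l)).sites \ (box i j s).sites) (E1 i j s l) := by
  classical
  have hV : (box i j (s + l)).sites \ (box i j s).sites =
      (Finset.Ico i (i + s) ×ˢ Finset.Ico (j + s) (j + s + l)) ∪
      (Finset.Ico (i + s) (i + s + l) ×ˢ Finset.Ico j (j + s + l)) := by
    ext ⟨a, b⟩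
    simp only [Finset.mem_sdiff, mem_box, Finset.mem_union, Finset.mem_product, Finset.mem_Ico]
    omega
  have hd : Disjoint (Finset.Ico i (i + s) ×ˢ Finset.Ico (j + s) (j + s + l))
      (Finset.Ico (i + s) (i + s + l) ×ˢ Finset.Ico j (j + s + l)) := by
    rw [Finset.disjoint_left]
    rintro ⟨a, b⟩ h2 h3
    simp only [Finset.mem_product, Finset.mem_Ico] at h2 h3
    omega
  rw [hV]
  have k1 := Pr_rows_ge h0 h1 hu (Finset.Ico i (i + s)) (by rw [Nat.card_Ico]; simpa using h)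
    (Finset.Ico (j + s) (j + s + l))
  have k2 := Pr_cols_ge h0 h1 hu' (Finset.Ico j (j + s + l))
    (by
      rw [Nat.card_Ico]
      have e : j + s + l - j = s + l := by omega
      rw [e]; exact h')
    (Finset.Ico (i + s) (i + s + l))
  rw [Nat.card_Ico] at k1 k2
  have e1 : j + s + l - (j + s) = l := by omega
  have e2 : i + s + l - (i + s) = l := by omega
  rw [e1] at k1
  rw [e2] at k2
  refine le_trans (mul_le_mul k1 k2 (pow_nonneg hu' _) (Pr_nonneg h0 h1 _ _)) ?_
  apply Pr_indep_ge h0 h1 hd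
  intro A _ B _ hA hB
  constructor
  · intro b hb
    obtain ⟨a, ha, hab⟩ := hA b hb
    exact ⟨a, ha, Finset.mem_union_left _ hab⟩
  · intro a ha
    obtain ⟨b, hb, hab⟩ := hB a ha
    exact ⟨b, hb, Finset.mem_union_right _ hab⟩

theorem Pr_E2_ge {p : ℝ} (h0 : 0 ≤ p) (h1 : p ≤ 1) (i j s l : ℕ) {u u' : ℝ} (hu : 0 ≤ u)
    (hu' : 0 ≤ u') (h : u ≤ 1 - (1 - p) ^ s) (h' : u' ≤ 1 - (1 - p) ^ (s + l)) :
    u ^ l * u' ^ l ≤ Pr p ((box i j (s + l)).sites \ (box i j s).sites) (E2 i j s l) := by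
  classical
  have hV : (box i j (s + l)).sites \ (box i j s).sites =
      (Finset.Ico (i + s) (i + s + l) ×ˢ Finset.Ico j (j + s)) ∪
      (Finset.Ico i (i + s + l) ×ˢ Finset.Ico (j + s) (j + s + l)) := by
    ext ⟨a, b⟩
    simp only [Finset.mem_sdiff, mem_box, Finset.mem_union, Finset.mem_product, Finset.mem_Ico]
    omega
  have hd : Disjoint (Finset.Ico (i + s) (i + s + l) ×ˢ Finset.Ico j (j + s))
      (Finset.Ico i (i + s + l) ×ˢ Finset.Ico (j + s) (j + s + l)) := by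
    rw [Finset.disjoint_left]
    rintro ⟨a, b⟩ h2 h3
    simp only [Finset.mem_product, Finset.mem_Ico] at h2 h3
    omega
  rw [hV]
  have k1 := Pr_cols_ge h0 h1 hu (Finset.Ico j (j + s)) (by rw [Nat.card_Ico]; simpa using h)
    (Finset.Ico (i + s) (i + s + l))
  have k2 := Pr_rows_ge h0 h1 hu' (Finset.Ico i (i + s + l))
    (by
      rw [Nat.card_Ico]
      have e : i + s + l - i = s + l := by omega
      rw [e]; exact h')
    (Finset.Ico (j + s) (j + s + l))
  rw [Nat.card_Ico] at k1 k2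
  have e1 : j + s + l - (j + s) = l := by omega
  have e2 : i + s + l - (i + s) = l := by omega
  rw [e2] at k1
  rw [e1] at k2
  refine le_trans (mul_le_mul k1 k2 (pow_nonneg hu' _) (Pr_nonneg h0 h1 _ _)) ?_
  apply Pr_indep_ge h0 h1 hd
  intro A _ B _ hA hB
  constructor
  · intro a ha
    obtain ⟨b, hb, hab⟩ := hA a ha
    exact ⟨b, hb, Finset.mem_union_left _ hab⟩
  · intro b hb
    obtain ⟨a, ha, hab⟩ := hB b hb
    exact ⟨a, ha, Finset.mem_union_right _ hab⟩

theorem Pr_E12_le {p : ℝ} (h0 : 0 ≤ p) (h1 : p ≤ 1) (i j s l : ℕ) {u : ℝ} (hu : 0 ≤ u)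
    (h : 1 - (1 - p) ^ s ≤ u) :
    Pr p ((box i j (s + l)).sites \ (box i j s).sites)
      (fun A => E1 i j s l A ∧ E2 i j s l A) ≤ u ^ l * u ^ l := by
  classical
  have hV : (box i j (s + l)).sites \ (box i j s).sites =
      ((Finset.Ico (i + s) (i + s + l) ×ˢ Finset.Ico j (j + s)) ∪
      (Finset.Ico i (i + s) ×ˢ Finset.Ico (j + s) (j + s + l))) ∪
      (Finset.Ico (i + s) (i + s + l) ×ˢ Finset.Ico (j + s) (j + s + l)) := by
    ext ⟨a, b⟩
    simp only [Finset.mem_sdiff, mem_box, Finset.mem_union, Finset.mem_product, Finset.mem_Ico]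
    omega
  have hd1 : Disjoint ((Finset.Ico (i + s) (i + s + l) ×ˢ Finset.Ico j (j + s)) ∪
      (Finset.Ico i (i + s) ×ˢ Finset.Ico (j + s) (j + s + l)))
      (Finset.Ico (i + s) (i + s + l) ×ˢ Finset.Ico (j + s) (j + s + l)) := by
    rw [Finset.disjoint_left]
    rintro ⟨a, b⟩ h2 h3
    simp only [Finset.mem_union, Finset.mem_product, Finset.mem_Ico] at h2 h3
    omega
  have hd2 : Disjoint (Finset.Ico (i + s) (i + s + l) ×ˢ Finset.Ico j (j + s))
      (Finset.Ico i (i + s) ×ˢ Finset.Ico (j + s) (j + s + l)) := by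
    rw [Finset.disjoint_left]
    rintro ⟨a, b⟩ h2 h3
    simp only [Finset.mem_product, Finset.mem_Ico] at h2 h3
    omega
  rw [hV]
  have k1 := Pr_cols h0 h1 hu (Finset.Ico j (j + s)) (by rw [Nat.card_Ico]; simpa using h)
    (Finset.Ico (i + s) (i + s + l)) (Finset.Ico (i + s) (i + s + l)) (Finset.Subset.refl _)
  have k2 := Pr_rows h0 h1 hu (Finset.Ico i (i + s)) (by rw [Nat.card_Ico]; simpa using h)
    (Finset.Ico (j + s) (j + s + l)) (Finset.Ico (j + s) (j + s + l)) (Finset.Subset.refl _)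
  rw [Nat.card_Ico] at k1 k2
  have e1 : j + s + l - (j + s) = l := by omega
  have e2 : i + s + l - (i + s) = l := by omega
  rw [e2] at k1
  rw [e1] at k2
  have s1 := Pr_indep_le (p := p) h0 h1 hd1
    (E := fun A => E1 i j s l A ∧ E2 i j s l A)
    (F := fun A => (∀ a ∈ Finset.Ico (i + s) (i + s + l), ∃ b ∈ Finset.Ico j (j + s), (a, b) ∈ A) ∧
      (∀ b ∈ Finset.Ico (j + s) (j + s + l), ∃ a ∈ Finset.Ico i (i + s), (a, b) ∈ A))
    (G := fun _ => True)
    (by
      intro A hA B hB hE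
      refine ⟨⟨?_, ?_⟩, trivial⟩
      · intro a ha
        obtain ⟨b, hb, hab⟩ := hE.2.1 a ha
        refine ⟨b, hb, ?_⟩
        rw [Finset.mem_union] at hab
        rcases hab with hab | hab
        · exact hab
        · exfalso
          have := hB hab
          simp only [Finset.mem_product, Finset.mem_Ico] at this hb
          omega
      · intro b hb
        obtain ⟨a, ha, hab⟩ := hE.1.1 b hb
        refine ⟨a, ha, ?_⟩
        rw [Finset.mem_union] at hab
        rcases hab with hab | hab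
        · exact hab
        · exfalso
          have := hB hab
          simp only [Finset.mem_product, Finset.mem_Ico] at this ha
          omega)
  rw [Pr_true, mul_one] at s1
  refine s1.trans ?_
  have s2 := Pr_indep_le (p := p) h0 h1 hd2
    (E := fun A => (∀ a ∈ Finset.Ico (i + s) (i + s + l), ∃ b ∈ Finset.Ico j (j + s), (a, b) ∈ A) ∧
      (∀ b ∈ Finset.Ico (j + s) (j + s + l), ∃ a ∈ Finset.Ico i (i + s), (a, b) ∈ A))
    (F := fun A => ∀ a ∈ Finset.Ico (i + s) (i + s + l), ∃ b, (a, b) ∈ A)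
    (G := fun A => ∀ b ∈ Finset.Ico (j + s) (j + s + l), ∃ a, (a, b) ∈ A)
    (by
      intro A hA B hB hE
      refine ⟨?_, ?_⟩
      · intro a ha
        obtain ⟨b, hb, hab⟩ := hE.1 a ha
        refine ⟨b, ?_⟩
        rw [Finset.mem_union] at hab
        rcases hab with hab | hab
        · exact hab
        · exfalso
          have := hB hab
          simp only [Finset.mem_product, Finset.mem_Ico] at this ha
          omega
      · intro b hb
        obtain ⟨a, ha, hab⟩ := hE.2 b hb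
        refine ⟨a, ?_⟩
        rw [Finset.mem_union] at hab
        rcases hab with hab | hab
        · exfalso
          have := hA hab
          simp only [Finset.mem_product, Finset.mem_Ico] at this hb
          omega
        · exact hab)
  refine s2.trans ?_
  exact mul_le_mul k1 k2 (Pr_nonneg h0 h1 _ _) (pow_nonneg hu _)

end Pool.Agent.Helper42.Boot
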