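import Pool.Agent.Helper42.Boot.Lower

set_option autoImplicit false

namespace Pool.Agent.Helper42.Boot

open Finset

theorem ff_diff_le {s h : ℝ} (hs : 0 < s) (hh : 0 ≤ h) :
    ff s - ff (s + h) ≤ h / (Real.exp s - 1) := by
  have hsh : 0 < s + h := by linarith
  have p1 := one_sub_exp_pos hs
  have p2 := one_sub_exp_pos hsh
  have e1 : ff s - ff (s + h) = Real.log ((1 - Real.exp (-(s + h))) / (1 - Real.exp (-s))) := by
    unfold ff
    rw [Real.log_div (ne_of_gt p2) (ne_of_gt p1)]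
    ring
  rw [e1]
  refine (Real.log_le_sub_one_of_pos (div_pos p2 p1)).trans ?_
  have hE : 0 < Real.exp s - 1 := by
    have := Real.add_one_lt_exp (ne_of_gt hs)
    linarith
  rw [le_div_iff₀ hE]
  have e3 : Real.exp (-(s + h)) = Real.exp (-h) * Real.exp (-s) := by
    rw [← Real.exp_add]
    congr 1
    ring
  have e4 : Real.exp (-s) * Real.exp s = 1 := by rw [← Real.exp_add]; simp
  have hpos := Real.exp_pos s
  have e5 : ((1 - Real.exp (-(s + h))) / (1 - Real.exp (-s)) - 1) * (Real.exp s - 1) =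
      1 - Real.exp (-h) := by
    have hne : 1 - Real.exp (-s) ≠ 0 := ne_of_gt p1
    have e6 : Real.exp s - 1 = Real.exp s * (1 - Real.exp (-s)) := by
      rw [mul_sub, mul_one, mul_comm (Real.exp s) (Real.exp (-s)), e4]
    rw [e6, e3]
    field_simp
    have e7 : Real.exp s * Real.exp (-s) = 1 := by rw [mul_comm]; exact e4
    linear_combination (1 - Real.exp (-h)) * e7
  rw [e5]
  have := Real.one_sub_le_exp_neg h
  linarith

theorem sum_ff_le {q : ℝ} (hq : 0 < q) (N : ℕ) :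
    ∑ j ∈ range N, ff (q * ((j : ℝ) + 1)) ≤ (Real.pi ^ 2 / 6) / q := by
  have hs : HasSum (fun n : ℕ => 1 / ((n : ℝ) + 1) ^ 2) (Real.pi ^ 2 / 6) := by
    have h := hasSum_zeta_two
    have h2 := (hasSum_nat_add_iff' (f := fun n : ℕ => 1 / (n : ℝ) ^ 2) 1).2 h
    simpa using h2
  have hs2 : HasSum (fun n : ℕ => 1 / ((n : ℝ) + 1) ^ 2 / q) ((Real.pi ^ 2 / 6) / q) :=
    hs.div_const q
  have hs1 : HasSum (fun m : ℕ => ∑ j ∈ range N,
      Real.exp (-(q * ((j : ℝ) + 1))) ^ (m + 1) / ((m : ℝ) + 1))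
      (∑ j ∈ range N, ff (q * ((j : ℝ) + 1))) := by
    apply hasSum_sum
    intro j _
    exact hasSum_ff (by positivity)
  refine hasSum_le ?_ hs1 hs2
  intro m
  have hm0 : (0 : ℝ) < (m : ℝ) + 1 := by positivity
  have hy : 0 < ((m : ℝ) + 1) * q := by positivity
  have e1 : ∀ j ∈ range N, Real.exp (-(q * ((j : ℝ) + 1))) ^ (m + 1) / ((m : ℝ) + 1) =
      Real.exp (-(((j : ℝ) + 1) * (((m : ℝ) + 1) * q))) / ((m : ℝ) + 1) := by
    intro j _
    rw [← Real.exp_nat_mul]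
    congr 2
    push_cast
    ring
  rw [Finset.sum_congr rfl e1, ← Finset.sum_div, geom_sum_exp hy N]
  have hE : 0 < Real.exp (((m : ℝ) + 1) * q) - 1 := by
    have := Real.add_one_lt_exp (ne_of_gt hy)
    linarith
  have h3 : 1 / (Real.exp (((m : ℝ) + 1) * q) - 1) ≤ 1 / (((m : ℝ) + 1) * q) := by
    apply one_div_le_one_div_of_le hy
    have := Real.add_one_le_exp (((m : ℝ) + 1) * q)
    linarith
  have h4 : (1 - Real.exp (-(N * (((m : ℝ) + 1) * q)))) *
      (1 / (Real.exp (((m : ℝ) + 1) * q) - 1)) ≤ 1 * (1 / (((m : ℝ) + 1) * q)) := by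
    apply mul_le_mul _ h3 (by positivity) (by norm_num)
    have := Real.exp_pos (-(N * (((m : ℝ) + 1) * q)))
    linarith
  calc _ ≤ 1 * (1 / (((m : ℝ) + 1) * q)) / ((m : ℝ) + 1) :=
        div_le_div_of_nonneg_right h4 hm0.le
    _ = 1 / ((m : ℝ) + 1) ^ 2 / q := by field_simp

/-- One step. -/
theorem G_single {p : ℝ} (h0 : 0 < p) (h1 : p < 1) (i j s : ℕ) (hs : 1 ≤ s) :
    G p i j s * Real.exp (-(2 * ff (qq p * s))) ≤ G p i j (s + 1) := by
  refine le_trans ?_ (G_step h0.le h1.le i j s 1 hs)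
  apply mul_le_mul_of_nonneg_left _ (G_nonneg h0.le h1.le _ _ _)
  have hq := qq_pos h0 h1
  have e1 : 1 - (1 - p) ^ s = Real.exp (-(ff (qq p * s))) := one_sub_pow_eq h0 h1 hs
  have h2 : 1 - (1 - p) ^ s ≤ 1 - (1 - p) ^ (s + 1) := by
    have : (1 - p) ^ (s + 1) ≤ (1 - p) ^ s :=
      pow_le_pow_of_le_one (by linarith) (by linarith) (by omega)
    linarith
  have h3 : 0 ≤ 1 - (1 - p) ^ s := by rw [e1]; exact (Real.exp_pos _).le
  have k := Pr_E1_ge h0.le h1.le i j s 1 h3 h3 (le_refl _) h2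
  rw [pow_one, e1, ← Real.exp_add] at k
  refine le_trans (le_of_eq ?_) (k.trans ?_)
  · congr 1
    ring
  · apply Pr_mono h0.le h1.le
    intro A _ h
    exact Or.inl h

/-- One window. -/
theorem G_window {p : ℝ} (h0 : 0 < p) (h1 : p < 1) (i j s l : ℕ) (hs : 1 ≤ s)
    (hqs : 1 ≤ qq p * s) (hqs3 : qq p * (s + l : ℕ) ≤ 3)
    (hl1 : 9 / 10 ≤ qq p * (l : ℝ) ^ 2) (hl2 : qq p * (l : ℝ) ^ 2 ≤ 1)
    (hl3 : qq p * (l : ℝ) ≤ 1 / 10000) :
    G p i j s * (101 / 100 * Real.exp (-(2 * ∑ k ∈ range l, ff (qq p * ((s + k : ℕ) : ℝ))))) ≤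
      G p i j (s + l) := by
  refine le_trans ?_ (G_step h0.le h1.le i j s l hs)
  apply mul_le_mul_of_nonneg_left _ (G_nonneg h0.le h1.le _ _ _)
  have hq := qq_pos h0 h1
  set q := qq p with hqdef
  have hl0 : (0 : ℝ) ≤ (l : ℝ) := Nat.cast_nonneg _
  have hs0 : (0 : ℝ) < (s : ℝ) := by exact_mod_cast hs
  have e1 : 1 - (1 - p) ^ s = Real.exp (-(ff (q * s))) := one_sub_pow_eq h0 h1 hs
  have e2 : 1 - (1 - p) ^ (s + l) = Real.exp (-(ff (q * (s + l : ℕ)))) :=
    one_sub_pow_eq h0 h1 (by omega)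
  set a := ff (q * s) with ha
  set b := ff (q * (s + l : ℕ)) with hb
  have k1 := Pr_E1_ge h0.le h1.le i j s l (by rw [e1]; exact (Real.exp_pos _).le)
    (by rw [e2]; exact (Real.exp_pos _).le) (le_refl (1 - (1 - p) ^ s))
    (le_refl (1 - (1 - p) ^ (s + l)))
  have k2 := Pr_E2_ge h0.le h1.le i j s l (by rw [e1]; exact (Real.exp_pos _).le)
    (by rw [e2]; exact (Real.exp_pos _).le) (le_refl (1 - (1 - p) ^ s))
    (le_refl (1 - (1 - p) ^ (s + l)))
  have k3 := Pr_E12_le h0.le h1.le i j s l (by rw [e1]; exact (Real.exp_pos _).le)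
    (le_refl (1 - (1 - p) ^ s))
  have k4 := Pr_or_add_and (p := p) ((box i j (s + l)).sites \ (box i j s).sites)
    (E1 i j s l) (E2 i j s l)
  rw [e1, e2, ← Real.exp_nat_mul, ← Real.exp_nat_mul, ← Real.exp_add] at k1 k2
  rw [e1, ← Real.exp_nat_mul, ← Real.exp_add] at k3
  -- D1, D2
  set E := Real.exp (q * s) with hE
  set E' := Real.exp (q * (s + l : ℕ)) with hE'
  have hE2 : 2 ≤ E := by
    have h3 := Real.add_one_le_exp (q * s)
    linarith
  have hx3 : (0 : ℝ) < q * (s + l : ℕ) := by positivity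
  have hEE' : E ≤ E' := by
    rw [hE, hE']
    apply Real.exp_le_exp.2
    apply mul_le_mul_of_nonneg_left _ hq.le
    push_cast
    linarith
  have hE'3 : E' ≤ 20.1 := by
    have h3 : E' ≤ Real.exp 3 := Real.exp_le_exp.2 hqs3
    have h4 : Real.exp 3 = Real.exp 1 * Real.exp 1 * Real.exp 1 := by
      rw [← Real.exp_add, ← Real.exp_add]; norm_num
    have h5 := Real.exp_one_lt_d9
    have h6 := Real.exp_pos 1
    have h7 : Real.exp 1 * Real.exp 1 ≤ 2.7182818286 * 2.7182818286 :=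
      mul_le_mul h5.le h5.le h6.le (by norm_num)
    have h8 : Real.exp 1 * Real.exp 1 * Real.exp 1 ≤ 2.7182818286 * 2.7182818286 * 2.7182818286 :=
      mul_le_mul h7 h5.le h6.le (by norm_num)
    rw [h4] at h3
    norm_num at h8
    linarith
  set D1 := q * (l : ℝ) ^ 2 / (E - 1) with hD1
  set D2 := q * (l : ℝ) ^ 2 / (E' - 1) with hD2
  have hE1pos : 0 < E - 1 := by linarith
  have hE1pos' : 0 < E' - 1 := by linarith
  -- l (a - b) ≥ D2
  have hD2le : D2 ≤ l * (a - b) := by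
    have h3 := ff_diff (s := q * s) (h := q * l) (by positivity) (by positivity)
    have e3 : q * s + q * l = q * (s + l : ℕ) := by push_cast; ring
    rw [e3] at h3
    have h4 := mul_le_mul_of_nonneg_left h3 hl0
    have e4 : (l : ℝ) * (q * l / (Real.exp (q * (s + l : ℕ)) - 1)) = D2 := by
      rw [hD2, hE']
      ring
    rw [e4] at h4
    exact h4
  -- lower bound of the sum
  have hsum : l * a - D1 / 2 ≤ ∑ k ∈ range l, ff (q * ((s + k : ℕ) : ℝ)) := by
    have h3 : ∀ k ∈ range l, a - q / (E - 1) * (k : ℝ) ≤ ff (q * ((s + k : ℕ) : ℝ)) := by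
      intro k _
      have h4 := ff_diff_le (s := q * s) (h := q * k) (by positivity) (by positivity)
      have e3 : q * s + q * k = q * ((s + k : ℕ) : ℝ) := by push_cast; ring
      rw [e3] at h4
      have e4 : q * (k : ℝ) / (Real.exp (q * s) - 1) = q / (E - 1) * (k : ℝ) := by
        rw [hE]; ring
      rw [e4] at h4
      linarith
    refine le_trans ?_ (Finset.sum_le_sum h3)
    rw [Finset.sum_sub_distrib, Finset.sum_const, Finset.card_range, nsmul_eq_mul,
      ← Finset.mul_sum]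
    have h4 : ∑ k ∈ range l, (k : ℝ) ≤ (l : ℝ) ^ 2 / 2 := by
      have h5 : ∀ m : ℕ, ∑ k ∈ range m, (k : ℝ) ≤ (m : ℝ) ^ 2 / 2 := by
        intro m
        induction m with
        | zero => simp
        | succ m ih =>
          rw [Finset.sum_range_succ]
          push_cast
          nlinarith
      exact h5 l
    have h5 : q / (E - 1) * ∑ k ∈ range l, (k : ℝ) ≤ q / (E - 1) * ((l : ℝ) ^ 2 / 2) :=
      mul_le_mul_of_nonneg_left h4 (by positivity)
    have e5 : q / (E - 1) * ((l : ℝ) ^ 2 / 2) = D1 / 2 := by rw [hD1]; ring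
    linarith
  -- θ = D1 - D2
  have hD2ge : 1 / 25 ≤ D2 := by
    rw [hD2, le_div_iff₀ hE1pos']
    linarith
  have hθ : D1 - D2 ≤ 1 / 1000 := by
    have e3 : E' = E * Real.exp (q * l) := by
      rw [hE, hE', ← Real.exp_add]
      congr 1
      push_cast
      ring
    have h4 : Real.exp (q * l) ≤ 1 + 2 * (q * l) := by
      have h5 := Real.one_sub_le_exp_neg (q * (l : ℝ))
      have h6 : Real.exp (q * l) * Real.exp (-(q * l)) = 1 := by
        rw [← Real.exp_add]; simp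
      have h7 := Real.exp_pos (q * (l : ℝ))
      have h8 : Real.exp (q * l) * (1 - q * l) ≤ 1 :=
        (mul_le_mul_of_nonneg_left h5 h7.le).trans (le_of_eq h6)
      have h9 : 0 ≤ q * (l : ℝ) := by positivity
      by_contra hcon
      push Not at hcon
      nlinarith
    have e4 : D1 - D2 = q * (l : ℝ) ^ 2 * ((E' - E) / ((E - 1) * (E' - 1))) := by
      rw [hD1, hD2]
      field_simp
      ring
    rw [e4]
    have h10 : (E' - E) / ((E - 1) * (E' - 1)) ≤ 4 * (q * l) := by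
      rw [div_le_iff₀ (by positivity)]
      have h11 : E' - E ≤ E * (2 * (q * l)) := by
        rw [e3]
        have : E * Real.exp (q * l) ≤ E * (1 + 2 * (q * l)) :=
          mul_le_mul_of_nonneg_left h4 (by linarith)
        linarith
      have h12 : E ≤ 2 * ((E - 1) * (E' - 1)) := by nlinarith
      have h13 : 0 ≤ 2 * (q * (l : ℝ)) := by positivity
      calc E' - E ≤ E * (2 * (q * l)) := h11
        _ ≤ (2 * ((E - 1) * (E' - 1))) * (2 * (q * l)) := mul_le_mul_of_nonneg_right h12 h13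
        _ = 4 * (q * l) * ((E - 1) * (E' - 1)) := by ring
    have h14 : 0 ≤ (E' - E) / ((E - 1) * (E' - 1)) := by
      apply div_nonneg (by linarith) (by positivity)
    calc q * (l : ℝ) ^ 2 * ((E' - E) / ((E - 1) * (E' - 1))) ≤
          1 * ((E' - E) / ((E - 1) * (E' - 1))) := mul_le_mul_of_nonneg_right hl2 h14
      _ ≤ 4 * (q * l) := by linarith
      _ ≤ 1 / 1000 := by linarith
  -- final inequality
  have hfin : 101 / 100 * Real.exp D1 ≤ 2 * Real.exp D2 - 1 := by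
    have h3 : Real.exp D1 = Real.exp D2 * Real.exp (D1 - D2) := by
      rw [← Real.exp_add]; congr 1; ring
    have h4 : Real.exp (D1 - D2) ≤ 1 + 2 / 1000 := by
      have h5 : Real.exp (D1 - D2) ≤ Real.exp (1 / 1000) := Real.exp_le_exp.2 hθ
      have h6 := Real.one_sub_le_exp_neg (1 / 1000 : ℝ)
      have h7 : Real.exp (1 / 1000) * Real.exp (-(1 / 1000)) = 1 := by
        rw [← Real.exp_add]; simp
      have h8 := Real.exp_pos (1 / 1000 : ℝ)
      nlinarith
    have h5 := Real.add_one_le_exp D2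
    have h6 := Real.exp_pos D2
    rw [h3]
    nlinarith
  have g1 : Real.exp ((l : ℝ) * -a + (l : ℝ) * -b) = Real.exp (-(2 * (l * a))) *
      Real.exp (l * (a - b)) := by
    rw [← Real.exp_add]; congr 1; ring
  have g2 : Real.exp ((l : ℝ) * -a + (l : ℝ) * -a) = Real.exp (-(2 * (l * a))) := by
    congr 1; ring
  have g3 : Real.exp (-(2 * ∑ k ∈ range l, ff (q * ((s + k : ℕ) : ℝ)))) ≤
      Real.exp (-(2 * (l * a))) * Real.exp D1 := by
    rw [← Real.exp_add]
    apply Real.exp_le_exp.2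
    linarith
  have g4 : Real.exp D2 ≤ Real.exp (l * (a - b)) := Real.exp_le_exp.2 hD2le
  rw [g1] at k1 k2
  rw [g2] at k3
  have hP := Real.exp_pos (-(2 * (l * a)))
  have g5 : Real.exp (-(2 * (l * a))) * Real.exp D2 ≤
      Real.exp (-(2 * (l * a))) * Real.exp (l * (a - b)) := mul_le_mul_of_nonneg_left g4 hP.le
  have g6 : Real.exp (-(2 * (l * a))) * (101 / 100 * Real.exp D1) ≤
      Real.exp (-(2 * (l * a))) * (2 * Real.exp D2 - 1) := mul_le_mul_of_nonneg_left hfin hP.le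
  linarith

theorem G_phase1 {p : ℝ} (h0 : 0 < p) (h1 : p < 1) (i j s : ℕ) :
    p * Real.exp (-(2 * ∑ k ∈ range s, ff (qq p * ((k : ℝ) + 1)))) ≤ G p i j (s + 1) := by
  induction s with
  | zero =>
    simp only [Finset.range_zero, Finset.sum_empty, mul_zero, neg_zero, Real.exp_zero, mul_one]
    exact G_one h0.le h1.le i j
  | succ s ih =>
    refine le_trans ?_ (G_single h0 h1 i j (s + 1) (by omega))
    rw [Finset.sum_range_succ]
    have e : p * Real.exp (-(2 * (∑ k ∈ range s, ff (qq p * ((k : ℝ) + 1)) +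
        ff (qq p * ((s : ℝ) + 1))))) =
        p * Real.exp (-(2 * ∑ k ∈ range s, ff (qq p * ((k : ℝ) + 1)))) *
        Real.exp (-(2 * ff (qq p * ((s + 1 : ℕ) : ℝ)))) := by
      rw [mul_assoc, ← Real.exp_add]
      congr 2
      push_cast
      ring
    rw [e]
    exact mul_le_mul_of_nonneg_right ih (Real.exp_pos _).le

theorem G_phase2 {p : ℝ} (h0 : 0 < p) (h1 : p < 1) (i j s0 l K : ℕ)
    (hqs : 1 ≤ qq p * ((s0 : ℝ) + 1)) (hqs3 : qq p * ((s0 : ℝ) + 1 + K * l) ≤ 3)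
    (hl1 : 9 / 10 ≤ qq p * (l : ℝ) ^ 2) (hl2 : qq p * (l : ℝ) ^ 2 ≤ 1)
    (hl3 : qq p * (l : ℝ) ≤ 1 / 10000) (t : ℕ) (ht : t ≤ K) :
    p * Real.exp (-(2 * ∑ k ∈ range (s0 + t * l), ff (qq p * ((k : ℝ) + 1)))) *
      (101 / 100) ^ t ≤ G p i j (s0 + t * l + 1) := by
  have hq := qq_pos h0 h1
  induction t with
  | zero =>
    simp only [Nat.zero_mul, Nat.add_zero, pow_zero, mul_one]
    exact G_phase1 h0 h1 i j s0
  | succ t ih =>
    have ih' := ih (by omega)
    have e0 : s0 + (t + 1) * l + 1 = (s0 + t * l + 1) + l := by ring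
    have hw := G_window h0 h1 i j (s0 + t * l + 1) l (by omega)
      (by
        push_cast
        have : 0 ≤ qq p * ((t : ℝ) * l) := by positivity
        linarith)
      (by
        refine le_trans ?_ hqs3
        apply mul_le_mul_of_nonneg_left _ hq.le
        push_cast
        have h2 : ((t : ℝ) + 1) * l ≤ K * l := by
          apply mul_le_mul_of_nonneg_right _ (Nat.cast_nonneg _)
          exact_mod_cast ht
        linarith) hl1 hl2 hl3
    rw [e0]
    refine le_trans ?_ hw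
    have e1 : s0 + (t + 1) * l = (s0 + t * l) + l := by ring
    rw [e1, Finset.sum_range_add]
    have e2 : ∑ x ∈ range l, ff (qq p * (((s0 + t * l + x : ℕ) : ℝ) + 1)) =
        ∑ k ∈ range l, ff (qq p * ((s0 + t * l + 1 + k : ℕ) : ℝ)) := by
      apply Finset.sum_congr rfl
      intro k _
      congr 2
      push_cast
      ring
    rw [e2]
    have e3 : p * Real.exp (-(2 * (∑ k ∈ range (s0 + t * l), ff (qq p * ((k : ℝ) + 1)) +
        ∑ k ∈ range l, ff (qq p * ((s0 + t * l + 1 + k : ℕ) : ℝ))))) * (101 / 100) ^ (t + 1) =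
        (p * Real.exp (-(2 * ∑ k ∈ range (s0 + t * l), ff (qq p * ((k : ℝ) + 1)))) *
          (101 / 100) ^ t) * (101 / 100 * Real.exp (-(2 *
          ∑ k ∈ range l, ff (qq p * ((s0 + t * l + 1 + k : ℕ) : ℝ))))) := by
      rw [mul_add, neg_add, Real.exp_add, pow_succ]
      ring
    rw [e3]
    exact mul_le_mul_of_nonneg_right ih' (by positivity)

theorem G_phase3 {p : ℝ} (h0 : 0 < p) (h1 : p < 1) (i j s1 : ℕ) {c : ℝ}
    (hs1 : p * Real.exp (-(2 * ∑ k ∈ range s1, ff (qq p * ((k : ℝ) + 1)))) * c ≤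
      G p i j (s1 + 1)) (hc : 0 ≤ c) (d : ℕ) :
    p * Real.exp (-(2 * ∑ k ∈ range (s1 + d), ff (qq p * ((k : ℝ) + 1)))) * c ≤
      G p i j (s1 + d + 1) := by
  induction d with
  | zero => simpa using hs1
  | succ d ih =>
    refine le_trans ?_ (G_single h0 h1 i j (s1 + d + 1) (by omega))
    rw [← Nat.add_assoc, Finset.sum_range_succ]
    have e : p * Real.exp (-(2 * (∑ k ∈ range (s1 + d), ff (qq p * ((k : ℝ) + 1)) +
        ff (qq p * (((s1 + d : ℕ) : ℝ) + 1))))) * c =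
        (p * Real.exp (-(2 * ∑ k ∈ range (s1 + d), ff (qq p * ((k : ℝ) + 1)))) * c) *
        Real.exp (-(2 * ff (qq p * ((s1 + d + 1 : ℕ) : ℝ)))) := by
      rw [mul_add, neg_add, Real.exp_add]
      have : (((s1 + d : ℕ) : ℝ) + 1) = ((s1 + d + 1 : ℕ) : ℝ) := by push_cast; ring
      rw [this]
      ring
    rw [e]
    exact mul_le_mul_of_nonneg_right ih (Real.exp_pos _).le

/-- Lower bound for the probability that a large box is internally spanned. -/
theorem G_lower {p : ℝ} (h0 : 0 < p) (hp : p ≤ 1 / 10 ^ 10) (i j L : ℕ)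
    (hL : 3 / p + 3 ≤ (L : ℝ)) :
    p * Real.exp (-(2 * ((Real.pi ^ 2 / 6) / p)) + p ^ (-(1 / 2 : ℝ)) / 800) ≤ G p i j L := by
  have h1 : p < 1 := by linarith [hp]
  have hq := qq_pos h0 h1
  have hpq := le_qq h1
  have hq2 := qq_le_two h0 (by linarith)
  set q := qq p with hqdef
  have hqs : q ≤ 2 / 10 ^ 10 := by linarith
  -- square root scale
  set z := q ^ (-(1 / 2 : ℝ)) with hz
  have hz0 : 0 < z := Real.rpow_pos_of_pos hq _
  have hzz : z * z = 1 / q := by
    rw [hz, ← Real.rpow_add hq]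
    have : -(1 / 2 : ℝ) + -(1 / 2 : ℝ) = -1 := by norm_num
    rw [this, Real.rpow_neg_one, one_div]
  have hqzz : q * (z * z) = 1 := by rw [hzz]; field_simp
  have hzbig : 50000 ≤ z := by
    by_contra hcon
    push Not at hcon
    have h3 : z * z ≤ 50000 * 50000 := mul_le_mul hcon.le hcon.le hz0.le (by norm_num)
    have h4 : q * (z * z) ≤ (2 / 10 ^ 10) * (50000 * 50000) :=
      mul_le_mul hqs h3 (by positivity) (by norm_num)
    rw [hqzz] at h4
    norm_num at h4
  set l : ℕ := ⌊z⌋₊ with hl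
  have hlle : (l : ℝ) ≤ z := Nat.floor_le hz0.le
  have hlge : z - 1 ≤ (l : ℝ) := by
    have := Nat.lt_floor_add_one z
    rw [← hl] at this
    linarith
  have hlpos : (0 : ℝ) < (l : ℝ) := by linarith
  have hqz : q * z ≤ 1 / 10000 := by
    have h3 : q * z * 50000 ≤ q * z * z := mul_le_mul_of_nonneg_left hzbig (by positivity)
    have e : q * z * z = 1 := by rw [mul_assoc]; exact hqzz
    rw [e] at h3
    linarith
  have hl1 : 9 / 10 ≤ q * (l : ℝ) ^ 2 := by
    have h3 : (z - 1) ^ 2 ≤ (l : ℝ) ^ 2 := pow_le_pow_left₀ (by linarith) hlge 2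
    have h4 : q * (z - 1) ^ 2 ≤ q * (l : ℝ) ^ 2 := mul_le_mul_of_nonneg_left h3 hq.le
    have e : q * (z - 1) ^ 2 = q * (z * z) - 2 * (q * z) + q := by ring
    rw [e, hqzz] at h4
    linarith
  have hl2 : q * (l : ℝ) ^ 2 ≤ 1 := by
    have h3 : (l : ℝ) ^ 2 ≤ z ^ 2 := pow_le_pow_left₀ hlpos.le hlle 2
    have h4 : q * (l : ℝ) ^ 2 ≤ q * z ^ 2 := mul_le_mul_of_nonneg_left h3 hq.le
    have e : q * z ^ 2 = 1 := by rw [sq]; exact hqzz
    linarith
  have hl3 : q * (l : ℝ) ≤ 1 / 10000 := by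
    have := mul_le_mul_of_nonneg_left hlle hq.le
    linarith
  set s0 : ℕ := ⌈1 / q⌉₊ with hs0
  have hs0ge : 1 / q ≤ (s0 : ℝ) := Nat.le_ceil _
  have hs0le : (s0 : ℝ) ≤ 1 / q + 1 := (Nat.ceil_lt_add_one (by positivity)).le
  have hq1 : q * (1 / q) = 1 := by field_simp
  have hqs0 : 1 ≤ q * ((s0 : ℝ) + 1) := by
    have h3 : q * (1 / q) ≤ q * (s0 : ℝ) := mul_le_mul_of_nonneg_left hs0ge hq.le
    rw [hq1] at h3
    linarith
  have hqs3 : q * ((s0 : ℝ) + 1 + l * l) ≤ 3 := by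
    have h3 : q * (s0 : ℝ) ≤ q * (1 / q + 1) := mul_le_mul_of_nonneg_left hs0le hq.le
    have e : q * (1 / q + 1) = 1 + q := by rw [mul_add, hq1, mul_one]
    rw [e] at h3
    have e2 : q * ((s0 : ℝ) + 1 + l * l) = q * (s0 : ℝ) + q + q * (l : ℝ) ^ 2 := by ring
    rw [e2]
    linarith
  have ph2 := G_phase2 h0 h1 i j s0 l l hqs0 hqs3 hl1 hl2 hl3 l (le_refl _)
  have hLge : s0 + l * l + 1 ≤ L := by
    have h3 : ((s0 + l * l + 1 : ℕ) : ℝ) ≤ (L : ℝ) := by
      refine le_trans ?_ hL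
      push_cast
      have h4 : (l : ℝ) * l ≤ 1 / q := by
        rw [← hzz]
        exact mul_le_mul hlle hlle hlpos.le hz0.le
      have h5 : 1 / q ≤ 1 / p := one_div_le_one_div_of_le h0 hpq
      have h6 : 3 / p = 1 / p + 1 / p + 1 / p := by ring
      have h7 : 0 < 1 / p := by positivity
      linarith
    exact_mod_cast h3
  obtain ⟨d, hd⟩ : ∃ d, L = s0 + l * l + d + 1 := ⟨L - (s0 + l * l + 1), by omega⟩
  have ph3 := G_phase3 h0 h1 i j (s0 + l * l) ph2 (by positivity) d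
  rw [← hd] at ph3
  refine le_trans ?_ ph3
  rw [mul_assoc]
  apply mul_le_mul_of_nonneg_left _ h0.le
  have hsum := sum_ff_le hq (s0 + l * l + d)
  have h8 : (Real.pi ^ 2 / 6) / q ≤ (Real.pi ^ 2 / 6) / p :=
    div_le_div_of_nonneg_left (by positivity) h0 hpq
  have h9 : Real.exp ((l : ℝ) / 200) ≤ (101 / 100 : ℝ) ^ l := by
    have h10 : Real.exp (1 / 200) ≤ 101 / 100 := by
      have h6 := Real.one_sub_le_exp_neg (1 / 200 : ℝ)
      have h7 : Real.exp (1 / 200) * Real.exp (-(1 / 200)) = 1 := by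
        rw [← Real.exp_add]; simp
      have h8 := Real.exp_pos (1 / 200 : ℝ)
      nlinarith
    calc Real.exp ((l : ℝ) / 200) = Real.exp (1 / 200) ^ l := by
          rw [← Real.exp_nat_mul]; congr 1; ring
      _ ≤ (101 / 100 : ℝ) ^ l := pow_le_pow_left₀ (Real.exp_pos _).le h10 l
  have h10 : p ^ (-(1 / 2 : ℝ)) / 800 ≤ (l : ℝ) / 200 := by
    have h11 : p ^ (-(1 / 2 : ℝ)) ≤ 2 * z := by
      have h12 : (q / 2) ^ (-(1 / 2 : ℝ)) = 2 ^ (1 / 2 : ℝ) * z := by
        rw [Real.div_rpow hq.le (by norm_num), hz]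
        rw [Real.rpow_neg (by norm_num : (0 : ℝ) ≤ 2)]
        field_simp
      have h13 : p ^ (-(1 / 2 : ℝ)) ≤ (q / 2) ^ (-(1 / 2 : ℝ)) :=
        Real.rpow_le_rpow_of_nonpos (by positivity) (by linarith) (by norm_num)
      rw [h12] at h13
      have h14 : (2 : ℝ) ^ (1 / 2 : ℝ) ≤ 2 := by
        calc (2 : ℝ) ^ (1 / 2 : ℝ) ≤ 2 ^ (1 : ℝ) :=
              Real.rpow_le_rpow_of_exponent_le (by norm_num) (by norm_num)
          _ = 2 := Real.rpow_one _
      have h15 : (2 : ℝ) ^ (1 / 2 : ℝ) * z ≤ 2 * z := mul_le_mul_of_nonneg_right h14 hz0.le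
      linarith
    linarith
  calc Real.exp (-(2 * ((Real.pi ^ 2 / 6) / p)) + p ^ (-(1 / 2 : ℝ)) / 800) ≤
        Real.exp (-(2 * ∑ k ∈ range (s0 + l * l + d), ff (q * ((k : ℝ) + 1)))) *
        Real.exp ((l : ℝ) / 200) := by
        rw [← Real.exp_add]
        apply Real.exp_le_exp.2
        linarith
    _ ≤ _ := mul_le_mul_of_nonneg_left h9 (Real.exp_pos _).le

end Pool.Agent.Helper42.Boot
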