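import Pool.Agent.Helper42.Boot.Prob
import Pool.Agent.Helper42.Boot.Rect

set_option autoImplicit false

namespace Pool.Agent.Helper42.Boot

open Finset

theorem Pr_cols {p : ℝ} (h0 : 0 ≤ p) (h1 : p ≤ 1) {a : ℝ} (ha : 0 ≤ a) (OR : Finset ℕ)
    (hOR : 1 - (1 - p) ^ OR.card ≤ a) (C0 : Finset ℕ) :
    ∀ C : Finset ℕ, C0 ⊆ C →
    Pr p (C ×ˢ OR) (fun A => ∀ i ∈ C0, ∃ j, (i, j) ∈ A) ≤ a ^ C0.card := by
  classical
  induction C0 using Finset.induction_on with
  | empty =>
    intro C _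
    simp only [Finset.card_empty, pow_zero]
    exact Pr_le_one h0 h1 _ _
  | insert c C0 hc ih =>
    intro C hC
    have hcC : c ∈ C := hC (Finset.mem_insert_self _ _)
    have hV : C ×ˢ OR = ((C.erase c) ×ˢ OR) ∪ ({c} ×ˢ OR) := by
      rw [← Finset.union_product]
      congr 1
      ext x
      simp only [Finset.mem_union, Finset.mem_erase, Finset.mem_singleton]
      constructor
      · intro hx
        by_cases hxc : x = c
        · exact Or.inr hxc
        · exact Or.inl ⟨hxc, hx⟩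
      · rintro (h | h)
        · exact h.2
        · rw [h]; exact hcC
    have hd : Disjoint ((C.erase c) ×ˢ OR) (({c} : Finset ℕ) ×ˢ OR) := by
      rw [Finset.disjoint_left]
      rintro ⟨i, j⟩ h2 h3
      simp only [Finset.mem_product, Finset.mem_erase, Finset.mem_singleton] at h2 h3
      exact h2.1.1 h3.1
    rw [hV, Finset.card_insert_of_notMem hc, pow_succ]
    have hstep := Pr_indep_le (p := p) h0 h1 hd
      (E := fun A => ∀ i ∈ insert c C0, ∃ j, (i, j) ∈ A)
      (F := fun A => ∀ i ∈ C0, ∃ j, (i, j) ∈ A) (G := fun A => A.Nonempty)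
      (by
        intro A hA B hB h
        constructor
        · intro i hi
          obtain ⟨j, hj⟩ := h i (Finset.mem_insert_of_mem hi)
          rw [Finset.mem_union] at hj
          rcases hj with hj | hj
          · exact ⟨j, hj⟩
          · exfalso
            have := hB hj
            simp only [Finset.mem_product, Finset.mem_singleton] at this
            rw [this.1] at hi
            exact hc hi
        · obtain ⟨j, hj⟩ := h c (Finset.mem_insert_self _ _)
          rw [Finset.mem_union] at hj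
          rcases hj with hj | hj
          · exfalso
            have := hA hj
            simp only [Finset.mem_product, Finset.mem_erase] at this
            exact this.1.1 rfl
          · exact ⟨_, hj⟩)
    refine hstep.trans ?_
    rw [Pr_occ]
    apply mul_le_mul
    · apply ih
      intro i hi
      rw [Finset.mem_erase]
      exact ⟨fun h => hc (h ▸ hi), hC (Finset.mem_insert_of_mem hi)⟩
    · rw [Finset.card_product, Finset.card_singleton, one_mul]
      exact hOR
    · have : (1 - p) ^ (({c} : Finset ℕ) ×ˢ OR).card ≤ 1 := pow_le_one₀ (by linarith) (by linarith)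
      linarith
    · exact pow_nonneg ha _

theorem Pr_rows {p : ℝ} (h0 : 0 ≤ p) (h1 : p ≤ 1) {a : ℝ} (ha : 0 ≤ a) (OC : Finset ℕ)
    (hOC : 1 - (1 - p) ^ OC.card ≤ a) (R0 : Finset ℕ) :
    ∀ R : Finset ℕ, R0 ⊆ R →
    Pr p (OC ×ˢ R) (fun A => ∀ j ∈ R0, ∃ i, (i, j) ∈ A) ≤ a ^ R0.card := by
  classical
  induction R0 using Finset.induction_on with
  | empty =>
    intro C _
    simp only [Finset.card_empty, pow_zero]
    exact Pr_le_one h0 h1 _ _
  | insert c R0 hc ih =>
    intro R hR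
    have hcR : c ∈ R := hR (Finset.mem_insert_self _ _)
    have hV : OC ×ˢ R = (OC ×ˢ (R.erase c)) ∪ (OC ×ˢ {c}) := by
      rw [← Finset.product_union]
      congr 1
      ext x
      simp only [Finset.mem_union, Finset.mem_erase, Finset.mem_singleton]
      constructor
      · intro hx
        by_cases hxc : x = c
        · exact Or.inr hxc
        · exact Or.inl ⟨hxc, hx⟩
      · rintro (h | h)
        · exact h.2
        · rw [h]; exact hcR
    have hd : Disjoint (OC ×ˢ (R.erase c)) (OC ×ˢ ({c} : Finset ℕ)) := by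
      rw [Finset.disjoint_left]
      rintro ⟨i, j⟩ h2 h3
      simp only [Finset.mem_product, Finset.mem_erase, Finset.mem_singleton] at h2 h3
      exact h2.2.1 h3.2
    rw [hV, Finset.card_insert_of_notMem hc, pow_succ]
    have hstep := Pr_indep_le (p := p) h0 h1 hd
      (E := fun A => ∀ j ∈ insert c R0, ∃ i, (i, j) ∈ A)
      (F := fun A => ∀ j ∈ R0, ∃ i, (i, j) ∈ A) (G := fun A => A.Nonempty)
      (by
        intro A hA B hB h
        constructor
        · intro j hj
          obtain ⟨i, hi⟩ := h j (Finset.mem_insert_of_mem hj)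
          rw [Finset.mem_union] at hi
          rcases hi with hi | hi
          · exact ⟨i, hi⟩
          · exfalso
            have := hB hi
            simp only [Finset.mem_product, Finset.mem_singleton] at this
            rw [this.2] at hj
            exact hc hj
        · obtain ⟨i, hi⟩ := h c (Finset.mem_insert_self _ _)
          rw [Finset.mem_union] at hi
          rcases hi with hi | hi
          · exfalso
            have := hA hi
            simp only [Finset.mem_product, Finset.mem_erase] at this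
            exact this.2.1 rfl
          · exact ⟨_, hi⟩)
    refine hstep.trans ?_
    rw [Pr_occ]
    apply mul_le_mul
    · apply ih
      intro i hi
      rw [Finset.mem_erase]
      exact ⟨fun h => hc (h ▸ hi), hR (Finset.mem_insert_of_mem hi)⟩
    · rw [Finset.card_product, Finset.card_singleton, mul_one]
      exact hOC
    · have : (1 - p) ^ (OC ×ˢ ({c} : Finset ℕ)).card ≤ 1 := pow_le_one₀ (by linarith) (by linarith)
      linarith
    · exact pow_nonneg ha _

/-- The main occupancy estimate. `C` are new columns, `Rw` new rows, `OC` old columns, `OR` old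
rows. -/
theorem Pr_growth {p : ℝ} (h0 : 0 ≤ p) (h1 : p ≤ 1) {a b : ℝ} (ha : 0 < a) (ha1 : a ≤ 1)
    (hb : 0 < b) (hb1 : b ≤ 1) (C OC Rw OR : Finset ℕ)
    (hC : Disjoint C OC) (hR : Disjoint Rw OR)
    (hOR : 1 - (1 - p) ^ OR.card ≤ a) (hOC : 1 - (1 - p) ^ OC.card ≤ b)
    (Z : Finset (ℕ × ℕ)) (hZ : Z ⊆ C ×ˢ Rw) :
    ∀ C0 ⊆ C, ∀ R0 ⊆ Rw,
    Pr p (((C ×ˢ OR) ∪ (OC ×ˢ Rw)) ∪ Z)
      (fun A => (∀ i ∈ C0, ∃ j, (i, j) ∈ A) ∧ (∀ j ∈ R0, ∃ i, (i, j) ∈ A)) ≤
      a ^ C0.card * b ^ R0.card * (1 + p / (a * b)) ^ Z.card := by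
  classical
  induction Z using Finset.induction_on with
  | empty =>
    intro C0 hC0 R0 hR0
    rw [Finset.union_empty, Finset.card_empty, pow_zero, mul_one]
    have hd : Disjoint (C ×ˢ OR) (OC ×ˢ Rw) := by
      rw [Finset.disjoint_left]
      rintro ⟨i, j⟩ h2 h3
      simp only [Finset.mem_product] at h2 h3
      exact Finset.disjoint_left.1 hC h2.1 h3.1
    have hstep := Pr_indep_le (p := p) h0 h1 hd
      (E := fun A => (∀ i ∈ C0, ∃ j, (i, j) ∈ A) ∧ (∀ j ∈ R0, ∃ i, (i, j) ∈ A))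
      (F := fun A => ∀ i ∈ C0, ∃ j, (i, j) ∈ A) (G := fun A => ∀ j ∈ R0, ∃ i, (i, j) ∈ A)
      (by
        intro A hA B hB h
        constructor
        · intro i hi
          obtain ⟨j, hj⟩ := h.1 i hi
          rw [Finset.mem_union] at hj
          rcases hj with hj | hj
          · exact ⟨j, hj⟩
          · exfalso
            have := hB hj
            simp only [Finset.mem_product] at this
            exact Finset.disjoint_left.1 hC (hC0 hi) this.1
        · intro j hj
          obtain ⟨i, hi⟩ := h.2 j hj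
          rw [Finset.mem_union] at hi
          rcases hi with hi | hi
          · exfalso
            have := hA hi
            simp only [Finset.mem_product] at this
            exact Finset.disjoint_left.1 hR (hR0 hj) this.2
          · exact ⟨i, hi⟩)
    refine hstep.trans ?_
    apply mul_le_mul
    · exact Pr_cols h0 h1 ha.le OR hOR C0 C hC0
    · exact Pr_rows h0 h1 hb.le OC hOC R0 Rw hR0
    · exact Pr_nonneg h0 h1 _ _
    · exact pow_nonneg ha.le _
  | insert z Z hz ih =>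
    intro C0 hC0 R0 hR0
    have hZ' : Z ⊆ C ×ˢ Rw := (Finset.subset_insert _ _).trans hZ
    have hzm : z ∈ C ×ˢ Rw := hZ (Finset.mem_insert_self _ _)
    rw [Finset.mem_product] at hzm
    have hz' : z ∉ ((C ×ˢ OR) ∪ (OC ×ˢ Rw)) ∪ Z := by
      simp only [Finset.mem_union, Finset.mem_product, not_or]
      exact ⟨⟨fun h => Finset.disjoint_left.1 hR hzm.2 h.2,
        fun h => Finset.disjoint_left.1 hC hzm.1 h.1⟩, hz⟩
    rw [Finset.union_insert, Pr_insert hz', Finset.card_insert_of_notMem hz]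
    have i1 := ih hZ' C0 hC0 R0 hR0
    have i2 := ih hZ' (C0.erase z.1) ((Finset.erase_subset _ _).trans hC0)
      (R0.erase z.2) ((Finset.erase_subset _ _).trans hR0)
    have i3 : Pr p (((C ×ˢ OR) ∪ (OC ×ˢ Rw)) ∪ Z)
        (fun A => (∀ i ∈ C0, ∃ j, (i, j) ∈ insert z A) ∧ (∀ j ∈ R0, ∃ i, (i, j) ∈ insert z A)) ≤
        Pr p (((C ×ˢ OR) ∪ (OC ×ˢ Rw)) ∪ Z)
        (fun A => (∀ i ∈ C0.erase z.1, ∃ j, (i, j) ∈ A) ∧
          (∀ j ∈ R0.erase z.2, ∃ i, (i, j) ∈ A)) := by
      apply Pr_mono h0 h1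
      rintro A _ ⟨h2, h3⟩
      constructor
      · intro i hi
        rw [Finset.mem_erase] at hi
        obtain ⟨j, hj⟩ := h2 i hi.2
        rw [Finset.mem_insert] at hj
        rcases hj with hj | hj
        · exfalso
          apply hi.1
          rw [← hj]
        · exact ⟨j, hj⟩
      · intro j hj
        rw [Finset.mem_erase] at hj
        obtain ⟨i, hi⟩ := h3 j hj.2
        rw [Finset.mem_insert] at hi
        rcases hi with hi | hi
        · exfalso
          apply hj.1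
          rw [← hi]
        · exact ⟨i, hi⟩
    set κ := p / (a * b) with hκ
    have hab : 0 < a * b := mul_pos ha hb
    have hκ0 : 0 ≤ κ := div_nonneg h0 hab.le
    have hpk : p = κ * (a * b) := by rw [hκ]; field_simp
    have hK : 0 ≤ (1 + κ) ^ Z.card := pow_nonneg (by linarith) _
    have ea : a * a ^ (C0.erase z.1).card ≤ a ^ C0.card := by
      rw [← pow_succ']
      apply pow_le_pow_of_le_one ha.le ha1
      have := Finset.card_le_card (Finset.insert_erase_subset z.1 C0)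
      have h5 := Finset.pred_card_le_card_erase (a := z.1) (s := C0)
      omega
    have eb : b * b ^ (R0.erase z.2).card ≤ b ^ R0.card := by
      rw [← pow_succ']
      apply pow_le_pow_of_le_one hb.le hb1
      have h5 := Finset.pred_card_le_card_erase (a := z.2) (s := R0)
      omega
    have i4 := i3.trans i2
    have e1 : p * Pr p (((C ×ˢ OR) ∪ (OC ×ˢ Rw)) ∪ Z)
        (fun A => (∀ i ∈ C0, ∃ j, (i, j) ∈ insert z A) ∧ (∀ j ∈ R0, ∃ i, (i, j) ∈ insert z A)) ≤
        κ * (a ^ C0.card * b ^ R0.card * (1 + κ) ^ Z.card) := by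
      refine (mul_le_mul_of_nonneg_left i4 h0).trans ?_
      have e3 : p * (a ^ (C0.erase z.1).card * b ^ (R0.erase z.2).card * (1 + κ) ^ Z.card) =
          κ * ((a * a ^ (C0.erase z.1).card) * (b * b ^ (R0.erase z.2).card) *
            (1 + κ) ^ Z.card) := by
        nth_rewrite 1 [hpk]
        ring
      rw [e3]
      apply mul_le_mul_of_nonneg_left _ hκ0
      apply mul_le_mul_of_nonneg_right _ hK
      apply mul_le_mul ea eb (mul_nonneg hb.le (pow_nonneg hb.le _)) (pow_nonneg ha.le _)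
    have e2 : (1 - p) * Pr p (((C ×ˢ OR) ∪ (OC ×ˢ Rw)) ∪ Z)
        (fun A => (∀ i ∈ C0, ∃ j, (i, j) ∈ A) ∧ (∀ j ∈ R0, ∃ i, (i, j) ∈ A)) ≤
        1 * (a ^ C0.card * b ^ R0.card * (1 + κ) ^ Z.card) := by
      apply mul_le_mul (by linarith) i1 (Pr_nonneg h0 h1 _ _) (by norm_num)
    rw [pow_succ]
    refine (add_le_add e2 e1).trans (le_of_eq ?_)
    ring

/-- All new rows and columns are occupied. -/
def OccEv (R' R : Rect) (A : Finset (ℕ × ℕ)) : Prop :=
  (∀ i, R.x1 ≤ i → i < R.x2 → ¬ (R'.x1 ≤ i ∧ i < R'.x2) → ∃ j, (i, j) ∈ A) ∧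
  (∀ j, R.y1 ≤ j → j < R.y2 → ¬ (R'.y1 ≤ j ∧ j < R'.y2) → ∃ i, (i, j) ∈ A)

theorem Pr_OccEv {p : ℝ} (h0 : 0 ≤ p) (h1 : p ≤ 1) {a b : ℝ} (ha : 0 < a) (ha1 : a ≤ 1)
    (hb : 0 < b) (hb1 : b ≤ 1) {R' R : Rect} (hv : R'.valid) (hs : R'.sub R)
    (hha : 1 - (1 - p) ^ R'.ht ≤ a) (hwb : 1 - (1 - p) ^ R'.wd ≤ b) :
    Pr p (R.sites \ R'.sites) (OccEv R' R) ≤
      a ^ (R.wd - R'.wd) * b ^ (R.ht - R'.ht) *
        (1 + p / (a * b)) ^ ((R.wd - R'.wd) * (R.ht - R'.ht)) := by
  classical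
  set C := Finset.Ico R.x1 R.x2 \ Finset.Ico R'.x1 R'.x2 with hCdef
  set OC := Finset.Ico R'.x1 R'.x2 with hOCdef
  set Rw := Finset.Ico R.y1 R.y2 \ Finset.Ico R'.y1 R'.y2 with hRwdef
  set OR := Finset.Ico R'.y1 R'.y2 with hORdef
  obtain ⟨s1, s2, s3, s4⟩ := hs
  have hC : Disjoint C OC := Finset.sdiff_disjoint
  have hR : Disjoint Rw OR := Finset.sdiff_disjoint
  have hOCsub : OC ⊆ Finset.Ico R.x1 R.x2 := Finset.Ico_subset_Ico s1 s2
  have hORsub : OR ⊆ Finset.Ico R.y1 R.y2 := Finset.Ico_subset_Ico s3 s4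
  have hCc : C.card = R.wd - R'.wd := by
    rw [hCdef, Finset.card_sdiff_of_subset hOCsub, Nat.card_Ico, hOCdef, Nat.card_Ico]
    rfl
  have hRc : Rw.card = R.ht - R'.ht := by
    rw [hRwdef, Finset.card_sdiff_of_subset hORsub, Nat.card_Ico, hORdef, Nat.card_Ico]
    rfl
  have hV : R.sites \ R'.sites = ((C ×ˢ OR) ∪ (OC ×ˢ Rw)) ∪ (C ×ˢ Rw) := by
    ext ⟨i, j⟩
    simp only [Finset.mem_sdiff, Rect.mem_sites, Finset.mem_union, Finset.mem_product, hCdef,
      hOCdef, hRwdef, hORdef, Finset.mem_Ico]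
    omega
  have key := Pr_growth h0 h1 ha ha1 hb hb1 C OC Rw OR hC hR
    (by rw [hORdef, Nat.card_Ico]; exact hha) (by rw [hOCdef, Nat.card_Ico]; exact hwb)
    (C ×ˢ Rw) (Finset.Subset.refl _) C (Finset.Subset.refl _) Rw (Finset.Subset.refl _)
  rw [Finset.card_product, hCc, hRc] at key
  rw [hV]
  refine le_trans ?_ key
  apply Pr_mono h0 h1
  rintro A _ ⟨h2, h3⟩
  constructor
  · intro i hi
    rw [hCdef, hOCdef, Finset.mem_sdiff, Finset.mem_Ico, Finset.mem_Ico] at hi
    exact h2 i hi.1.1 hi.1.2 hi.2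
  · intro j hj
    rw [hRwdef, hORdef, Finset.mem_sdiff, Finset.mem_Ico, Finset.mem_Ico] at hj
    exact h3 j hj.1.1 hj.1.2 hj.2

/-- The probability that a rectangle is internally generated. -/
noncomputable def Q (p : ℝ) (R : Rect) : ℝ := Pr p R.sites (Up (fun A => Gen A R))

theorem Q_nonneg {p : ℝ} (h0 : 0 ≤ p) (h1 : p ≤ 1) (R : Rect) : 0 ≤ Q p R :=
  Pr_nonneg h0 h1 _ _

theorem Q_le_one {p : ℝ} (h0 : 0 ≤ p) (h1 : p ≤ 1) (R : Rect) : Q p R ≤ 1 :=
  Pr_le_one h0 h1 _ _

theorem Up_gen_inter {R : Rect} {A V : Finset (ℕ × ℕ)} (hV : R.sites ⊆ V) :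
    Up (fun A => Gen A R) A ↔ Up (fun A => Gen A R) (A ∩ V) := by
  constructor
  · rintro ⟨A', hA', h⟩
    exact ⟨A', Finset.subset_inter hA' (h.subset_sites.trans hV), h⟩
  · rintro ⟨A', hA', h⟩
    exact ⟨A', hA'.trans Finset.inter_subset_left, h⟩

theorem Pr_Up_gen {p : ℝ} {R : Rect} {V : Finset (ℕ × ℕ)} (hV : R.sites ⊆ V) :
    Pr p V (Up (fun A => Gen A R)) = Q p R := by
  unfold Q
  apply Pr_restrict hV
  intro A _
  exact Up_gen_inter (Finset.Subset.refl _)

theorem Q_thin_x {p : ℝ} (h0 : 0 ≤ p) (h1 : p ≤ 1) {a : ℝ} (ha : 0 ≤ a) (R : Rect)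
    (h : 1 - (1 - p) ^ R.ht ≤ a) : Q p R ≤ a ^ R.wd := by
  have key := Pr_cols h0 h1 ha (Finset.Ico R.y1 R.y2) (by rw [Nat.card_Ico]; exact h)
    (Finset.Ico R.x1 R.x2) (Finset.Ico R.x1 R.x2) (Finset.Subset.refl _)
  rw [Nat.card_Ico] at key
  refine le_trans ?_ key
  unfold Q
  apply Pr_mono h0 h1
  rintro A _ ⟨A', hA', hg⟩ i hi
  rw [Finset.mem_Ico] at hi
  obtain ⟨j, hj⟩ := hg.col i hi.1 hi.2
  exact ⟨j, hA' hj⟩

theorem Q_thin_y {p : ℝ} (h0 : 0 ≤ p) (h1 : p ≤ 1) {a : ℝ} (ha : 0 ≤ a) (R : Rect)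
    (h : 1 - (1 - p) ^ R.wd ≤ a) : Q p R ≤ a ^ R.ht := by
  have key := Pr_rows h0 h1 ha (Finset.Ico R.x1 R.x2) (by rw [Nat.card_Ico]; exact h)
    (Finset.Ico R.y1 R.y2) (Finset.Ico R.y1 R.y2) (Finset.Subset.refl _)
  rw [Nat.card_Ico] at key
  refine le_trans ?_ key
  unfold Q
  apply Pr_mono h0 h1
  rintro A _ ⟨A', hA', hg⟩ i hi
  rw [Finset.mem_Ico] at hi
  obtain ⟨j, hj⟩ := hg.row i hi.1 hi.2
  exact ⟨j, hA' hj⟩

theorem Gen.card_wd {A : Finset (ℕ × ℕ)} {R : Rect} (h : Gen A R) : R.wd ≤ A.card := by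
  classical
  have h1 : Finset.Ico R.x1 R.x2 ⊆ A.image Prod.fst := by
    intro i hi
    rw [Finset.mem_Ico] at hi
    obtain ⟨j, hj⟩ := h.col i hi.1 hi.2
    exact Finset.mem_image.2 ⟨_, hj, rfl⟩
  have h2 := Finset.card_le_card h1
  rw [Nat.card_Ico] at h2
  exact h2.trans Finset.card_image_le

theorem Gen.card_ht {A : Finset (ℕ × ℕ)} {R : Rect} (h : Gen A R) : R.ht ≤ A.card := by
  classical
  have h1 : Finset.Ico R.y1 R.y2 ⊆ A.image Prod.snd := by
    intro i hi
    rw [Finset.mem_Ico] at hi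
    obtain ⟨j, hj⟩ := h.row i hi.1 hi.2
    exact Finset.mem_image.2 ⟨_, hj, rfl⟩
  have h2 := Finset.card_le_card h1
  rw [Nat.card_Ico] at h2
  exact h2.trans Finset.card_image_le

theorem Pr_card_ge {p : ℝ} (h0 : 0 ≤ p) (h1 : p ≤ 1) (V : Finset (ℕ × ℕ)) (m : ℕ) :
    Pr p V (fun A => m ≤ A.card) ≤ 2 ^ V.card * p ^ m := by
  classical
  unfold Pr
  calc _ ≤ ∑ A ∈ V.powerset, p ^ m := by
        apply Finset.sum_le_sum
        intro A hA
        split_ifs with h
        · calc p ^ A.card * (1 - p) ^ (V.card - A.card) ≤ p ^ A.card * 1 := by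
                apply mul_le_mul_of_nonneg_left _ (pow_nonneg h0 _)
                exact pow_le_one₀ (by linarith) (by linarith)
            _ ≤ p ^ m := by
                rw [mul_one]
                exact pow_le_pow_of_le_one h0 h1 h
        · exact pow_nonneg h0 _
    _ = 2 ^ V.card * p ^ m := by
        rw [Finset.sum_const, Finset.card_powerset, nsmul_eq_mul]
        push_cast
        ring

theorem Q_base {p : ℝ} (h0 : 0 ≤ p) (h1 : p ≤ 1) (R : Rect) (m : ℕ) (hm : 2 * m ≤ R.phi + 1) :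
    Q p R ≤ 2 ^ (R.wd * R.ht) * p ^ m := by
  rw [← Rect.sites_card]
  refine le_trans ?_ (Pr_card_ge h0 h1 _ _)
  unfold Q
  apply Pr_mono h0 h1
  rintro A _ ⟨A', hA', hg⟩
  have h2 := hg.card_wd
  have h3 := hg.card_ht
  have h4 := Finset.card_le_card hA'
  unfold Rect.phi at hm
  unfold Rect.wd at h2
  unfold Rect.ht at h3
  show m ≤ A.card
  omega

end Pool.Agent.Helper42.Boot
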