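import Pool.Agent.Helper42.Boot.Scales
import Pool.Agent.Helper42.Boot.Fat

set_option autoImplicit false

namespace Pool.Agent.Helper42.Boot

open Finset

namespace Scales

variable {p δ Λ q y t1 X ε0 : ℝ} {x0 k : ℕ} (S : Scales p δ Λ q y t1 X ε0 x0 k)

include S

theorem hT_aux {D : ℕ} (hcT : 4 * 289 * ((D : ℝ) + 1) / δ * Λ ^ 2 * p ^ (3 * δ) ≤ 1) :
    ((D : ℝ) + 1) * (289 * Λ ^ 2 / y) ≤ (k : ℝ) := by
  have hδ := S.hδ
  have hy0 := S.y_pos
  have hX0 := S.X_pos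
  have hD0 : (0 : ℝ) < (D : ℝ) + 1 := by positivity
  have hXy : X * y * p ^ (3 * δ) = 1 := by
    rw [S.hX, S.hy, ← Real.rpow_add S.h0, ← Real.rpow_add S.h0]
    have : -(1 / 2) - δ + (1 / 2 - 2 * δ) + 3 * δ = 0 := by ring
    rw [this, Real.rpow_zero]
  refine le_trans ?_ S.hkge
  rw [← mul_div_assoc, div_le_div_iff₀ hy0 (by norm_num)]
  have hXypos : 0 < X * y := by positivity
  have h7 := mul_le_mul_of_nonneg_left hcT (mul_pos hδ hXypos).le
  have e : δ * (X * y) * (4 * 289 * ((D : ℝ) + 1) / δ * Λ ^ 2 * p ^ (3 * δ)) =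
      ((D : ℝ) + 1) * (289 * Λ ^ 2) * 4 * (X * y * p ^ (3 * δ)) := by
    field_simp
  rw [e, hXy] at h7
  linarith

theorem h5_aux {w0 L : ℝ} (hL : L = 12 * Λ) (hw0nn : 0 ≤ w0) (hw0' : w0 ≤ Λ / 2)
    {l : ℝ} (hl : l ≤ 289 * Λ ^ 2 / y)
    (hc5 : 157 * 192 / δ ^ 2 * Λ ^ 3 * p ^ (2 * δ) ≤ 1) :
    l * w0 + L ≤ 2 * k * (gcost q x0 ε0 k - gcost q x0 ε0 (2 * k)) := by
  have h0 := S.h0
  have h0' := S.p_nonneg
  have hq0 := S.q_pos
  have hy0 := S.y_pos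
  have hy1 := S.hy1
  have hX0 := S.X_pos
  have ht0 := S.t1_pos
  have hδ := S.hδ
  have hx0pos := S.x0_pos
  have hkpos := S.k_pos
  have hΛ80 := S.Λ80
  have hkx0 := S.k_le_x0
  have hs2k := S.s2k
  unfold gcost
  have hk' : 0 < q * ((k : ℝ) + x0) := by positivity
  have h7 := ff_diff (s := q * ((k : ℝ) + x0)) (h := q * k) hk' (by positivity)
  have e1 : q * ((k : ℝ) + x0) + q * k = q * (((2 * k : ℕ) : ℝ) + x0) := by push_cast; ring
  rw [e1] at h7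
  have hs0 : 0 < q * (((2 * k : ℕ) : ℝ) + x0) := by positivity
  have hE := exp_sub_one_le (y := q * (((2 * k : ℕ) : ℝ) + x0)) hs0.le (by linarith)
  have hE0 : 0 < Real.exp (q * (((2 * k : ℕ) : ℝ) + x0)) - 1 := by
    have := Real.add_one_lt_exp (ne_of_gt hs0)
    linarith
  have h8 : (k : ℝ) / (12 * x0) ≤ q * k / (Real.exp (q * (((2 * k : ℕ) : ℝ) + x0)) - 1) := by
    rw [div_le_div_iff₀ (by positivity) hE0]
    have h9 : Real.exp (q * (((2 * k : ℕ) : ℝ) + x0)) - 1 ≤ q * (12 * x0) := by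
      refine hE.trans ?_
      push_cast
      have : q * (2 * (k : ℝ) + x0) ≤ q * (3 * x0) := mul_le_mul_of_nonneg_left (by linarith) hq0.le
      linarith
    calc (k : ℝ) * (Real.exp (q * (((2 * k : ℕ) : ℝ) + x0)) - 1) ≤ k * (q * (12 * x0)) :=
          mul_le_mul_of_nonneg_left h9 hkpos.le
      _ = q * k * (12 * x0) := by ring
  have h10 : (k : ℝ) / (12 * x0) ≤
      ff (q * ((k : ℝ) + x0)) - ε0 - (ff (q * (((2 * k : ℕ) : ℝ) + x0)) - ε0) := by
    linarith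
  have h11 : 2 * (k : ℝ) * (k / (12 * x0)) ≤
      2 * k * (ff (q * ((k : ℝ) + x0)) - ε0 - (ff (q * (((2 * k : ℕ) : ℝ) + x0)) - ε0)) :=
    mul_le_mul_of_nonneg_left h10 (by positivity)
  refine le_trans ?_ h11
  have e2 : 2 * (k : ℝ) * (k / (12 * x0)) = k ^ 2 / (6 * x0) := by
    field_simp
    ring
  rw [e2]
  -- left-hand side
  have h12 : l * w0 + L ≤ 157 * Λ ^ 3 / y := by
    have h13 : l * w0 ≤ (289 * Λ ^ 2 / y) * (Λ / 2) :=
      mul_le_mul hl hw0' hw0nn (by positivity)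
    have h14 : L ≤ 12 * Λ ^ 3 / y := by
      rw [le_div_iff₀ hy0, hL]
      have h15 : Λ * y ≤ Λ * 1 := mul_le_mul_of_nonneg_left (by linarith) (by linarith)
      have h16 : Λ * 1 ≤ Λ ^ 3 := by
        have : 1 ≤ Λ ^ 2 := by nlinarith
        calc Λ * 1 ≤ Λ * Λ ^ 2 := mul_le_mul_of_nonneg_left this (by linarith)
          _ = Λ ^ 3 := by ring
      linarith
    have e3 : (289 * Λ ^ 2 / y) * (Λ / 2) = 144.5 * Λ ^ 3 / y := by ring
    have e4 : 157 * Λ ^ 3 / y = 144.5 * Λ ^ 3 / y + 12 * Λ ^ 3 / y + 0.5 * Λ ^ 3 / y := by ring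
    have h17 : 0 ≤ 0.5 * Λ ^ 3 / y := by positivity
    rw [e4]
    linarith
  refine h12.trans ?_
  have h18 : δ ^ 2 * X ^ 2 / (192 * t1) ≤ (k : ℝ) ^ 2 / (6 * x0) := by
    rw [div_le_div_iff₀ (by positivity) (by positivity)]
    have h19 : (δ * X / 4) ^ 2 ≤ (k : ℝ) ^ 2 := pow_le_pow_left₀ (by positivity) S.hkge 2
    have h20 : δ ^ 2 * X ^ 2 ≤ 16 * (k : ℝ) ^ 2 := by
      have : (δ * X / 4) ^ 2 = δ ^ 2 * X ^ 2 / 16 := by ring
      linarith
    calc δ ^ 2 * X ^ 2 * (6 * x0) ≤ (16 * (k : ℝ) ^ 2) * (6 * (2 * t1)) := by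
          apply mul_le_mul h20 _ (by positivity) (by positivity)
          have := S.hx0le
          linarith
      _ = (k : ℝ) ^ 2 * (192 * t1) := by ring
  refine le_trans ?_ h18
  rw [div_le_div_iff₀ hy0 (by positivity)]
  have e5 : X ^ 2 * y * p ^ (2 * δ) = t1 := by
    rw [S.hX, S.hy, S.ht1, ← Real.rpow_natCast _ 2, ← Real.rpow_mul h0', ← Real.rpow_add h0,
      ← Real.rpow_add h0]
    congr 1
    push_cast
    ring
  have hpos : 0 < δ ^ 2 * (X ^ 2 * y) := by positivity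
  have h21 := mul_le_mul_of_nonneg_left hc5 hpos.le
  have e6 : δ ^ 2 * (X ^ 2 * y) * (157 * 192 / δ ^ 2 * Λ ^ 3 * p ^ (2 * δ)) =
      157 * 192 * Λ ^ 3 * (X ^ 2 * y * p ^ (2 * δ)) := by
    field_simp
  rw [e6, e5] at h21
  linarith

theorem h7_aux {L : ℝ} (hL : L = 12 * Λ) {B : ℕ} (hBle : (B : ℝ) ≤ 2 * Λ / p)
    (hc7 : 2 * 4 ^ 8 * Λ ^ 8 * p ^ 4 ≤ 1) :
    2 * (2 * (B : ℝ)) ^ 8 * Real.exp (-L) ≤ 1 := by
  have h0 := S.h0
  have hΛ80 := S.Λ80
  have e1 : Real.exp (-L) = p ^ 12 := by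
    rw [← S.exp_neg_Λ, ← Real.exp_nat_mul, hL]
    congr 1
    push_cast
    ring
  rw [e1]
  have h8 : (2 * (B : ℝ)) ^ 8 ≤ (4 * Λ / p) ^ 8 := by
    apply pow_le_pow_left₀ (by positivity)
    calc 2 * (B : ℝ) ≤ 2 * (2 * Λ / p) := by linarith
      _ = 4 * Λ / p := by ring
  have h9 : (4 * Λ / p) ^ 8 * p ^ 12 = 4 ^ 8 * Λ ^ 8 * p ^ 4 := by
    field_simp
  calc 2 * (2 * (B : ℝ)) ^ 8 * p ^ 12 ≤ 2 * ((4 * Λ / p) ^ 8 * p ^ 12) := by
        have := mul_le_mul_of_nonneg_right h8 (by positivity : 0 ≤ p ^ 12)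
        linarith
    _ = 2 * 4 ^ 8 * Λ ^ 8 * p ^ 4 := by rw [h9]; ring
    _ ≤ 1 := hc7

theorem h2_ii (hc9 : 34 * Λ * p ^ δ ≤ 1) {b' : ℕ} (hkb : k ≤ b') (hpb : p * (b' : ℝ) ≤ 2 * Λ) :
    p * k / 16 ≤ (x0 : ℝ) / (4 * ((b' : ℝ) + x0)) * (1 - (1 - p) ^ b') := by
  have h0 := S.h0
  have h0' := S.p_nonneg
  have hp1 := S.p_lt_one
  have hx0pos := S.x0_pos
  have hkpos := S.k_pos
  have hΛ80 := S.Λ80
  have hkx0 := S.k_le_x0
  have ht0 := S.t1_pos
  have hδ := S.hδ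
  have hδ1 := S.hδ1
  have hX0 := S.X_pos
  have hkb' : (k : ℝ) ≤ (b' : ℝ) := by exact_mod_cast hkb
  have hb0 : (0 : ℝ) < (b' : ℝ) := by linarith
  have hr : 0 < (x0 : ℝ) / (4 * ((b' : ℝ) + x0)) := by positivity
  have hocc := occ_lower h0 hp1.le b'
  rcases le_total (p * (b' : ℝ)) 1 with hc | hc
  · rw [min_eq_left hc] at hocc
    refine le_trans ?_ (mul_le_mul_of_nonneg_left hocc hr.le)
    rw [div_mul_eq_mul_div, div_le_div_iff₀ (by norm_num) (by positivity)]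
    have h8 : (k : ℝ) * b' ≤ x0 * b' := mul_le_mul_of_nonneg_right hkx0 hb0.le
    have h9 : (k : ℝ) * x0 ≤ b' * x0 := mul_le_mul_of_nonneg_right hkb' hx0pos.le
    have h10 : p * ((k : ℝ) * b' + k * x0) ≤ p * (x0 * b' + b' * x0) :=
      mul_le_mul_of_nonneg_left (by linarith) h0'
    calc p * k * (4 * ((b' : ℝ) + x0)) = 4 * (p * ((k : ℝ) * b' + k * x0)) := by ring
      _ ≤ 4 * (p * (x0 * b' + b' * x0)) := by linarith
      _ = x0 * (1 / 2 * (p * b')) * 16 := by ring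
  · rw [min_eq_right hc] at hocc
    refine le_trans ?_ (mul_le_mul_of_nonneg_left hocc hr.le)
    rw [div_mul_eq_mul_div, div_le_div_iff₀ (by norm_num) (by positivity)]
    have h9 : p * (k : ℝ) ≤ 1 := by
      have h10 : p * (k : ℝ) ≤ p * x0 := mul_le_mul_of_nonneg_left hkx0 h0'
      have h11 := S.ε0_le
      have h12 := S.hy1
      rw [S.hε0] at h11
      linarith
    have h10 : Λ * k ≤ (x0 : ℝ) / 2 := by
      have h11 : Λ * k ≤ Λ * (δ * X / 2) := mul_le_mul_of_nonneg_left S.hkle (by linarith)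
      have h12 : Λ * X ≤ t1 := by
        rw [S.X_eq]
        have e : Λ * (t1 * p ^ δ) = (Λ * p ^ δ) * t1 := by ring
        rw [e]
        have hpδ := S.pδ_pos
        have h13 : Λ * p ^ δ ≤ 1 := by
          have : 0 ≤ Λ * p ^ δ := by positivity
          linarith
        calc (Λ * p ^ δ) * t1 ≤ 1 * t1 := mul_le_mul_of_nonneg_right h13 ht0.le
          _ = t1 := one_mul _
      have h14 : Λ * (δ * X / 2) ≤ (1 / 20) * (Λ * X) / 2 := by
        have h15 : δ * (Λ * X) ≤ (1 / 20) * (Λ * X) :=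
          mul_le_mul_of_nonneg_right hδ1 (by positivity)
        have e : Λ * (δ * X / 2) = δ * (Λ * X) / 2 := by ring
        rw [e]
        linarith
      have h16 := S.hx0ge
      linarith
    have h14 : p * k * b' ≤ 2 * Λ * k := by
      calc p * k * b' = (p * b') * k := by ring
        _ ≤ 2 * Λ * k := mul_le_mul_of_nonneg_right hpb hkpos.le
    have h15 : p * k * x0 ≤ 1 * x0 := mul_le_mul_of_nonneg_right h9 hx0pos.le
    have e : p * k * (4 * ((b' : ℝ) + x0)) = 4 * (p * k * b') + 4 * (p * k * x0) := by ring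
    rw [e]
    linarith

theorem h2_iii {M a' : ℕ} (hpM : p * (M : ℝ) ≤ 2 * Λ) (hMa : M ≤ 2 * a') :
    p * M / (8 * Λ) ≤ 1 - (1 - p) ^ a' := by
  have h0 := S.h0
  have h0' := S.p_nonneg
  have hp1 := S.p_lt_one
  have hΛ80 := S.Λ80
  have hMa' : (M : ℝ) ≤ 2 * (a' : ℝ) := by exact_mod_cast hMa
  refine le_trans ?_ (occ_lower h0 hp1.le a')
  rw [div_le_iff₀ (by linarith)]
  rcases le_total (p * (a' : ℝ)) 1 with hc | hc
  · rw [min_eq_left hc]
    have h9 : p * (M : ℝ) ≤ p * (2 * a') := mul_le_mul_of_nonneg_left hMa' h0'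
    have h10 : 0 ≤ p * (a' : ℝ) := by positivity
    have h11 : (p * (a' : ℝ)) * 1 ≤ (p * a') * Λ := mul_le_mul_of_nonneg_left (by linarith) h10
    linarith
  · rw [min_eq_right hc]
    linarith

theorem h2_aux {D : ℕ} (hcM : 4 * 291 * 256 * ((D : ℝ) + 1) / δ * Λ ^ 2 * p ^ (2 * δ) ≤ 1)
    {M : ℕ} (hXM : X < (M : ℝ)) {l : ℝ} (hl : l ≤ 97 * Λ * ((M : ℝ) + x0) / x0) :
    ((D : ℝ) + 1) * l * p ≤ 1 / 2 * (p * k / 16) * (p * M / (8 * Λ)) := by
  have h0 := S.h0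
  have h0' := S.p_nonneg
  have hp1 := S.p_lt_one
  have hΛ80 := S.Λ80
  have hx0pos := S.x0_pos
  have hX0 := S.X_pos
  have ht0 := S.t1_pos
  have hδ := S.hδ
  have hMpos : (0 : ℝ) < (M : ℝ) := by linarith
  have hpδ0 := S.pδ_pos
  have hpnδ : 1 ≤ p ^ (-δ) := by
    rw [Real.rpow_neg h0', one_le_inv₀ hpδ0]
    exact S.pδ_le
  have hMx : (M : ℝ) + x0 ≤ 3 * M * p ^ (-δ) := by
    have h8 : (x0 : ℝ) ≤ 2 * (X * p ^ (-δ)) := by
      have : X * p ^ (-δ) = t1 := by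
        rw [S.X_eq, mul_assoc, ← Real.rpow_add h0]
        simp
      rw [this]
      exact S.hx0le
    have h9 : X * p ^ (-δ) ≤ M * p ^ (-δ) := mul_le_mul_of_nonneg_right hXM.le (by positivity)
    have h10 : (M : ℝ) * 1 ≤ M * p ^ (-δ) := mul_le_mul_of_nonneg_left hpnδ hMpos.le
    linarith
  have hDpos : (0 : ℝ) < (D : ℝ) + 1 := by positivity
  have h8 : ((D : ℝ) + 1) * l * p ≤
      ((D : ℝ) + 1) * (97 * Λ * (3 * M * p ^ (-δ)) / x0) * p := by
    apply mul_le_mul_of_nonneg_right _ h0'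
    apply mul_le_mul_of_nonneg_left _ hDpos.le
    refine hl.trans ?_
    apply div_le_div_of_nonneg_right _ hx0pos.le
    apply mul_le_mul_of_nonneg_left hMx (by linarith)
  refine h8.trans ?_
  have e1 : ((D : ℝ) + 1) * (97 * Λ * (3 * M * p ^ (-δ)) / x0) * p =
      (((D : ℝ) + 1) * 291 * Λ * M * p ^ (-δ) * p) / x0 := by ring
  have e2 : 1 / 2 * (p * k / 16) * (p * M / (8 * Λ)) = (p * k * (p * M)) / (256 * Λ) := by
    have : Λ ≠ 0 := by linarith
    field_simp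
    ring
  rw [e1, e2, div_le_div_iff₀ hx0pos (by linarith)]
  have h9 : ((D : ℝ) + 1) * 291 * 256 * Λ ^ 2 * p ^ (-δ) ≤ p * k * x0 := by
    have h10 : δ / 4 * (p * X * t1) ≤ p * k * x0 := by
      have h11 : δ * X / 4 * t1 ≤ k * x0 := mul_le_mul S.hkge S.hx0ge ht0.le S.k_pos.le
      have h12 := mul_le_mul_of_nonneg_left h11 h0'
      linarith
    refine le_trans ?_ h10
    have e3 : p * X * t1 = p ^ (-(3 * δ)) := by
      calc p * X * t1 = p ^ (1 : ℝ) * p ^ (-(1 / 2) - δ) * p ^ (-(1 / 2) - 2 * δ) := by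
            rw [Real.rpow_one, S.hX, S.ht1]
        _ = p ^ (-(3 * δ)) := by
            rw [← Real.rpow_add h0, ← Real.rpow_add h0]
            congr 1
            ring
    rw [e3]
    have e4 : p ^ (-(3 * δ)) * p ^ (2 * δ) = p ^ (-δ) := by
      rw [← Real.rpow_add h0]
      congr 1
      ring
    have hpos : 0 < δ / 4 * p ^ (-(3 * δ)) := by positivity
    have h12 := mul_le_mul_of_nonneg_left hcM hpos.le
    have e5 : δ / 4 * p ^ (-(3 * δ)) *
        (4 * 291 * 256 * ((D : ℝ) + 1) / δ * Λ ^ 2 * p ^ (2 * δ)) =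
        ((D : ℝ) + 1) * 291 * 256 * Λ ^ 2 * (p ^ (-(3 * δ)) * p ^ (2 * δ)) := by
      field_simp
    rw [e5, e4] at h12
    linarith
  have h13 : (((D : ℝ) + 1) * 291 * 256 * Λ ^ 2 * p ^ (-δ)) * (p * M) ≤
      (p * k * x0) * (p * M) := mul_le_mul_of_nonneg_right h9 (by positivity)
  have e6 : ((D : ℝ) + 1) * 291 * Λ * M * p ^ (-δ) * p * (256 * Λ) =
      (((D : ℝ) + 1) * 291 * 256 * Λ ^ 2 * p ^ (-δ)) * (p * M) := by ring
  have e7 : p * k * (p * M) * x0 = (p * k * x0) * (p * M) := by ring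
  rw [e6, e7]
  exact h13

/-- Lower bound for the total cost up to the scale `B`. -/
theorem total_cost {B : ℕ} (hgB : gcost q x0 ε0 B ≤ 0) (hpB : p * (B : ℝ) ≤ 2 * Λ) :
    2 * ((Real.pi ^ 2 / 6) / p) - 34 * Λ * t1 ≤
      ∑ i ∈ range B, (wcost q x0 ε0 i + wcost q x0 ε0 (i + 1)) := by
  have h0 := S.h0
  have h0' := S.p_nonneg
  have hp1 := S.p_lt_one
  have hp := S.hp
  have hq0 := S.q_pos
  have hpq := S.p_le_q
  have hq2 := S.q_le
  have hΛ80 := S.Λ80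
  have hx0pos := S.x0_pos
  have hx0le := S.hx0le
  have ht0 := S.t1_pos
  have ht80 := S.t80
  have hδ := S.hδ
  have hε0pos := S.ε0_pos
  set K : ℕ := ⌊q ^ (-(1 / 2 : ℝ))⌋₊ with hK
  have hqpow0 : 0 < q ^ (-(1 / 2 : ℝ)) := Real.rpow_pos_of_pos hq0 _
  have hqle1 : q ≤ 1 := by linarith
  have hqpow1 : 1 ≤ q ^ (-(1 / 2 : ℝ)) :=
    Real.one_le_rpow_of_pos_of_le_one_of_nonpos hq0 hqle1 (by norm_num)
  have hKle : (K : ℝ) ≤ q ^ (-(1 / 2 : ℝ)) := Nat.floor_le hqpow0.le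
  have hK1 : 1 ≤ K := by
    rw [hK]
    exact Nat.le_floor (by simpa using hqpow1)
  have hK1r : (1 : ℝ) ≤ (K : ℝ) := by exact_mod_cast hK1
  have hKge : q ^ (-(1 / 2 : ℝ)) / 2 ≤ (K : ℝ) := by
    have h8 := Nat.lt_floor_add_one (q ^ (-(1 / 2 : ℝ)))
    rw [← hK] at h8
    linarith
  have hqsq : q ^ (-(1 / 2 : ℝ)) * q ^ (-(1 / 2 : ℝ)) = 1 / q := by
    rw [← Real.rpow_add hq0]
    have : -(1 / 2 : ℝ) + -(1 / 2 : ℝ) = -1 := by norm_num
    rw [this, Real.rpow_neg_one, one_div]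
  have hKq : (K : ℝ) * q ≤ 1 := by
    have h8 : (K : ℝ) * q ≤ q ^ (-(1 / 2 : ℝ)) * q := mul_le_mul_of_nonneg_right hKle hq0.le
    have h9 : q ^ (-(1 / 2 : ℝ)) * q ≤ 1 := by
      calc q ^ (-(1 / 2 : ℝ)) * q = q ^ (-(1 / 2 : ℝ)) * q ^ (1 : ℝ) := by rw [Real.rpow_one]
        _ = q ^ (-(1 / 2 : ℝ) + 1) := (Real.rpow_add hq0 _ _).symm
        _ ≤ 1 := Real.rpow_le_one hq0.le hqle1 (by norm_num)
    linarith
  have hSlow := sum_wcost_ge hq0 S.x0_one ε0 B K hK1 hKq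
  set lam := Real.pi ^ 2 / 6 with hlam
  have hlam2 : lam ≤ 2 := by
    rw [hlam]
    have h8 := Real.pi_lt_d2
    have h9 := Real.pi_pos
    nlinarith
  have hlam0 : 0 < lam := by rw [hlam]; positivity
  have hqp12 : q ^ (-(1 / 2 : ℝ)) ≤ t1 := by
    calc q ^ (-(1 / 2 : ℝ)) ≤ p ^ (-(1 / 2 : ℝ)) :=
          Real.rpow_le_rpow_of_nonpos h0 hpq (by norm_num)
      _ ≤ t1 := by
          rw [S.ht1]
          exact Real.rpow_le_rpow_of_exponent_ge h0 hp1.le (by linarith)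
  have t_a : 1 / (q * K) ≤ 2 * t1 := by
    have hKpos : (0 : ℝ) < (K : ℝ) := by linarith
    have h8 : 1 / (q * K) ≤ 2 * q ^ (-(1 / 2 : ℝ)) := by
      rw [div_le_iff₀ (by positivity)]
      have h9 : 1 = q * (q ^ (-(1 / 2 : ℝ)) * q ^ (-(1 / 2 : ℝ))) := by
        rw [hqsq]; field_simp
      have h10 : q ^ (-(1 / 2 : ℝ)) * q ^ (-(1 / 2 : ℝ)) ≤ q ^ (-(1 / 2 : ℝ)) * (2 * K) :=
        mul_le_mul_of_nonneg_left (by linarith) hqpow0.le
      have h11 : q * (q ^ (-(1 / 2 : ℝ)) * q ^ (-(1 / 2 : ℝ))) ≤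
          q * (q ^ (-(1 / 2 : ℝ)) * (2 * K)) := mul_le_mul_of_nonneg_left h10 hq0.le
      calc 1 ≤ q * (q ^ (-(1 / 2 : ℝ)) * (2 * K)) := by linarith
        _ = 2 * q ^ (-(1 / 2 : ℝ)) * (q * K) := by ring
    linarith
  have t_b : (K : ℝ) ≤ t1 := hKle.trans hqp12
  have t_c : Real.exp (-(((x0 + B : ℕ) : ℝ) * q)) * (lam / q) ≤ 4 * t1 := by
    have hpos : 0 < q * ((B : ℝ) + x0) := by positivity
    have h8 := exp_le_ff hpos
    have h9 : ff (q * ((B : ℝ) + x0)) ≤ ε0 := by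
      unfold gcost at hgB
      linarith
    have e1 : -(((x0 + B : ℕ) : ℝ) * q) = -(q * ((B : ℝ) + x0)) := by push_cast; ring
    rw [e1]
    have h10 : lam / q ≤ 2 / p := by
      rw [div_le_div_iff₀ hq0 h0]
      have h11 : lam * p ≤ 2 * p := mul_le_mul_of_nonneg_right hlam2 h0'
      linarith
    calc Real.exp (-(q * ((B : ℝ) + x0))) * (lam / q) ≤ ε0 * (2 / p) :=
          mul_le_mul (h8.trans h9) h10 (by positivity) hε0pos.le
      _ = 2 * x0 := by rw [S.hε0]; field_simp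
      _ ≤ 4 * t1 := by linarith
  have t_d : (x0 : ℝ) * ff q ≤ 2 * t1 * (Λ + 1) := by
    have h8 := ff_le hq0
    have h9 : -Real.log q ≤ Λ := by
      rw [S.hΛ]
      have := Real.log_le_log h0 hpq
      linarith
    have h10 : ff q ≤ Λ + 1 := by linarith
    exact mul_le_mul hx0le h10 (ff_pos hq0).le (by positivity)
  have t_e : (B : ℝ) * ε0 ≤ 4 * Λ * t1 := by
    calc (B : ℝ) * ε0 = (p * B) * x0 := by rw [S.hε0]; ring
      _ ≤ (2 * Λ) * (2 * t1) := mul_le_mul hpB hx0le hx0pos.le (by linarith)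
      _ = 4 * Λ * t1 := by ring
  have t_f : lam / p - 2 ≤ lam / q := by
    have h8 := inv_qq_ge h0 hp1
    rw [← S.hq] at h8
    have h9 : lam * (1 / p - 1) ≤ lam * (1 / q) := mul_le_mul_of_nonneg_left h8 hlam0.le
    have e1 : lam * (1 / p - 1) = lam / p - lam := by ring
    have e2 : lam * (1 / q) = lam / q := by ring
    linarith
  refine le_trans ?_ hSlow
  have h8 : t1 * 80 ≤ t1 * Λ := mul_le_mul_of_nonneg_left hΛ80 ht0.le
  linarith

end Scales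

/-- The upper bound on the percolation probability, for a fixed `p` satisfying explicit
smallness conditions. -/
theorem upper_fixed {p δ : ℝ} (h0 : 0 < p) (hδ : 0 < δ) (hδ1 : δ ≤ 1 / 20)
    (ℓs τs D : ℕ) (hℓs : 20 ≤ δ * ℓs) (hτs : (ℓs : ℝ) + 22 ≤ 3 * δ * τs)
    (hD : 50 ≤ δ * D)
    (hp : p ≤ 1 / 2)
    (hc1 : (2 : ℝ) ^ ((ℓs + 2 * τs + 2) ^ 2) * p ≤ 1)
    (hc2 : 2 * (3 : ℝ) ^ 8 * (2 : ℝ) ^ ((ℓs + τs) ^ 2) * p ^ 2 ≤ 1)
    (hc3 : (2 : ℝ) ^ (τs ^ 2) * p ^ (3 * δ) ≤ 1)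
    (hΛ : 4 ≤ δ * (-Real.log p))
    (hy : 40 * p ^ (1 / 2 - 2 * δ) ≤ 1)
    (hX4 : 4 / δ * p ^ (1 / 2 + δ) ≤ 1)
    (hcT : 4 * 289 * ((D : ℝ) + 1) / δ * (-Real.log p) ^ 2 * p ^ (3 * δ) ≤ 1)
    (hc5 : 157 * 192 / δ ^ 2 * (-Real.log p) ^ 3 * p ^ (2 * δ) ≤ 1)
    (hc7 : 2 * 4 ^ 8 * (-Real.log p) ^ 8 * p ^ 4 ≤ 1)
    (hcM : 4 * 291 * 256 * ((D : ℝ) + 1) / δ * (-Real.log p) ^ 2 * p ^ (2 * δ) ≤ 1)
    (hc9 : 34 * (-Real.log p) * p ^ δ ≤ 1)
    (hc10 : 5 * (-Real.log p) * p ≤ 1)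
    (n : ℕ) (hn : 1 ≤ n)
    (hnle : (n : ℝ) ≤ Real.exp (Real.pi ^ 2 / 6 / p - p ^ (-(1 / 2) - 3 * δ))) :
    Q p (grid n) < 1 / 2 := by
  classical
  have hp1 : p < 1 := by linarith
  have h0' : 0 ≤ p := h0.le
  obtain ⟨Λ, hΛdef⟩ : ∃ Λ, Λ = -Real.log p := ⟨_, rfl⟩
  rw [← hΛdef] at hΛ hcT hc5 hc7 hcM hc9 hc10
  obtain ⟨q, hq⟩ : ∃ q, q = qq p := ⟨_, rfl⟩
  obtain ⟨y, hydef⟩ : ∃ y, y = p ^ (1 / 2 - 2 * δ) := ⟨_, rfl⟩
  obtain ⟨t1, ht1⟩ : ∃ t1, t1 = p ^ (-(1 / 2) - 2 * δ) := ⟨_, rfl⟩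
  obtain ⟨X, hXdef⟩ : ∃ X, X = p ^ (-(1 / 2) - δ) := ⟨_, rfl⟩
  rw [← hydef] at hy
  have ht0 : 0 < t1 := by rw [ht1]; exact Real.rpow_pos_of_pos h0 _
  have hX0 : 0 < X := by rw [hXdef]; exact Real.rpow_pos_of_pos h0 _
  have hXbig : 4 ≤ δ * X := by
    have e : p ^ (1 / 2 + δ) * X = 1 := by
      rw [hXdef, ← Real.rpow_add h0]
      have : 1 / 2 + δ + (-(1 / 2) - δ) = 0 := by ring
      rw [this, Real.rpow_zero]
    have h3 : 4 / δ * p ^ (1 / 2 + δ) * X ≤ 1 * X := mul_le_mul_of_nonneg_right hX4 hX0.le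
    rw [mul_assoc, e, mul_one, one_mul, div_le_iff₀ hδ] at h3
    linarith
  have hXt1 : X ≤ t1 := by
    rw [hXdef, ht1]
    exact Real.rpow_le_rpow_of_exponent_ge h0 hp1.le (by linarith)
  have hX80 : 80 ≤ X := by
    by_contra hcon
    push Not at hcon
    nlinarith
  obtain ⟨x0, hx0⟩ : ∃ x0 : ℕ, x0 = ⌈t1⌉₊ := ⟨_, rfl⟩
  have hx0ge : t1 ≤ (x0 : ℝ) := by rw [hx0]; exact Nat.le_ceil _
  have hx0le : (x0 : ℝ) ≤ 2 * t1 := by
    have := Nat.ceil_lt_add_one ht0.le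
    rw [← hx0] at this
    linarith
  obtain ⟨k, hk⟩ : ∃ k : ℕ, k = ⌊δ * X / 2⌋₊ := ⟨_, rfl⟩
  have hkle : (k : ℝ) ≤ δ * X / 2 := by rw [hk]; exact Nat.floor_le (by positivity)
  have hkge : δ * X / 4 ≤ (k : ℝ) := by
    have := Nat.lt_floor_add_one (δ * X / 2)
    rw [← hk] at this
    linarith
  obtain ⟨ε0, hε0⟩ : ∃ ε0, ε0 = p * (x0 : ℝ) := ⟨_, rfl⟩
  have S : Scales p δ Λ q y t1 X ε0 x0 k :=
    ⟨h0, hp, hδ, hδ1, hΛdef, hΛ, hq, hydef, by linarith, ht1, hXdef, hXbig, hx0ge, hx0le,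
      hkle, hkge, hε0⟩
  have hΛ80 := S.Λ80
  have hq0 := S.q_pos
  have hpq := S.p_le_q
  have hx01 := S.x0_one
  have hx0pos := S.x0_pos
  have hk1 := S.k_one
  -- the cost function
  obtain ⟨w, hw⟩ : ∃ w, w = wcost q x0 ε0 := ⟨_, rfl⟩
  have hwc : Cost w := by rw [hw]; exact wcost_cost hq0 hx01 ε0
  -- the scale B
  obtain ⟨B, hB⟩ : ∃ B, B = Nat.find S.exists_gcost := ⟨_, rfl⟩
  have hgB : gcost q x0 ε0 B ≤ 0 := by rw [hB]; exact Nat.find_spec S.exists_gcost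
  have hgz : ∀ z, z < B → 0 < gcost q x0 ε0 z := by
    intro z hz
    rw [hB] at hz
    have := Nat.find_min S.exists_gcost hz
    push Not at this
    exact this
  have hBle : (B : ℝ) ≤ 2 * Λ / p := by
    have h3 : B ≤ ⌈Λ / q⌉₊ := by
      rw [hB]
      apply Nat.find_min' S.exists_gcost
      apply S.gcost_neg
      have h3 : Λ / q ≤ (⌈Λ / q⌉₊ : ℝ) := Nat.le_ceil _
      rw [div_le_iff₀ hq0] at h3
      linarith
    have h4 : (B : ℝ) ≤ (⌈Λ / q⌉₊ : ℝ) := by exact_mod_cast h3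
    have h5 : (⌈Λ / q⌉₊ : ℝ) < Λ / q + 1 := Nat.ceil_lt_add_one (by positivity)
    have h6 : Λ / q ≤ Λ / p := div_le_div_of_nonneg_left (by linarith) h0 hpq
    have h7 : 1 ≤ Λ / p := by
      rw [le_div_iff₀ h0]; linarith
    have h8 : 2 * Λ / p = Λ / p + Λ / p := by ring
    rw [h8]
    linarith
  have hpB : p * (B : ℝ) ≤ 2 * Λ := by
    have := mul_le_mul_of_nonneg_left hBle h0'
    have e : p * (2 * Λ / p) = 2 * Λ := by field_simp
    linarith
  have hpm : ∀ m, m < B → p * (m : ℝ) ≤ 2 * Λ := by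
    intro m hm
    have h3 : (m : ℝ) ≤ (B : ℝ) := by exact_mod_cast hm.le
    have := mul_le_mul_of_nonneg_left h3 h0'
    linarith
  have hwz : ∀ z, z < B → w z = gcost q x0 ε0 z := by
    intro z hz
    rw [hw]
    unfold wcost
    exact max_eq_left (hgz z hz).le
  have hwB : w B = 0 := by
    rw [hw]
    unfold wcost
    exact max_eq_right hgB
  -- 2k < B
  have h2kB : 2 * k < B := by
    by_contra hcon
    push Not at hcon
    have h3 := gcost_anti hq0 hx01 ε0 hcon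
    have h4 : gcost q x0 ε0 (2 * k) ≤ 0 := h3.trans hgB
    unfold gcost at h4
    have hpos : 0 < q * (((2 * k : ℕ) : ℝ) + (x0 : ℝ)) := by positivity
    have h5 := exp_le_ff hpos
    have h6 := Real.add_one_le_exp (-(q * (((2 * k : ℕ) : ℝ) + (x0 : ℝ))))
    have h7 := S.s2k
    have h8 := S.ε0_le
    have h9 := S.hy1
    linarith
  -- r and ℓ
  obtain ⟨r, hr⟩ : ∃ r : ℕ → ℝ, ∀ m, r m = (x0 : ℝ) / (4 * ((m : ℝ) + x0)) :=
    ⟨fun m => (x0 : ℝ) / (4 * ((m : ℝ) + x0)), fun _ => rfl⟩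
  have hrpos : ∀ m, 0 < r m := by
    intro m
    have : (0 : ℝ) ≤ (m : ℝ) := Nat.cast_nonneg _
    rw [hr]
    positivity
  obtain ⟨L, hL⟩ : ∃ L, L = 12 * Λ := ⟨_, rfl⟩
  have hL0 : 0 < L := by linarith
  obtain ⟨ℓ, hℓ⟩ : ∃ ℓ : ℕ → ℕ, ∀ m, ℓ m = ⌈2 * L / r m⌉₊ :=
    ⟨fun m => ⌈2 * L / r m⌉₊, fun _ => rfl⟩
  have hℓ1 : ∀ m, 1 ≤ ℓ m := by
    intro m
    rw [hℓ]
    have : 0 < 2 * L / r m := div_pos (by linarith) (hrpos m)
    exact Nat.one_le_iff_ne_zero.2 (by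
      intro hcon
      rw [Nat.ceil_eq_zero] at hcon
      linarith)
  have hℓr : ∀ m, 2 * L ≤ (ℓ m : ℝ) * r m := by
    intro m
    have h3 : 2 * L / r m ≤ (ℓ m : ℝ) := by rw [hℓ]; exact Nat.le_ceil _
    rw [div_le_iff₀ (hrpos m)] at h3
    exact h3
  have hℓle : ∀ m, (ℓ m : ℝ) ≤ 97 * Λ * ((m : ℝ) + x0) / x0 := by
    intro m
    rw [hℓ, hr]
    exact S.ell_le hL m
  have hℓle2 : ∀ m, m < B → (ℓ m : ℝ) ≤ 289 * Λ ^ 2 / y := fun m hm =>
    (hℓle m).trans (S.ell_le2 (hpm m hm))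
  -- w 0
  have hw0 : w 0 ≤ (1 / 2 - 2 * δ) * Λ + 1 := by rw [hw]; exact S.w0_le
  have hw0nn : 0 ≤ w 0 := hwc.nonneg 0
  have hw0' : w 0 ≤ Λ / 2 := by linarith
  obtain ⟨β, hβ⟩ : ∃ β, β = δ * Λ / 4 := ⟨_, rfl⟩
  have hβ0 : 0 ≤ β := by rw [hβ]; positivity
  have hβw : w 0 + β ≤ (1 / 2 - 3 / 2 * δ) * Λ := by
    rw [hβ]
    linarith
  -- the main induction
  have main : ∀ R : Rect, R.valid → R.wd < B → R.ht < B →
      Q p R ≤ Real.exp (-(Wf w R.wd R.ht)) := by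
    intro R hRv hRw hRh
    refine fat_fixed h0 hp w (fun m => ff (q * m)) r hwc ?_ B k D hk1 X β L hβ0 hL0.le ℓ ?_ ?_ ?_
      hℓ1 (fun M _ => hℓr M) ?_ ?_ ?_ ?_ ?_ (S.h7_aux hL hBle hc7) R hRv hRw hRh
    · intro m hm
      rw [hq]
      exact one_sub_pow_eq h0 hp1 hm
    · intro m
      exact (hrpos m).le
    · intro m m' hmm
      rw [hr, hr]
      have : (m : ℝ) ≤ (m' : ℝ) := by exact_mod_cast hmm
      have hm0 : (0 : ℝ) ≤ (m : ℝ) := Nat.cast_nonneg _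
      apply div_le_div_of_nonneg_left (by positivity) (by positivity)
      linarith
    · intro z hz1 hzB
      rw [hwz z hzB, hr]
      exact S.rho_ge z hz1
    · intro M hM
      have h6 : (((D + 1) * ℓ M : ℕ) : ℝ) ≤ (k : ℝ) := by
        push_cast
        have hD0 : (0 : ℝ) ≤ (D : ℝ) + 1 := by positivity
        exact (mul_le_mul_of_nonneg_left (hℓle2 M hM) hD0).trans (S.hT_aux hcT)
      exact_mod_cast h6
    · intro M a' b' hXM hMB hkb hbB hMa haB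
      have hρb : r b' ≤ ff (q * b') - w b' := by
        rw [hwz b' hbB, hr]
        exact S.rho_ge b' (le_trans hk1 hkb)
      have hu1 : 0 ≤ 1 - (1 - p) ^ b' := by
        have : (1 - p) ^ b' ≤ 1 := pow_le_one₀ (by linarith) (by linarith)
        linarith
      have hii := S.h2_ii hc9 hkb (hpm b' hbB)
      rw [← hr] at hii
      have h8 : p * k / 16 ≤ (ff (q * b') - w b') * (1 - (1 - p) ^ b') :=
        hii.trans (mul_le_mul_of_nonneg_right hρb hu1)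
      have hiii := S.h2_iii (hpm M hMB) hMa
      have h9 : p * k / 16 * (p * M / (8 * Λ)) ≤
          (ff (q * b') - w b') * (1 - (1 - p) ^ b') * (1 - (1 - p) ^ a') :=
        mul_le_mul h8 hiii (by positivity) (le_trans (by positivity) h8)
      have h10 := S.h2_aux hcM hXM (hℓle M)
      push_cast
      linarith
    · intro R hRv _ _ hcase
      exact S.nonfat hwc hβw ℓs τs hℓs hτs hc1 hc2 hc3 R hRv hcase
    · have e : β * D = Λ / 4 * (δ * D) := by rw [hβ]; ring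
      rw [e, hL]
      have : Λ / 4 * 50 ≤ Λ / 4 * (δ * D) := mul_le_mul_of_nonneg_left hD (by linarith)
      linarith
    · intro M hM
      have hkB : k < B := by omega
      rw [hwz k hkB, hwz (2 * k) h2kB]
      exact S.h5_aux hL hw0nn hw0' (hℓle2 M hM) hc5
  -- conclusion
  rcases Nat.lt_or_ge n B with hnB | hnB
  · -- small n
    have h8 := main (grid n) (by unfold grid Rect.valid; simp only; omega)
      (by unfold grid Rect.wd; simpa using hnB) (by unfold grid Rect.ht; simpa using hnB)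
    have e1 : (grid n).wd = n := by unfold grid Rect.wd; simp
    have e2 : (grid n).ht = n := by unfold grid Rect.ht; simp
    rw [e1, e2] at h8
    refine lt_of_le_of_lt h8 ?_
    have h9 : w 0 ≤ Wf w n n := by
      unfold Wf
      rw [min_self, max_self, Nat.sub_self]
      push_cast
      rw [zero_mul, add_zero]
      have h10 := hwc.sum_range_le hn
      rw [Finset.sum_range_one] at h10
      have h11 := hwc.nonneg (0 + 1)
      linarith
    have h10 : 85 / 100 ≤ w 0 := by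
      have h11 : gcost q x0 ε0 0 ≤ w 0 := by rw [hw]; exact le_max_left _ _
      refine le_trans ?_ h11
      unfold gcost
      push_cast
      rw [zero_add]
      have hpos : 0 < q * (x0 : ℝ) := by positivity
      have h12 := neg_log_le_ff hpos
      have h13 : q * (x0 : ℝ) ≤ 1 / 10 := by
        calc q * (x0 : ℝ) ≤ (2 * p) * (2 * t1) := mul_le_mul S.q_le hx0le hx0pos.le (by positivity)
          _ = 4 * y := by rw [← S.p_mul_t1]; ring
          _ ≤ 1 / 10 := by linarith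
      have h14 := Real.log_le_sub_one_of_pos hpos
      have h15 := S.ε0_le
      linarith
    have h11 : Real.exp (-(Wf w n n)) ≤ Real.exp (-(85 / 100)) :=
      Real.exp_le_exp.2 (by linarith)
    refine lt_of_le_of_lt h11 ?_
    rw [Real.exp_neg, one_div]
    apply inv_strictAnti₀ (by norm_num)
    have := Real.quadratic_le_exp_of_nonneg (by norm_num : (0 : ℝ) ≤ 85 / 100)
    norm_num at this ⊢
    linarith
  · -- large n
    obtain ⟨T, hT⟩ : ∃ T, T = ∑ i ∈ range B, (w i + w (i + 1)) := ⟨_, rfl⟩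
    have hQ := Q_grid h0' hp n B (by omega) hnB (Real.exp (-T)) (Real.exp_pos _).le (by
      intro R' U hv1 hv2 ht hw1 hw2 hbig
      have i1 := main R' hv1 hw1.1 hw1.2
      have i2 := main U hv2 hw2.1 hw2.2
      unfold Rect.valid at hv1 hv2
      unfold Rect.touch at ht
      have hHw1 : R'.wd ≤ (R'.hull U).wd := by unfold Rect.wd Rect.hull; simp only; omega
      have hHh1 : R'.ht ≤ (R'.hull U).ht := by unfold Rect.ht Rect.hull; simp only; omega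
      have hHw2 : U.wd ≤ (R'.hull U).wd := by unfold Rect.wd Rect.hull; simp only; omega
      have hHh2 : U.ht ≤ (R'.hull U).ht := by unfold Rect.ht Rect.hull; simp only; omega
      have hHw3 : (R'.hull U).wd ≤ R'.wd + U.wd := by unfold Rect.wd Rect.hull; simp only; omega
      have hHh3 : (R'.hull U).ht ≤ R'.ht + U.ht := by unfold Rect.ht Rect.hull; simp only; omega
      have hm := hwc.merge hHw3 hHh3 hHw1 hHw2 hHh1 hHh2
      have hb := hwc.big hwB hbig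
      calc Q p R' * Q p U ≤ Real.exp (-(Wf w R'.wd R'.ht)) * Real.exp (-(Wf w U.wd U.ht)) :=
            mul_le_mul i1 i2 (Q_nonneg h0' hp1.le _) (Real.exp_pos _).le
        _ ≤ Real.exp (-T) := by
            rw [← Real.exp_add]
            apply Real.exp_le_exp.2
            linarith)
    have hSfin : 2 * ((Real.pi ^ 2 / 6) / p) - 34 * Λ * t1 ≤ T := by
      rw [hT, hw]
      exact S.total_cost hgB hpB
    obtain ⟨Y, hY⟩ : ∃ Y, Y = p ^ (-(1 / 2) - 3 * δ) := ⟨_, rfl⟩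
    rw [← hY] at hnle
    have hYt : Y * p ^ δ = t1 := by
      rw [hY, ht1, ← Real.rpow_add h0]
      congr 1
      ring
    have hY0 : 0 < Y := by rw [hY]; exact Real.rpow_pos_of_pos h0 _
    have h34 : 34 * Λ * t1 ≤ Y := by
      calc 34 * Λ * t1 = (34 * Λ * p ^ δ) * Y := by rw [← hYt]; ring
        _ ≤ 1 * Y := mul_le_mul_of_nonneg_right hc9 hY0.le
        _ = Y := one_mul _
    have hn2 : (n : ℝ) ^ 2 ≤ Real.exp (2 * ((Real.pi ^ 2 / 6) / p) - 2 * Y) := by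
      have h8 : (n : ℝ) ^ 2 ≤ (Real.exp ((Real.pi ^ 2 / 6) / p - Y)) ^ 2 :=
        pow_le_pow_left₀ (Nat.cast_nonneg _) hnle 2
      rw [← Real.exp_nat_mul] at h8
      refine h8.trans (le_of_eq ?_)
      congr 1
      push_cast
      ring
    have hB8 : (2 * (B : ℝ) + 1) ^ 8 ≤ Real.exp (16 * Λ) := by
      have h8 : 2 * (B : ℝ) + 1 ≤ Real.exp (2 * Λ) := by
        have h9 : 2 * (B : ℝ) + 1 ≤ 5 * Λ / p := by
          have h10 : 1 ≤ Λ / p := by
            rw [le_div_iff₀ h0]; linarith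
          have h11 : 5 * Λ / p = 2 * (2 * Λ / p) + Λ / p := by ring
          rw [h11]
          linarith
        have h12 : Real.exp (2 * Λ) = 1 / p / p := by
          have h14 : Real.exp (2 * Λ) = Real.exp Λ * Real.exp Λ := by
            rw [← Real.exp_add]; congr 1; ring
          rw [h14]
          have h13 : Real.exp Λ = 1 / p := by
            rw [hΛdef, Real.exp_neg, Real.exp_log h0, one_div]
          rw [h13]
          field_simp
        rw [h12]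
        refine h9.trans ?_
        apply div_le_div_of_nonneg_right _ h0'
        rw [le_div_iff₀ h0]
        exact hc10
      calc (2 * (B : ℝ) + 1) ^ 8 ≤ (Real.exp (2 * Λ)) ^ 8 := pow_le_pow_left₀ (by positivity) h8 8
        _ = Real.exp (16 * Λ) := by
          rw [← Real.exp_nat_mul]
          congr 1
          push_cast
          ring
    have htot : Q p (grid n) ≤ Real.exp (-1) := by
      refine hQ.trans ?_
      calc (n : ℝ) ^ 2 * (2 * (B : ℝ) + 1) ^ 8 * Real.exp (-T) ≤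
            Real.exp (2 * ((Real.pi ^ 2 / 6) / p) - 2 * Y) * Real.exp (16 * Λ) *
              Real.exp (-T) := by
            apply mul_le_mul_of_nonneg_right _ (Real.exp_pos _).le
            exact mul_le_mul hn2 hB8 (by positivity) (Real.exp_pos _).le
        _ ≤ Real.exp (-1) := by
            rw [← Real.exp_add, ← Real.exp_add]
            apply Real.exp_le_exp.2
            have h8 : 34 * Λ ≤ Y := by
              refine le_trans ?_ h34
              have h9 : 34 * Λ * 1 ≤ 34 * Λ * t1 :=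
                mul_le_mul_of_nonneg_left (by linarith) (by linarith)
              linarith
            linarith
    refine lt_of_le_of_lt htot ?_
    rw [Real.exp_neg, one_div]
    apply inv_strictAnti₀ (by norm_num)
    have := Real.exp_one_gt_d9
    linarith

end Pool.Agent.Helper42.Boot
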