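import Mathlib

set_option autoImplicit false

namespace Pool.Agent.Helper42.Boot

open Finset

variable {α : Type*} [DecidableEq α]

open scoped Classical in
/-- Probability, under independent `p`-sampling of the sites of `V`, of the event `E`. -/
noncomputable def Pr (p : ℝ) (V : Finset α) (E : Finset α → Prop) : ℝ :=
  ∑ A ∈ V.powerset, if E A then p ^ A.card * (1 - p) ^ (V.card - A.card) else 0

theorem Pr_congr {p : ℝ} {V : Finset α} {E F : Finset α → Prop}
    (h : ∀ A ⊆ V, (E A ↔ F A)) : Pr p V E = Pr p V F := by
  classical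
  unfold Pr
  apply Finset.sum_congr rfl
  intro A hA
  rw [Finset.mem_powerset] at hA
  by_cases hE : E A
  · rw [if_pos hE, if_pos ((h A hA).1 hE)]
  · rw [if_neg hE, if_neg (fun h' => hE ((h A hA).2 h'))]

theorem Pr_empty {p : ℝ} (E : Finset α → Prop) [Decidable (E ∅)] :
    Pr p (∅ : Finset α) E = if E ∅ then 1 else 0 := by
  unfold Pr
  by_cases h : E ∅ <;> simp [h]

theorem Pr_insert {p : ℝ} {V : Finset α} {v : α} (hv : v ∉ V) (E : Finset α → Prop) :
    Pr p (insert v V) E = (1 - p) * Pr p V E + p * Pr p V (fun A => E (insert v A)) := by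
  classical
  unfold Pr
  rw [Finset.sum_powerset_insert hv, Finset.mul_sum, Finset.mul_sum]
  congr 1
  · apply Finset.sum_congr rfl
    intro A hA
    rw [Finset.mem_powerset] at hA
    have hc : A.card ≤ V.card := Finset.card_le_card hA
    by_cases hE : E A
    · rw [if_pos hE, if_pos hE, Finset.card_insert_of_notMem hv,
        Nat.succ_sub hc, pow_succ]
      ring
    · rw [if_neg hE, if_neg hE, mul_zero]
  · apply Finset.sum_congr rfl
    intro A hA
    rw [Finset.mem_powerset] at hA
    have hvA : v ∉ A := fun h => hv (hA h)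
    by_cases hE : E (insert v A)
    · rw [if_pos hE, if_pos hE, Finset.card_insert_of_notMem hv,
        Finset.card_insert_of_notMem hvA, Nat.add_sub_add_right, pow_succ]
      ring
    · rw [if_neg hE, if_neg hE, mul_zero]

theorem Pr_nonneg {p : ℝ} (h0 : 0 ≤ p) (h1 : p ≤ 1) (V : Finset α) (E : Finset α → Prop) :
    0 ≤ Pr p V E := by
  classical
  unfold Pr
  apply Finset.sum_nonneg
  intro A _
  split_ifs
  · exact mul_nonneg (pow_nonneg h0 _) (pow_nonneg (by linarith) _)
  · exact le_refl _

theorem Pr_mono {p : ℝ} (h0 : 0 ≤ p) (h1 : p ≤ 1) {V : Finset α} {E F : Finset α → Prop}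
    (h : ∀ A ⊆ V, E A → F A) : Pr p V E ≤ Pr p V F := by
  classical
  unfold Pr
  apply Finset.sum_le_sum
  intro A hA
  rw [Finset.mem_powerset] at hA
  have hnn : 0 ≤ p ^ A.card * (1 - p) ^ (V.card - A.card) :=
    mul_nonneg (pow_nonneg h0 _) (pow_nonneg (by linarith) _)
  by_cases hE : E A
  · rw [if_pos hE, if_pos (h A hA hE)]
  · rw [if_neg hE]
    split_ifs
    · exact hnn
    · exact le_refl _

theorem Pr_true {p : ℝ} (V : Finset α) : Pr p V (fun _ => True) = 1 := by
  classical
  induction V using Finset.induction_on with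
  | empty => rw [Pr_empty]; simp
  | insert v V hv ih => rw [Pr_insert hv, ih]; ring

theorem Pr_le_one {p : ℝ} (h0 : 0 ≤ p) (h1 : p ≤ 1) (V : Finset α) (E : Finset α → Prop) :
    Pr p V E ≤ 1 := by
  rw [← Pr_true (p := p) V]
  exact Pr_mono h0 h1 (fun _ _ _ => trivial)

theorem Pr_false {p : ℝ} (V : Finset α) {E : Finset α → Prop} (h : ∀ A ⊆ V, ¬ E A) :
    Pr p V E = 0 := by
  classical
  unfold Pr
  apply Finset.sum_eq_zero
  intro A hA
  rw [Finset.mem_powerset] at hA
  rw [if_neg (h A hA)]

theorem Pr_or_add_and {p : ℝ} (V : Finset α) (E F : Finset α → Prop) :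
    Pr p V (fun A => E A ∨ F A) + Pr p V (fun A => E A ∧ F A) = Pr p V E + Pr p V F := by
  classical
  unfold Pr
  rw [← Finset.sum_add_distrib, ← Finset.sum_add_distrib]
  apply Finset.sum_congr rfl
  intro A _
  by_cases hE : E A <;> by_cases hF : F A <;> simp [hE, hF]

theorem Pr_not {p : ℝ} (V : Finset α) (E : Finset α → Prop) :
    Pr p V (fun A => ¬ E A) = 1 - Pr p V E := by
  classical
  have h := Pr_or_add_and (p := p) V E (fun A => ¬ E A)
  have h1 : Pr p V (fun A => E A ∨ ¬ E A) = 1 := by
    rw [← Pr_true (p := p) V]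
    exact Pr_congr (fun A _ => by simp [em])
  have h2 : Pr p V (fun A => E A ∧ ¬ E A) = 0 := Pr_false V (fun A _ h => h.2 h.1)
  rw [h1, h2] at h
  linarith

theorem Pr_or_le {p : ℝ} (h0 : 0 ≤ p) (h1 : p ≤ 1) (V : Finset α) (E F : Finset α → Prop) :
    Pr p V (fun A => E A ∨ F A) ≤ Pr p V E + Pr p V F := by
  have h := Pr_or_add_and (p := p) V E F
  have h2 := Pr_nonneg h0 h1 V (fun A => E A ∧ F A)
  linarith

theorem Pr_exists_le {p : ℝ} (h0 : 0 ≤ p) (h1 : p ≤ 1) {ι : Type*} (s : Finset ι)
    (V : Finset α) (E : ι → Finset α → Prop) :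
    Pr p V (fun A => ∃ i ∈ s, E i A) ≤ ∑ i ∈ s, Pr p V (E i) := by
  classical
  induction s using Finset.induction_on with
  | empty =>
    rw [Pr_false V (fun A _ h => by simp at h)]
    simp
  | insert i s hi ih =>
    rw [Finset.sum_insert hi]
    refine le_trans ?_ (add_le_add (le_refl _) ih)
    refine le_trans ?_ (Pr_or_le h0 h1 V _ _)
    apply Pr_mono h0 h1
    intro A _ h
    obtain ⟨j, hj, hE⟩ := h
    rw [Finset.mem_insert] at hj
    rcases hj with rfl | hj
    · exact Or.inl hE
    · exact Or.inr ⟨j, hj, hE⟩

/-- Independence of events on disjoint sets of sites. -/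
theorem Pr_indep {p : ℝ} {V W : Finset α} (hd : Disjoint V W)
    {E F G : Finset α → Prop}
    (h : ∀ A ⊆ V, ∀ B ⊆ W, (E (A ∪ B) ↔ (F A ∧ G B))) :
    Pr p (V ∪ W) E = Pr p V F * Pr p W G := by
  classical
  induction W using Finset.induction_on generalizing E G with
  | empty =>
    rw [Finset.union_empty]
    by_cases hG : G ∅
    · rw [Pr_empty, if_pos hG, mul_one]
      apply Pr_congr
      intro A hA
      have := h A hA ∅ (Finset.Subset.refl _)
      rw [Finset.union_empty] at this
      rw [this]
      simp [hG]
    · rw [Pr_empty, if_neg hG, mul_zero]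
      apply Pr_false
      intro A hA hE
      have := h A hA ∅ (Finset.Subset.refl _)
      rw [Finset.union_empty] at this
      exact hG (this.1 hE).2
  | insert w W hw ih =>
    rw [Finset.disjoint_insert_right] at hd
    have hw' : w ∉ V ∪ W := by
      rw [Finset.mem_union]
      rintro (h1 | h1)
      · exact hd.1 h1
      · exact hw h1
    rw [Finset.union_insert, Pr_insert hw', Pr_insert hw]
    rw [ih (E := E) (G := G) hd.2
      (fun A hA B hB => h A hA B (hB.trans (Finset.subset_insert _ _)))]
    rw [ih (E := fun A => E (insert w A)) (G := fun A => G (insert w A)) hd.2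
      (fun A hA B hB => by
        have := h A hA (insert w B) (Finset.insert_subset_insert _ hB)
        rw [Finset.union_insert] at this
        exact this)]
    ring

theorem Pr_indep_le {p : ℝ} (h0 : 0 ≤ p) (h1 : p ≤ 1) {V W : Finset α} (hd : Disjoint V W)
    {E F G : Finset α → Prop}
    (h : ∀ A ⊆ V, ∀ B ⊆ W, E (A ∪ B) → (F A ∧ G B)) :
    Pr p (V ∪ W) E ≤ Pr p V F * Pr p W G := by
  classical
  have key := Pr_indep (p := p) hd (E := fun A => F (A ∩ V) ∧ G (A ∩ W)) (F := F) (G := G)
    (fun A hA B hB => by
      have e1 : (A ∪ B) ∩ V = A := by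
        ext x
        simp only [Finset.mem_inter, Finset.mem_union]
        constructor
        · rintro ⟨h1 | h1, h2⟩
          · exact h1
          · exact absurd (hB h1) (fun h3 => Finset.disjoint_left.1 hd h2 h3)
        · intro h1
          exact ⟨Or.inl h1, hA h1⟩
      have e2 : (A ∪ B) ∩ W = B := by
        ext x
        simp only [Finset.mem_inter, Finset.mem_union]
        constructor
        · rintro ⟨h1 | h1, h2⟩
          · exact absurd h2 (fun h3 => Finset.disjoint_left.1 hd (hA h1) h3)
          · exact h1
        · intro h1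
          exact ⟨Or.inr h1, hB h1⟩
      rw [e1, e2])
  rw [← key]
  apply Pr_mono h0 h1
  intro A hA hE
  have hAu : A = (A ∩ V) ∪ (A ∩ W) := by
    rw [← Finset.inter_union_distrib_left]
    exact (Finset.inter_eq_left.2 hA).symm
  rw [hAu] at hE
  exact h _ Finset.inter_subset_right _ Finset.inter_subset_right hE

/-- lower-bound version of independence -/
theorem Pr_indep_ge {p : ℝ} (h0 : 0 ≤ p) (h1 : p ≤ 1) {V W : Finset α} (hd : Disjoint V W)
    {E F G : Finset α → Prop}
    (h : ∀ A ⊆ V, ∀ B ⊆ W, F A → G B → E (A ∪ B)) :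
    Pr p V F * Pr p W G ≤ Pr p (V ∪ W) E := by
  classical
  have key := Pr_indep (p := p) hd (E := fun A => F (A ∩ V) ∧ G (A ∩ W)) (F := F) (G := G)
    (fun A hA B hB => by
      have e1 : (A ∪ B) ∩ V = A := by
        ext x
        simp only [Finset.mem_inter, Finset.mem_union]
        constructor
        · rintro ⟨h1 | h1, h2⟩
          · exact h1
          · exact absurd (hB h1) (fun h3 => Finset.disjoint_left.1 hd h2 h3)
        · intro h1
          exact ⟨Or.inl h1, hA h1⟩
      have e2 : (A ∪ B) ∩ W = B := by
        ext x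
        simp only [Finset.mem_inter, Finset.mem_union]
        constructor
        · rintro ⟨h1 | h1, h2⟩
          · exact absurd h2 (fun h3 => Finset.disjoint_left.1 hd (hA h1) h3)
          · exact h1
        · intro h1
          exact ⟨Or.inr h1, hB h1⟩
      rw [e1, e2])
  rw [← key]
  apply Pr_mono h0 h1
  intro A hA hE
  have hAu : A = (A ∩ V) ∪ (A ∩ W) := by
    rw [← Finset.inter_union_distrib_left]
    exact (Finset.inter_eq_left.2 hA).symm
  rw [hAu]
  exact h _ Finset.inter_subset_right _ Finset.inter_subset_right hE.1 hE.2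

/-- An event that only depends on the sites in `V`, seen from a larger set of sites. -/
theorem Pr_restrict {p : ℝ} {V W : Finset α} (hVW : V ⊆ W)
    {E : Finset α → Prop} (h : ∀ A ⊆ W, (E A ↔ E (A ∩ V))) :
    Pr p W E = Pr p V E := by
  classical
  have hd : Disjoint V (W \ V) := Finset.disjoint_sdiff
  have hW : W = V ∪ (W \ V) := (Finset.union_sdiff_of_subset hVW).symm
  rw [hW, Pr_indep hd (F := E) (G := fun _ => True), Pr_true, mul_one]
  intro A hA B hB
  have hAB : A ∪ B ⊆ W :=
    Finset.union_subset (hA.trans hVW) (hB.trans Finset.sdiff_subset)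
  rw [h _ hAB]
  have e1 : (A ∪ B) ∩ V = A := by
    ext x
    simp only [Finset.mem_inter, Finset.mem_union]
    constructor
    · rintro ⟨h1 | h1, h2⟩
      · exact h1
      · exact absurd (hB h1) (fun h3 => Finset.disjoint_left.1 hd h2 h3)
    · intro h1
      exact ⟨Or.inl h1, hA h1⟩
  rw [e1]
  simp

/-- Occupancy of a set of sites. -/
theorem Pr_occ {p : ℝ} (V : Finset α) :
    Pr p V (fun A => A.Nonempty) = 1 - (1 - p) ^ V.card := by
  classical
  induction V using Finset.induction_on with
  | empty => rw [Pr_empty]; simp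
  | insert v V hv ih =>
    rw [Pr_insert hv, ih, Finset.card_insert_of_notMem hv]
    have : Pr p V (fun A => (insert v A).Nonempty) = 1 := by
      rw [← Pr_true (p := p) V]
      exact Pr_congr (fun A _ => by simp)
    rw [this]
    ring

/-- upward closure of an event -/
def Up (F : Finset α → Prop) (A : Finset α) : Prop := ∃ A' ⊆ A, F A'

/-- disjoint occurrence -/
def Box (F G : Finset α → Prop) (A : Finset α) : Prop :=
  ∃ A' ⊆ A, ∃ A'' ⊆ A, Disjoint A' A'' ∧ F A' ∧ G A''

/-- van den Berg and Kesten inequality for increasing events, for `p ≤ 1/2`. -/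
theorem BK {p : ℝ} (h0 : 0 ≤ p) (h1 : p ≤ 1 / 2) (V : Finset α) (F G : Finset α → Prop) :
    Pr p V (Box F G) ≤ Pr p V (Up F) * Pr p V (Up G) := by
  classical
  have hp1 : p ≤ 1 := by linarith
  induction V using Finset.induction_on generalizing F G with
  | empty =>
    rw [Pr_empty, Pr_empty, Pr_empty]
    by_cases hB : Box F G ∅
    · have hF : Up F ∅ := by
        obtain ⟨A', hA', A'', _, _, hF, _⟩ := hB
        exact ⟨A', hA', hF⟩
      have hG : Up G ∅ := by
        obtain ⟨A', _, A'', hA'', _, _, hG⟩ := hB
        exact ⟨A'', hA'', hG⟩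
      rw [if_pos hB, if_pos hF, if_pos hG]
      norm_num
    · rw [if_neg hB]
      apply mul_nonneg <;> split_ifs <;> norm_num
  | insert v V hv ih =>
    set F1 : Finset α → Prop := fun A => F A ∨ F (insert v A) with hF1
    set G1 : Finset α → Prop := fun A => G A ∨ G (insert v A) with hG1
    rw [Pr_insert hv, Pr_insert hv, Pr_insert hv]
    -- the upward closures
    have eF : Pr p V (fun A => Up F (insert v A)) = Pr p V (Up F1) := by
      apply Pr_congr
      intro A hA
      have hvA : v ∉ A := fun h => hv (hA h)
      constructor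
      · rintro ⟨A', hA', hF⟩
        by_cases hvA' : v ∈ A'
        · refine ⟨A'.erase v, ?_, ?_⟩
          · intro x hx
            rw [Finset.mem_erase] at hx
            have := hA' hx.2
            rw [Finset.mem_insert] at this
            exact this.resolve_left hx.1
          · right
            rw [Finset.insert_erase hvA']
            exact hF
        · refine ⟨A', ?_, Or.inl hF⟩
          intro x hx
          have := hA' hx
          rw [Finset.mem_insert] at this
          rcases this with rfl | h
          · exact absurd hx hvA'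
          · exact h
      · rintro ⟨A', hA', hF | hF⟩
        · exact ⟨A', hA'.trans (Finset.subset_insert _ _), hF⟩
        · exact ⟨insert v A', Finset.insert_subset_insert _ hA', hF⟩
    have eG : Pr p V (fun A => Up G (insert v A)) = Pr p V (Up G1) := by
      apply Pr_congr
      intro A hA
      have hvA : v ∉ A := fun h => hv (hA h)
      constructor
      · rintro ⟨A', hA', hF⟩
        by_cases hvA' : v ∈ A'
        · refine ⟨A'.erase v, ?_, ?_⟩
          · intro x hx
            rw [Finset.mem_erase] at hx
            have := hA' hx.2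
            rw [Finset.mem_insert] at this
            exact this.resolve_left hx.1
          · right
            rw [Finset.insert_erase hvA']
            exact hF
        · refine ⟨A', ?_, Or.inl hF⟩
          intro x hx
          have := hA' hx
          rw [Finset.mem_insert] at this
          rcases this with rfl | h
          · exact absurd hx hvA'
          · exact h
      · rintro ⟨A', hA', hF | hF⟩
        · exact ⟨A', hA'.trans (Finset.subset_insert _ _), hF⟩
        · exact ⟨insert v A', Finset.insert_subset_insert _ hA', hF⟩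
    -- the box on the upper half
    have eB : Pr p V (fun A => Box F G (insert v A)) ≤
        Pr p V (Box F1 G) + Pr p V (Box F G1) - Pr p V (Box F G) := by
      have h2 := Pr_or_add_and (p := p) V (Box F1 G) (Box F G1)
      have h3 : Pr p V (Box F G) ≤ Pr p V (fun A => Box F1 G A ∧ Box F G1 A) := by
        apply Pr_mono h0 hp1
        rintro A _ ⟨A', hA', A'', hA'', hd, hF, hG⟩
        exact ⟨⟨A', hA', A'', hA'', hd, Or.inl hF, hG⟩, ⟨A', hA', A'', hA'', hd, hF, Or.inl hG⟩⟩
      have h4 : Pr p V (fun A => Box F G (insert v A)) ≤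
          Pr p V (fun A => Box F1 G A ∨ Box F G1 A) := by
        apply Pr_mono h0 hp1
        rintro A hA ⟨A', hA', A'', hA'', hd, hF, hG⟩
        have hvA : v ∉ A := fun h => hv (hA h)
        have sub : ∀ C : Finset α, C ⊆ insert v A → C.erase v ⊆ A := by
          intro C hC x hx
          rw [Finset.mem_erase] at hx
          have := hC hx.2
          rw [Finset.mem_insert] at this
          exact this.resolve_left hx.1
        have sub2 : ∀ C : Finset α, C ⊆ insert v A → v ∉ C → C ⊆ A := by
          intro C hC hvC x hx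
          have := hC hx
          rw [Finset.mem_insert] at this
          rcases this with rfl | h
          · exact absurd hx hvC
          · exact h
        by_cases hv1 : v ∈ A'
        · have hv2 : v ∉ A'' := fun h => Finset.disjoint_left.1 hd hv1 h
          left
          refine ⟨A'.erase v, sub _ hA', A'', sub2 _ hA'' hv2, ?_, ?_, hG⟩
          · exact Finset.disjoint_of_subset_left (Finset.erase_subset _ _) hd
          · right
            rw [Finset.insert_erase hv1]
            exact hF
        · right
          by_cases hv2 : v ∈ A''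
          · refine ⟨A', sub2 _ hA' hv1, A''.erase v, sub _ hA'', ?_, hF, ?_⟩
            · exact Finset.disjoint_of_subset_right (Finset.erase_subset _ _) hd
            · right
              rw [Finset.insert_erase hv2]
              exact hG
          · exact ⟨A', sub2 _ hA' hv1, A'', sub2 _ hA'' hv2, hd, hF, Or.inl hG⟩
      linarith
    rw [eF, eG]
    have i1 := ih F1 G
    have i2 := ih F G1
    have i3 := ih F G
    have mF : Pr p V (Up F) ≤ Pr p V (Up F1) := by
      apply Pr_mono h0 hp1
      rintro A _ ⟨A', hA', hF⟩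
      exact ⟨A', hA', Or.inl hF⟩
    have mG : Pr p V (Up G) ≤ Pr p V (Up G1) := by
      apply Pr_mono h0 hp1
      rintro A _ ⟨A', hA', hF⟩
      exact ⟨A', hA', Or.inl hF⟩
    set a := Pr p V (Up F)
    set b := Pr p V (Up G)
    set a1 := Pr p V (Up F1)
    set b1 := Pr p V (Up G1)
    set c := Pr p V (Box F G)
    have hc0 : (1 - 2 * p) * c ≤ (1 - 2 * p) * (a * b) :=
      mul_le_mul_of_nonneg_left i3 (by linarith)
    have e1 : p * Pr p V (fun A => Box F G (insert v A)) ≤ p * (a1 * b + a * b1 - c) := by
      apply mul_le_mul_of_nonneg_left _ h0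
      linarith
    have e2 : 0 ≤ p ^ 2 * ((a1 - a) * (b1 - b)) :=
      mul_nonneg (sq_nonneg _) (mul_nonneg (by linarith) (by linarith))
    nlinarith [e1, e2, hc0]

end Pool.Agent.Helper42.Boot
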