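import Pool.Agent.Helper42.Boot.Occ

set_option autoImplicit false

namespace Pool.Agent.Helper42.Boot

open Finset

/-- a finite set containing all subrectangles -/
def subs (R : Rect) : Finset Rect :=
  ((Finset.Icc R.x1 R.x2 ×ˢ Finset.Icc R.x1 R.x2) ×ˢ
    (Finset.Icc R.y1 R.y2 ×ˢ Finset.Icc R.y1 R.y2)).image
    (fun t => (⟨t.1.1, t.1.2, t.2.1, t.2.2⟩ : Rect))

theorem mem_subs {R' R : Rect} (hv : R'.valid) (hs : R'.sub R) : R' ∈ subs R := by
  unfold subs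
  rw [Finset.mem_image]
  refine ⟨((R'.x1, R'.x2), (R'.y1, R'.y2)), ?_, rfl⟩
  unfold Rect.valid at hv
  unfold Rect.sub at hs
  simp only [Finset.mem_product, Finset.mem_Icc]
  omega

theorem card_subs (R : Rect) (hv : R.valid) : (subs R).card ≤ (R.phi + 1) ^ 4 := by
  unfold subs
  refine Finset.card_image_le.trans ?_
  rw [Finset.card_product, Finset.card_product, Finset.card_product, Nat.card_Icc, Nat.card_Icc]
  unfold Rect.valid at hv
  have h1 : R.x2 + 1 - R.x1 ≤ R.phi + 1 := by unfold Rect.phi; omega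
  have h2 : R.y2 + 1 - R.y1 ≤ R.phi + 1 := by unfold Rect.phi; omega
  calc _ ≤ ((R.phi + 1) * (R.phi + 1)) * ((R.phi + 1) * (R.phi + 1)) :=
        Nat.mul_le_mul (Nat.mul_le_mul h1 h1) (Nat.mul_le_mul h2 h2)
    _ = (R.phi + 1) ^ 4 := by ring

theorem Q_growth_le {p : ℝ} (h0 : 0 ≤ p) (h1 : p ≤ 1) {R' R : Rect} (hs : R'.sub R) :
    Pr p R.sites (fun A => Up (fun A => Gen A R') A ∧ OccEv R' R A) ≤
      Q p R' * Pr p (R.sites \ R'.sites) (OccEv R' R) := by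
  classical
  have hsub := Rect.sites_subset hs
  have hV : R.sites = R'.sites ∪ (R.sites \ R'.sites) := (Finset.union_sdiff_of_subset hsub).symm
  have hd : Disjoint R'.sites (R.sites \ R'.sites) := Finset.disjoint_sdiff
  rw [hV]
  have e : (R'.sites ∪ (R.sites \ R'.sites)) \ R'.sites = R.sites \ R'.sites := by
    rw [← hV]
  rw [e]
  unfold Q
  apply Pr_indep_le h0 h1 hd
  rintro A hA B hB ⟨⟨A', hA', hg⟩, hocc⟩
  constructor
  · refine ⟨A', ?_, hg⟩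
    intro v hv
    have h2 := hA' hv
    rw [Finset.mem_union] at h2
    rcases h2 with h2 | h2
    · exact h2
    · exfalso
      have h3 := hB h2
      rw [Finset.mem_sdiff] at h3
      exact h3.2 (hg.subset_sites hv)
  · constructor
    · intro i hi1 hi2 hi3
      obtain ⟨j, hj⟩ := hocc.1 i hi1 hi2 hi3
      rw [Finset.mem_union] at hj
      rcases hj with hj | hj
      · exfalso
        have := hA hj
        rw [Rect.mem_sites] at this
        exact hi3 this.1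
      · exact ⟨j, hj⟩
    · intro j hj1 hj2 hj3
      obtain ⟨i, hi⟩ := hocc.2 j hj1 hj2 hj3
      rw [Finset.mem_union] at hi
      rcases hi with hi | hi
      · exfalso
        have := hA hi
        rw [Rect.mem_sites] at this
        exact hj3 this.2
      · exact ⟨i, hi⟩

theorem Q_box_le {p : ℝ} (h0 : 0 ≤ p) (h1 : p ≤ 1 / 2) {R' S : Rect} {V : Finset (ℕ × ℕ)}
    (hs : R'.sites ⊆ V) (hs' : S.sites ⊆ V) :
    Pr p V (Box (fun A => Gen A R') (fun A => Gen A S)) ≤ Q p R' * Q p S := by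
  refine (BK h0 h1 V _ _).trans (le_of_eq ?_)
  rw [Pr_Up_gen hs, Pr_Up_gen hs']

open scoped Classical in
/-- The recursion. -/
theorem Q_rec {p : ℝ} (h0 : 0 ≤ p) (h1 : p ≤ 1 / 2) (R : Rect) (hRv : R.valid) (ℓ τ : ℕ)
    (hℓ : 1 ≤ ℓ) (hR : ℓ + 2 ≤ R.phi) (c : ℝ) (hc : 0 ≤ c)
    (hα : ∀ R' : Rect, R'.valid → R'.sub R → R'.phi + ℓ ≤ R.phi → R.phi ≤ R'.phi + ℓ + τ →
      Q p R' * Pr p (R.sites \ R'.sites) (OccEv R' R) ≤ c)
    (hβ : ∀ R' S : Rect, R'.valid → S.valid → R'.sub R → S.sub R → R'.touch S → ¬ R'.sub S →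
      ¬ S.sub R' → (R'.hull S).sub R → R.phi < (R'.hull S).phi + ℓ → τ ≤ R'.phi → τ ≤ S.phi →
      Q p R' * Q p S ≤ c) :
    Q p R ≤ 2 * ((R.phi : ℝ) + 1) ^ 8 * c := by
  have hp1 : p ≤ 1 := by linarith
  let Sα : Finset Rect := (subs R).filter
    (fun R' => R'.valid ∧ R'.sub R ∧ R'.phi + ℓ ≤ R.phi ∧ R.phi ≤ R'.phi + ℓ + τ)
  let Sβ : Finset (Rect × Rect) := (subs R ×ˢ subs R).filter
    (fun t => t.1.valid ∧ t.2.valid ∧ t.1.sub R ∧ t.2.sub R ∧ t.1.touch t.2 ∧ ¬ t.1.sub t.2 ∧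
      ¬ t.2.sub t.1 ∧ (t.1.hull t.2).sub R ∧ R.phi < (t.1.hull t.2).phi + ℓ ∧ τ ≤ t.1.phi ∧
      τ ≤ t.2.phi)
  have key : Q p R ≤
      Pr p R.sites (fun A => ∃ R' ∈ Sα, Up (fun A => Gen A R') A ∧ OccEv R' R A) +
      Pr p R.sites (fun A => ∃ t ∈ Sβ, Box (fun A => Gen A t.1) (fun A => Gen A t.2) A) := by
    refine le_trans ?_ (Pr_or_le h0 hp1 _ _ _)
    unfold Q
    apply Pr_mono h0 hp1
    rintro A _ ⟨A0, hA0, hg⟩
    rcases hg.dec ℓ τ R (Rect.sub_refl R) (by omega) hR with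
      ⟨R', A', hA', hg', hs, c1, c2⟩ | ⟨R', S, A', hA', B', hB', hd, hg1, hg2, ht, n1, n2, hh, c1,
        c2, c3⟩
    · left
      refine ⟨R', ?_, ⟨A', hA'.trans hA0, hg'⟩, ?_, ?_⟩
      · rw [Finset.mem_filter]
        exact ⟨mem_subs hg'.valid hs, hg'.valid, hs, c1, c2⟩
      · intro i hi1 hi2 _
        obtain ⟨j, hj⟩ := hg.col i hi1 hi2
        exact ⟨j, hA0 hj⟩
      · intro j hj1 hj2 _
        obtain ⟨i, hi⟩ := hg.row j hj1 hj2
        exact ⟨i, hA0 hi⟩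
    · right
      have s1 := Rect.sub_trans (Rect.sub_hull_left R' S) hh
      have s2 := Rect.sub_trans (Rect.sub_hull_right R' S) hh
      refine ⟨(R', S), ?_, A', hA'.trans hA0, B', hB'.trans hA0, hd, hg1, hg2⟩
      rw [Finset.mem_filter]
      exact ⟨Finset.mem_product.2 ⟨mem_subs hg1.valid s1, mem_subs hg2.valid s2⟩, hg1.valid,
        hg2.valid, s1, s2, ht, n1, n2, hh, c1, c2, c3⟩
  have hN1 : (1 : ℝ) ≤ (R.phi : ℝ) + 1 := by
    have : (0 : ℝ) ≤ (R.phi : ℝ) := Nat.cast_nonneg _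
    linarith
  have hcard : ((subs R).card : ℝ) ≤ ((R.phi : ℝ) + 1) ^ 4 := by
    have := card_subs R hRv
    exact_mod_cast this
  have b1 : Pr p R.sites (fun A => ∃ R' ∈ Sα, Up (fun A => Gen A R') A ∧ OccEv R' R A) ≤
      ((R.phi : ℝ) + 1) ^ 8 * c := by
    refine (Pr_exists_le h0 hp1 _ _ _).trans ?_
    calc _ ≤ ∑ _R' ∈ Sα, c := by
          apply Finset.sum_le_sum
          intro R' hR'
          rw [Finset.mem_filter] at hR'
          obtain ⟨_, q1, q2, q3, q4⟩ := hR'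
          exact (Q_growth_le h0 hp1 q2).trans (hα R' q1 q2 q3 q4)
      _ = (Sα.card : ℝ) * c := by rw [Finset.sum_const, nsmul_eq_mul]
      _ ≤ ((R.phi : ℝ) + 1) ^ 8 * c := by
          apply mul_le_mul_of_nonneg_right _ hc
          have e1 : (Sα.card : ℝ) ≤ (subs R).card := by
            exact_mod_cast Finset.card_filter_le _ _
          have e2 : ((R.phi : ℝ) + 1) ^ 4 ≤ ((R.phi : ℝ) + 1) ^ 8 :=
            pow_le_pow_right₀ hN1 (by norm_num)
          linarith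
  have b2 : Pr p R.sites (fun A => ∃ t ∈ Sβ, Box (fun A => Gen A t.1) (fun A => Gen A t.2) A) ≤
      ((R.phi : ℝ) + 1) ^ 8 * c := by
    refine (Pr_exists_le h0 hp1 _ _ _).trans ?_
    calc _ ≤ ∑ _t ∈ Sβ, c := by
          apply Finset.sum_le_sum
          intro t ht
          rw [Finset.mem_filter] at ht
          obtain ⟨_, q1, q2, q3, q4, q5, q6, q7, q8, q9, q10, q11⟩ := ht
          exact (Q_box_le h0 h1 (Rect.sites_subset q3) (Rect.sites_subset q4)).trans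
            (hβ t.1 t.2 q1 q2 q3 q4 q5 q6 q7 q8 q9 q10 q11)
      _ = (Sβ.card : ℝ) * c := by rw [Finset.sum_const, nsmul_eq_mul]
      _ ≤ ((R.phi : ℝ) + 1) ^ 8 * c := by
          apply mul_le_mul_of_nonneg_right _ hc
          have e1 : (Sβ.card : ℝ) ≤ (subs R).card * (subs R).card := by
            have := Finset.card_filter_le (subs R ×ˢ subs R)
              (fun t => t.1.valid ∧ t.2.valid ∧ t.1.sub R ∧ t.2.sub R ∧ t.1.touch t.2 ∧
                ¬ t.1.sub t.2 ∧ ¬ t.2.sub t.1 ∧ (t.1.hull t.2).sub R ∧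
                R.phi < (t.1.hull t.2).phi + ℓ ∧ τ ≤ t.1.phi ∧ τ ≤ t.2.phi)
            rw [Finset.card_product] at this
            exact_mod_cast this
          have e2 : ((subs R).card : ℝ) * (subs R).card ≤
              ((R.phi : ℝ) + 1) ^ 4 * ((R.phi : ℝ) + 1) ^ 4 :=
            mul_le_mul hcard hcard (Nat.cast_nonneg _) (by positivity)
          calc _ ≤ ((R.phi : ℝ) + 1) ^ 4 * ((R.phi : ℝ) + 1) ^ 4 := e1.trans e2
            _ = _ := by ring
  linarith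

open scoped Classical in
/-- The final union bound on the grid. -/
theorem Q_grid {p : ℝ} (h0 : 0 ≤ p) (h1 : p ≤ 1 / 2) (n b : ℕ) (hb : 2 ≤ b) (hn : b ≤ n)
    (c : ℝ) (hc : 0 ≤ c)
    (hβ : ∀ R' S : Rect, R'.valid → S.valid → R'.touch S → (R'.wd < b ∧ R'.ht < b) →
      (S.wd < b ∧ S.ht < b) → (b ≤ (R'.hull S).wd ∨ b ≤ (R'.hull S).ht) →
      Q p R' * Q p S ≤ c) :
    Q p (grid n) ≤ (n : ℝ) ^ 2 * (2 * (b : ℝ) + 1) ^ 8 * c := by
  have hp1 : p ≤ 1 := by linarith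
  let O : Finset ℕ := Finset.range (2 * b + 1)
  let I : Finset ((ℕ × ℕ) × (((ℕ × ℕ) × (ℕ × ℕ)) × ((ℕ × ℕ) × (ℕ × ℕ)))) :=
    (Finset.range n ×ˢ Finset.range n) ×ˢ
      (((O ×ˢ O) ×ˢ (O ×ˢ O)) ×ˢ ((O ×ˢ O) ×ˢ (O ×ˢ O)))
  let r1 : ((ℕ × ℕ) × (((ℕ × ℕ) × (ℕ × ℕ)) × ((ℕ × ℕ) × (ℕ × ℕ)))) → Rect := fun t =>
    ⟨t.1.1 + t.2.1.1.1, t.1.1 + t.2.1.1.2, t.1.2 + t.2.1.2.1, t.1.2 + t.2.1.2.2⟩
  let r2 : ((ℕ × ℕ) × (((ℕ × ℕ) × (ℕ × ℕ)) × ((ℕ × ℕ) × (ℕ × ℕ)))) → Rect := fun t =>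
    ⟨t.1.1 + t.2.2.1.1, t.1.1 + t.2.2.1.2, t.1.2 + t.2.2.2.1, t.1.2 + t.2.2.2.2⟩
  let J := I.filter (fun t => (r1 t).valid ∧ (r2 t).valid ∧ (r1 t).sub (grid n) ∧
    (r2 t).sub (grid n) ∧ (r1 t).touch (r2 t) ∧ ((r1 t).wd < b ∧ (r1 t).ht < b) ∧
    ((r2 t).wd < b ∧ (r2 t).ht < b) ∧
    (b ≤ ((r1 t).hull (r2 t)).wd ∨ b ≤ ((r1 t).hull (r2 t)).ht))
  have key : Q p (grid n) ≤ Pr p (grid n).sites
      (fun A => ∃ t ∈ J, Box (fun A => Gen A (r1 t)) (fun A => Gen A (r2 t)) A) := by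
    unfold Q
    apply Pr_mono h0 hp1
    rintro A _ ⟨A0, hA0, hg⟩
    obtain ⟨R', S, A', hA', B', hB', hd, hg1, hg2, ht, hs, w1, w2, w3⟩ := hg.dec_big b hb
      (by unfold grid Rect.wd; left; simpa using hn)
    have v1 := hg1.valid
    have v2 := hg2.valid
    have s1 := Rect.sub_trans (Rect.sub_hull_left R' S) hs
    have s2 := Rect.sub_trans (Rect.sub_hull_right R' S) hs
    let t : ((ℕ × ℕ) × (((ℕ × ℕ) × (ℕ × ℕ)) × ((ℕ × ℕ) × (ℕ × ℕ)))) :=
      (((R'.hull S).x1, (R'.hull S).y1),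
        (((R'.x1 - (R'.hull S).x1, R'.x2 - (R'.hull S).x1),
          (R'.y1 - (R'.hull S).y1, R'.y2 - (R'.hull S).y1)),
        ((S.x1 - (R'.hull S).x1, S.x2 - (R'.hull S).x1),
          (S.y1 - (R'.hull S).y1, S.y2 - (R'.hull S).y1))))
    have e1 : r1 t = R' := by
      obtain ⟨a1, a2, a3, a4⟩ := R'
      obtain ⟨b1, b2, b3, b4⟩ := S
      simp only [r1, t, Rect.hull, Rect.mk.injEq]
      unfold Rect.valid at v1
      simp only at v1
      omega
    have e2 : r2 t = S := by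
      obtain ⟨a1, a2, a3, a4⟩ := R'
      obtain ⟨b1, b2, b3, b4⟩ := S
      simp only [r2, t, Rect.hull, Rect.mk.injEq]
      unfold Rect.valid at v2
      simp only at v2
      omega
    refine ⟨t, ?_, A', hA'.trans hA0, B', hB'.trans hA0, hd, ?_, ?_⟩
    · rw [Finset.mem_filter, e1, e2]
      refine ⟨?_, v1, v2, s1, s2, ht, w1, w2, w3⟩
      simp only [I, O, t, Finset.mem_product, Finset.mem_range]
      unfold Rect.valid at v1 v2
      unfold Rect.touch at ht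
      unfold Rect.wd Rect.ht at w1 w2
      unfold Rect.sub Rect.hull grid at hs
      unfold Rect.hull
      simp only at hs ⊢
      omega
    · show Gen A' (r1 t)
      rw [e1]; exact hg1
    · show Gen B' (r2 t)
      rw [e2]; exact hg2
  refine key.trans ((Pr_exists_le h0 hp1 _ _ _).trans ?_)
  calc _ ≤ ∑ _t ∈ J, c := by
        apply Finset.sum_le_sum
        intro t ht
        rw [Finset.mem_filter] at ht
        obtain ⟨_, q1, q2, q3, q4, q5, q6, q7, q8⟩ := ht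
        exact (Q_box_le h0 h1 (Rect.sites_subset q3) (Rect.sites_subset q4)).trans
          (hβ _ _ q1 q2 q5 q6 q7 q8)
    _ = (J.card : ℝ) * c := by rw [Finset.sum_const, nsmul_eq_mul]
    _ ≤ (n : ℝ) ^ 2 * (2 * (b : ℝ) + 1) ^ 8 * c := by
        apply mul_le_mul_of_nonneg_right _ hc
        have e1 : J.card ≤ I.card := Finset.card_filter_le _ _
        have e2 : I.card = n ^ 2 * (2 * b + 1) ^ 8 := by
          simp only [I, O, Finset.card_product, Finset.card_range]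
          ring
        rw [e2] at e1
        exact_mod_cast e1

end Pool.Agent.Helper42.Boot
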