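import Pool.Agent.Helper42.Boot.Recur

set_option autoImplicit false

namespace Pool.Agent.Helper42.Boot

open Finset

theorem one_sub_pow_le {p : ℝ} (h0 : 0 ≤ p) (h1 : p ≤ 1) (n : ℕ) : 1 - (1 - p) ^ n ≤ n * p := by
  have := one_add_mul_le_pow (a := -p) (by linarith) n
  have e : (1 + -p) = 1 - p := by ring
  rw [e] at this
  linarith

/-- Rectangles with both sides at most `p^(-1/2-δ)`. -/
theorem small_fixed {p δ : ℝ} (h0 : 0 < p) (h1 : p ≤ 1 / 2) (hδ : 0 < δ) (hδ1 : δ ≤ 1 / 4)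
    (ℓ τ : ℕ) (hℓ : 20 ≤ δ * ℓ) (hτ : (ℓ : ℝ) + 22 ≤ 3 * δ * τ)
    (hc1 : (2 : ℝ) ^ ((ℓ + 2 * τ + 2) ^ 2) * p ≤ 1)
    (hc2 : 2 * (3 : ℝ) ^ 8 * (2 : ℝ) ^ ((ℓ + τ) ^ 2) * p ^ 2 ≤ 1)
    (R : Rect) (hRv : R.valid) (hw : (R.wd : ℝ) ≤ p ^ (-(1 / 2) - δ))
    (hh : (R.ht : ℝ) ≤ p ^ (-(1 / 2) - δ)) (hphi : τ ≤ R.phi) :
    Q p R ≤ p ^ ((1 / 2 - 3 / 2 * δ) * (R.phi : ℝ) + ((1 / 2 - 3 / 2 * δ) * ℓ + 10)) := by
  have hp1 : p ≤ 1 := by linarith
  have h0' : 0 ≤ p := h0.le
  set ω := 1 / 2 - 3 / 2 * δ with hω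
  have hω0 : 0 ≤ ω := by rw [hω]; linarith
  have hℓ1 : 1 ≤ ℓ := by
    by_contra hcon
    have : ℓ = 0 := by omega
    rw [this] at hℓ
    norm_num at hℓ
  induction hN : R.phi using Nat.strong_induction_on generalizing R with
  | _ N ih =>
    rcases Nat.lt_or_ge R.phi (ℓ + 2 * τ + 2) with hsmall | hlarge
    · -- base case
      set m := (R.phi + 1) / 2 with hm
      have hm2 : 2 * m ≤ R.phi + 1 := by omega
      have hm3 : R.phi ≤ 2 * m := by omega
      refine (Q_base h0' hp1 R m hm2).trans ?_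
      have e1 : (2 : ℝ) ^ (R.wd * R.ht) ≤ (2 : ℝ) ^ ((ℓ + 2 * τ + 2) ^ 2) := by
        apply pow_le_pow_right₀ (by norm_num)
        rw [sq]
        apply Nat.mul_le_mul
        · unfold Rect.wd; unfold Rect.phi at hsmall; omega
        · unfold Rect.ht; unfold Rect.phi at hsmall; omega
      have e2 : p ^ m ≤ p ^ (1 + (ω * (R.phi : ℝ) + (ω * ℓ + 10))) := by
        rw [← Real.rpow_natCast p m]
        apply Real.rpow_le_rpow_of_exponent_ge h0 hp1
        have q1 : (R.phi : ℝ) ≤ 2 * (m : ℝ) := by exact_mod_cast hm3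
        have q2 : (τ : ℝ) ≤ (R.phi : ℝ) := by exact_mod_cast hphi
        have q3 : δ * τ ≤ δ * (R.phi : ℝ) := mul_le_mul_of_nonneg_left q2 hδ.le
        have q4 : (0 : ℝ) ≤ (ℓ : ℝ) := Nat.cast_nonneg _
        have q5 : δ * (ℓ : ℝ) ≥ 20 := hℓ
        rw [hω]
        nlinarith
      rw [Real.rpow_add h0, Real.rpow_one] at e2
      have hrp : 0 < p ^ (ω * (R.phi : ℝ) + (ω * ℓ + 10)) := Real.rpow_pos_of_pos h0 _
      rw [← hN]
      calc (2 : ℝ) ^ (R.wd * R.ht) * p ^ m ≤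
            (2 : ℝ) ^ ((ℓ + 2 * τ + 2) ^ 2) * (p * p ^ (ω * (R.phi : ℝ) + (ω * ℓ + 10))) :=
            mul_le_mul e1 e2 (pow_nonneg h0' _) (by positivity)
        _ = ((2 : ℝ) ^ ((ℓ + 2 * τ + 2) ^ 2) * p) * p ^ (ω * (R.phi : ℝ) + (ω * ℓ + 10)) := by
            ring
        _ ≤ 1 * p ^ (ω * (R.phi : ℝ) + (ω * ℓ + 10)) :=
            mul_le_mul_of_nonneg_right hc1 hrp.le
        _ = _ := one_mul _
    · -- recursion
      set G := p ^ (ω * (R.phi : ℝ) + (ω * ℓ + 10)) with hG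
      have hGpos : 0 < G := Real.rpow_pos_of_pos h0 _
      set c := G * (p ^ 10 * (2 : ℝ) ^ ((ℓ + τ) ^ 2)) with hc
      have hcpos : 0 ≤ c := by positivity
      have h2pos : (1 : ℝ) ≤ (2 : ℝ) ^ ((ℓ + τ) ^ 2) := one_le_pow₀ (by norm_num)
      have hX : p ^ (-(1 / 2) - δ) ≤ p ^ (-1 : ℝ) :=
        Real.rpow_le_rpow_of_exponent_ge h0 hp1 (by linarith)
      rw [Real.rpow_neg_one] at hX
      have hrec := Q_rec h0' h1 R hRv ℓ τ hℓ1 (by omega) c hcpos ?_ ?_
      · refine hrec.trans ?_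
        rw [← hN, ← hG]
        have hpinv : 1 ≤ p⁻¹ := by
          rw [one_le_inv₀ h0]; exact hp1
        have e1 : (R.phi : ℝ) + 1 ≤ 3 * p⁻¹ := by
          have q1 : (R.phi : ℝ) = (R.wd : ℝ) + (R.ht : ℝ) := by
            unfold Rect.phi Rect.wd Rect.ht
            push_cast
            ring
          rw [q1]
          linarith
        have e2 : ((R.phi : ℝ) + 1) ^ 8 ≤ (3 * p⁻¹) ^ 8 :=
          pow_le_pow_left₀ (by positivity) e1 8
        have hne : p ≠ 0 := ne_of_gt h0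
        have e3 : (3 * p⁻¹) ^ 8 * p ^ 10 = 3 ^ 8 * p ^ 2 := by
          field_simp
        calc 2 * ((R.phi : ℝ) + 1) ^ 8 * c ≤ 2 * (3 * p⁻¹) ^ 8 * c := by
              apply mul_le_mul_of_nonneg_right _ hcpos
              linarith
          _ = G * (2 * ((3 * p⁻¹) ^ 8 * p ^ 10) * (2 : ℝ) ^ ((ℓ + τ) ^ 2)) := by
              rw [hc]; ring
          _ = G * (2 * (3 : ℝ) ^ 8 * (2 : ℝ) ^ ((ℓ + τ) ^ 2) * p ^ 2) := by
              rw [e3]; ring
          _ ≤ G * 1 := mul_le_mul_of_nonneg_left hc2 hGpos.le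
          _ = G := mul_one _
      · -- growth terms
        intro R' hv hs hφ1 hφ2
        have hwle : R'.wd ≤ R.wd := by
          unfold Rect.wd; unfold Rect.sub at hs; unfold Rect.valid at hv; omega
        have hhle : R'.ht ≤ R.ht := by
          unfold Rect.ht; unfold Rect.sub at hs; unfold Rect.valid at hv; omega
        have hw' : (R'.wd : ℝ) ≤ p ^ (-(1 / 2) - δ) := by
          refine le_trans ?_ hw
          exact_mod_cast hwle
        have hh' : (R'.ht : ℝ) ≤ p ^ (-(1 / 2) - δ) := by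
          refine le_trans ?_ hh
          exact_mod_cast hhle
        have hQ := ih R'.phi (by omega) R' hv hw' hh' (by omega) rfl
        set U := p ^ (1 / 2 - δ) with hU
        have hU0 : 0 < U := Real.rpow_pos_of_pos h0 _
        have hU1 : U ≤ 1 := Real.rpow_le_one h0' hp1 (by linarith)
        have hpX : p ^ (-(1 / 2) - δ) * p = U := by
          nth_rewrite 2 [← Real.rpow_one p]
          rw [← Real.rpow_add h0, hU]
          congr 1
          ring
        have hUw : 1 - (1 - p) ^ R'.wd ≤ U := by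
          refine (one_sub_pow_le h0' hp1 _).trans ?_
          rw [← hpX]
          exact mul_le_mul_of_nonneg_right hw' h0'
        have hUh : 1 - (1 - p) ^ R'.ht ≤ U := by
          refine (one_sub_pow_le h0' hp1 _).trans ?_
          rw [← hpX]
          exact mul_le_mul_of_nonneg_right hh' h0'
        have hocc := Pr_OccEv h0' hp1 hU0 hU1 hU0 hU1 hv hs hUh hUw
        set x := R.wd - R'.wd with hx
        set y := R.ht - R'.ht with hy
        have hxy : R.phi = R'.phi + (x + y) := by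
          rw [hx, hy]
          unfold Rect.phi Rect.wd Rect.ht
          unfold Rect.wd at hwle
          unfold Rect.ht at hhle
          omega
        have hxT : x ≤ ℓ + τ := by omega
        have hyT : y ≤ ℓ + τ := by omega
        have hratio : p / (U * U) ≤ 1 := by
          rw [div_le_one (mul_pos hU0 hU0), hU, ← Real.rpow_add h0]
          calc p = p ^ (1 : ℝ) := (Real.rpow_one p).symm
            _ ≤ p ^ (1 / 2 - δ + (1 / 2 - δ)) :=
              Real.rpow_le_rpow_of_exponent_ge h0 hp1 (by linarith)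
        have e2 : (1 + p / (U * U)) ^ (x * y) ≤ (2 : ℝ) ^ ((ℓ + τ) ^ 2) := by
          calc (1 + p / (U * U)) ^ (x * y) ≤ (2 : ℝ) ^ (x * y) := by
                apply pow_le_pow_left₀ _ (by linarith)
                have : 0 ≤ p / (U * U) := by positivity
                linarith
            _ ≤ (2 : ℝ) ^ ((ℓ + τ) ^ 2) := by
                apply pow_le_pow_right₀ (by norm_num)
                rw [sq]
                exact Nat.mul_le_mul hxT hyT
        have hP0 : 0 ≤ Pr p (R.sites \ R'.sites) (OccEv R' R) := Pr_nonneg h0' hp1 _ _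
        have hQ0 : 0 ≤ Q p R' := Q_nonneg h0' hp1 R'
        have hUxy : U ^ x * U ^ y = p ^ ((1 / 2 - δ) * ((x + y : ℕ) : ℝ)) := by
          rw [← pow_add, hU, ← Real.rpow_natCast (p ^ (1 / 2 - δ)) (x + y),
            ← Real.rpow_mul h0']
        calc Q p R' * Pr p (R.sites \ R'.sites) (OccEv R' R)
            ≤ p ^ (ω * (R'.phi : ℝ) + (ω * ℓ + 10)) *
              (U ^ x * U ^ y * (2 : ℝ) ^ ((ℓ + τ) ^ 2)) := by
              apply mul_le_mul hQ _ hP0 (Real.rpow_nonneg h0' _)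
              refine hocc.trans ?_
              apply mul_le_mul_of_nonneg_left e2
              positivity
          _ = (p ^ (ω * (R'.phi : ℝ) + (ω * ℓ + 10)) * p ^ ((1 / 2 - δ) * ((x + y : ℕ) : ℝ))) *
              (2 : ℝ) ^ ((ℓ + τ) ^ 2) := by
              rw [hUxy]; ring
          _ ≤ (G * p ^ 10) * (2 : ℝ) ^ ((ℓ + τ) ^ 2) := by
              apply mul_le_mul_of_nonneg_right _ (by positivity)
              rw [hG, ← Real.rpow_natCast p 10, ← Real.rpow_add h0, ← Real.rpow_add h0]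
              apply Real.rpow_le_rpow_of_exponent_ge h0 hp1
              have q1 : (R.phi : ℝ) = (R'.phi : ℝ) + ((x + y : ℕ) : ℝ) := by
                rw [hxy]; push_cast; ring
              have q2 : (ℓ : ℝ) ≤ ((x + y : ℕ) : ℝ) := by
                exact_mod_cast (by omega : ℓ ≤ x + y)
              have q3 : δ * ℓ ≤ δ * ((x + y : ℕ) : ℝ) := mul_le_mul_of_nonneg_left q2 hδ.le
              rw [q1, hω]
              push_cast at q2 q3 ⊢
              nlinarith
          _ = c := by rw [hc]; ring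
      · -- merge terms
        intro R' S hv1 hv2 hs1 hs2 ht hn1 hn2 hhull hφ hτ1 hτ2
        have hwle : R'.wd ≤ R.wd := by
          unfold Rect.wd; unfold Rect.sub at hs1; unfold Rect.valid at hv1; omega
        have hhle : R'.ht ≤ R.ht := by
          unfold Rect.ht; unfold Rect.sub at hs1; unfold Rect.valid at hv1; omega
        have hwle2 : S.wd ≤ R.wd := by
          unfold Rect.wd; unfold Rect.sub at hs2; unfold Rect.valid at hv2; omega
        have hhle2 : S.ht ≤ R.ht := by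
          unfold Rect.ht; unfold Rect.sub at hs2; unfold Rect.valid at hv2; omega
        have hlt1 : R'.phi < R.phi := by
          unfold Rect.phi
          unfold Rect.sub at hs1 hs2 hn1 hn2
          unfold Rect.valid at hv1 hv2
          omega
        have hlt2 : S.phi < R.phi := by
          unfold Rect.phi
          unfold Rect.sub at hs1 hs2 hn1 hn2
          unfold Rect.valid at hv1 hv2
          omega
        have hsum : (R'.hull S).phi ≤ R'.phi + S.phi := by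
          unfold Rect.valid at hv1 hv2
          unfold Rect.touch at ht
          unfold Rect.phi Rect.hull
          simp only
          omega
        have hQ1 := ih R'.phi (by omega) R' hv1 ((by exact_mod_cast hwle : (R'.wd : ℝ) ≤ R.wd).trans hw)
          ((by exact_mod_cast hhle : (R'.ht : ℝ) ≤ R.ht).trans hh) hτ1 rfl
        have hQ2 := ih S.phi (by omega) S hv2 ((by exact_mod_cast hwle2 : (S.wd : ℝ) ≤ R.wd).trans hw)
          ((by exact_mod_cast hhle2 : (S.ht : ℝ) ≤ R.ht).trans hh) hτ2 rfl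
        calc Q p R' * Q p S ≤ p ^ (ω * (R'.phi : ℝ) + (ω * ℓ + 10)) *
              p ^ (ω * (S.phi : ℝ) + (ω * ℓ + 10)) :=
              mul_le_mul hQ1 hQ2 (Q_nonneg h0' hp1 _) (Real.rpow_nonneg h0' _)
          _ ≤ G * p ^ 10 := by
              rw [hG, ← Real.rpow_natCast p 10, ← Real.rpow_add h0, ← Real.rpow_add h0]
              apply Real.rpow_le_rpow_of_exponent_ge h0 hp1
              have q1 : (R.phi : ℝ) ≤ (R'.phi : ℝ) + (S.phi : ℝ) + ℓ := by
                exact_mod_cast (by omega : R.phi ≤ R'.phi + S.phi + ℓ)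
              have q2 : ω * (R.phi : ℝ) ≤ ω * ((R'.phi : ℝ) + (S.phi : ℝ) + ℓ) :=
                mul_le_mul_of_nonneg_left q1 hω0
              push_cast
              linarith
          _ ≤ c := by
              rw [hc]
              have : G * p ^ 10 * 1 ≤ G * p ^ 10 * (2 : ℝ) ^ ((ℓ + τ) ^ 2) :=
                mul_le_mul_of_nonneg_left h2pos (by positivity)
              linarith

/-- Rectangles with both sides at most `p^(-1/2-δ)`, no lower bound on the size. -/
theorem small_fixed' {p δ : ℝ} (h0 : 0 < p) (h1 : p ≤ 1 / 2) (hδ : 0 < δ) (hδ1 : δ ≤ 1 / 4)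
    (ℓ τ : ℕ) (hℓ : 20 ≤ δ * ℓ) (hτ : (ℓ : ℝ) + 22 ≤ 3 * δ * τ)
    (hc1 : (2 : ℝ) ^ ((ℓ + 2 * τ + 2) ^ 2) * p ≤ 1)
    (hc2 : 2 * (3 : ℝ) ^ 8 * (2 : ℝ) ^ ((ℓ + τ) ^ 2) * p ^ 2 ≤ 1)
    (hc3 : (2 : ℝ) ^ (τ ^ 2) * p ^ (3 * δ) ≤ 1)
    (R : Rect) (hRv : R.valid) (hw : (R.wd : ℝ) ≤ p ^ (-(1 / 2) - δ))
    (hh : (R.ht : ℝ) ≤ p ^ (-(1 / 2) - δ)) :
    Q p R ≤ p ^ ((1 / 2 - 3 / 2 * δ) * (R.phi : ℝ)) := by
  have hp1 : p ≤ 1 := by linarith
  have h0' : 0 ≤ p := h0.le
  rcases Nat.lt_or_ge R.phi τ with h | h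
  · set m := (R.phi + 1) / 2 with hm
    have hm2 : 2 * m ≤ R.phi + 1 := by omega
    have hm3 : R.phi ≤ 2 * m := by omega
    refine (Q_base h0' hp1 R m hm2).trans ?_
    have hphi2 : 2 ≤ R.phi := by
      unfold Rect.phi; unfold Rect.valid at hRv; omega
    have e1 : (2 : ℝ) ^ (R.wd * R.ht) ≤ (2 : ℝ) ^ (τ ^ 2) := by
      apply pow_le_pow_right₀ (by norm_num)
      rw [sq]
      apply Nat.mul_le_mul
      · unfold Rect.wd; unfold Rect.phi at h; omega
      · unfold Rect.ht; unfold Rect.phi at h; omega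
    have e2 : p ^ m ≤ p ^ (3 * δ + (1 / 2 - 3 / 2 * δ) * (R.phi : ℝ)) := by
      rw [← Real.rpow_natCast p m]
      apply Real.rpow_le_rpow_of_exponent_ge h0 hp1
      have q1 : (R.phi : ℝ) ≤ 2 * (m : ℝ) := by exact_mod_cast hm3
      have q2 : (2 : ℝ) ≤ (R.phi : ℝ) := by exact_mod_cast hphi2
      nlinarith
    rw [Real.rpow_add h0] at e2
    have hrp : 0 < p ^ ((1 / 2 - 3 / 2 * δ) * (R.phi : ℝ)) := Real.rpow_pos_of_pos h0 _
    calc (2 : ℝ) ^ (R.wd * R.ht) * p ^ m ≤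
          (2 : ℝ) ^ (τ ^ 2) * (p ^ (3 * δ) * p ^ ((1 / 2 - 3 / 2 * δ) * (R.phi : ℝ))) :=
          mul_le_mul e1 e2 (pow_nonneg h0' _) (by positivity)
      _ = ((2 : ℝ) ^ (τ ^ 2) * p ^ (3 * δ)) * p ^ ((1 / 2 - 3 / 2 * δ) * (R.phi : ℝ)) := by
          ring
      _ ≤ 1 * p ^ ((1 / 2 - 3 / 2 * δ) * (R.phi : ℝ)) :=
          mul_le_mul_of_nonneg_right hc3 hrp.le
      _ = _ := one_mul _
  · refine (small_fixed h0 h1 hδ hδ1 ℓ τ hℓ hτ hc1 hc2 R hRv hw hh h).trans ?_
    apply Real.rpow_le_rpow_of_exponent_ge h0 hp1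
    have : 0 ≤ (1 / 2 - 3 / 2 * δ) * (ℓ : ℝ) :=
      mul_nonneg (by linarith) (Nat.cast_nonneg _)
    linarith

end Pool.Agent.Helper42.Boot
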