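import Pool.Agent.Helper42.Boot.SumBound
import Pool.Agent.Helper42.Boot.Small

set_option autoImplicit false

namespace Pool.Agent.Helper42.Boot

open Finset

theorem occ_lower {p : ℝ} (h0 : 0 < p) (h1 : p ≤ 1) (n : ℕ) :
    1 / 2 * min (p * n) 1 ≤ 1 - (1 - p) ^ n := by
  have hn : (0 : ℝ) ≤ n := Nat.cast_nonneg _
  have e1 : (1 - p) ^ n ≤ Real.exp (-(p * n)) := by
    have h2 : 1 - p ≤ Real.exp (-p) := Real.one_sub_le_exp_neg p
    calc (1 - p) ^ n ≤ (Real.exp (-p)) ^ n := pow_le_pow_left₀ (by linarith) h2 n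
      _ = Real.exp (-(p * n)) := by
        rw [← Real.exp_nat_mul]
        congr 1
        ring
  have hy : 0 ≤ p * n := mul_nonneg h0.le hn
  rcases le_total (p * n) 1 with h | h
  · rw [min_eq_left h]
    have h3 : Real.exp (-(p * n)) ≤ 1 - p * n / 2 := by
      have hc := convexOn_exp.2 (Set.mem_univ (0 : ℝ)) (Set.mem_univ (-1 : ℝ))
        (by linarith : 0 ≤ 1 - p * n) hy (by ring)
      simp only [smul_eq_mul, mul_zero, zero_add, Real.exp_zero, mul_one, mul_neg] at hc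
      have h4 : Real.exp (-1) ≤ 1 / 2 := by
        rw [Real.exp_neg, one_div]
        apply inv_anti₀ (by norm_num)
        have := Real.add_one_le_exp (1 : ℝ)
        linarith
      nlinarith
    linarith
  · rw [min_eq_right h]
    have h3 : Real.exp (-(p * n)) ≤ Real.exp (-1) := Real.exp_le_exp.2 (by linarith)
    have h4 : Real.exp (-1) ≤ 1 / 2 := by
      rw [Real.exp_neg, one_div]
      apply inv_anti₀ (by norm_num)
      have := Real.add_one_le_exp (1 : ℝ)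
      linarith
    linarith

/-- The scales used in the proof and their basic relations. -/
structure Scales (p δ Λ q y t1 X ε0 : ℝ) (x0 k : ℕ) : Prop where
  h0 : 0 < p
  hp : p ≤ 1 / 2
  hδ : 0 < δ
  hδ1 : δ ≤ 1 / 20
  hΛ : Λ = -Real.log p
  hΛδ : 4 ≤ δ * Λ
  hq : q = qq p
  hy : y = p ^ (1 / 2 - 2 * δ)
  hy1 : y ≤ 1 / 40
  ht1 : t1 = p ^ (-(1 / 2) - 2 * δ)
  hX : X = p ^ (-(1 / 2) - δ)
  hXbig : 4 ≤ δ * X
  hx0ge : t1 ≤ (x0 : ℝ)
  hx0le : (x0 : ℝ) ≤ 2 * t1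
  hkle : (k : ℝ) ≤ δ * X / 2
  hkge : δ * X / 4 ≤ (k : ℝ)
  hε0 : ε0 = p * (x0 : ℝ)

namespace Scales

variable {p δ Λ q y t1 X ε0 : ℝ} {x0 k : ℕ} (S : Scales p δ Λ q y t1 X ε0 x0 k)

include S

theorem p_lt_one : p < 1 := by have := S.hp; linarith

theorem p_nonneg : 0 ≤ p := S.h0.le

theorem Λ80 : 80 ≤ Λ := by
  have h1 := S.hΛδ
  have h2 := S.hδ1
  have h3 := S.hδ
  by_contra hcon
  push Not at hcon
  nlinarith

theorem exp_neg_Λ : Real.exp (-Λ) = p := by rw [S.hΛ, neg_neg, Real.exp_log S.h0]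

theorem rpow_eq (s : ℝ) : p ^ s = Real.exp (-(Λ * s)) := by
  rw [Real.rpow_def_of_pos S.h0, S.hΛ]
  congr 1
  ring

theorem q_pos : 0 < q := by rw [S.hq]; exact qq_pos S.h0 S.p_lt_one

theorem p_le_q : p ≤ q := by rw [S.hq]; exact le_qq S.p_lt_one

theorem q_le : q ≤ 2 * p := by rw [S.hq]; exact qq_le_two S.h0 S.hp

theorem y_pos : 0 < y := by rw [S.hy]; exact Real.rpow_pos_of_pos S.h0 _

theorem t1_pos : 0 < t1 := by rw [S.ht1]; exact Real.rpow_pos_of_pos S.h0 _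

theorem X_pos : 0 < X := by rw [S.hX]; exact Real.rpow_pos_of_pos S.h0 _

theorem p_mul_t1 : p * t1 = y := by
  nth_rewrite 1 [← Real.rpow_one p]
  rw [S.ht1, S.hy, ← Real.rpow_add S.h0]
  congr 1
  ring

theorem X_eq : X = t1 * p ^ δ := by
  rw [S.hX, S.ht1, ← Real.rpow_add S.h0]
  congr 1
  ring

theorem pδ_pos : 0 < p ^ δ := Real.rpow_pos_of_pos S.h0 _

theorem pδ_le : p ^ δ ≤ 1 := Real.rpow_le_one S.p_nonneg S.p_lt_one.le S.hδ.le

theorem X_le_t1 : X ≤ t1 := by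
  have h1 := S.X_eq
  have h2 := S.pδ_le
  have h3 := S.t1_pos
  rw [h1]
  calc t1 * p ^ δ ≤ t1 * 1 := mul_le_mul_of_nonneg_left h2 h3.le
    _ = t1 := mul_one _

theorem X80 : 80 ≤ X := by
  have h1 := S.hXbig
  have h2 := S.hδ1
  have h3 := S.hδ
  by_contra hcon
  push Not at hcon
  nlinarith

theorem t80 : 80 ≤ t1 := S.X80.trans S.X_le_t1

theorem x0_pos : (0 : ℝ) < (x0 : ℝ) := by
  have h1 := S.t80
  have h2 := S.hx0ge
  linarith

theorem x0_one : 1 ≤ x0 := by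
  have h1 := S.t80
  have h2 := S.hx0ge
  have : (1 : ℝ) ≤ (x0 : ℝ) := by linarith
  exact_mod_cast this

theorem k_one : 1 ≤ k := by
  have h1 := S.hkge
  have h2 := S.hXbig
  have : (1 : ℝ) ≤ (k : ℝ) := by linarith
  exact_mod_cast this

theorem k_pos : (0 : ℝ) < (k : ℝ) := by exact_mod_cast S.k_one

theorem two_k_le : ((2 * k : ℕ) : ℝ) ≤ δ * X := by
  have := S.hkle
  push_cast
  linarith

theorem k_le_X : (k : ℝ) ≤ X := by
  have h1 := S.hkle
  have h2 := S.hδ1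
  have h3 := S.X_pos
  have h4 : δ * X ≤ (1 / 20) * X := mul_le_mul_of_nonneg_right h2 h3.le
  linarith

theorem k_le_x0 : (k : ℝ) ≤ (x0 : ℝ) := S.k_le_X.trans (S.X_le_t1.trans S.hx0ge)

theorem ε0_pos : 0 < ε0 := by
  rw [S.hε0]
  exact mul_pos S.h0 S.x0_pos

theorem y_le_ε0 : y ≤ ε0 := by
  rw [← S.p_mul_t1, S.hε0]
  exact mul_le_mul_of_nonneg_left S.hx0ge S.p_nonneg

theorem ε0_le : ε0 ≤ 2 * y := by
  rw [← S.p_mul_t1, S.hε0]
  have := mul_le_mul_of_nonneg_left S.hx0le S.p_nonneg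
  linarith

theorem two_p_le_ε0 : 2 * p ≤ ε0 := by
  rw [S.hε0]
  have h1 := S.t80
  have h2 := S.hx0ge
  have h3 := S.h0
  nlinarith

theorem gcost_neg {m : ℕ} (hm : Λ ≤ q * m) : gcost q x0 ε0 m ≤ 0 := by
  unfold gcost
  have h1 := S.q_pos
  have h2 := S.x0_pos
  have h3 := S.Λ80
  have h4 : Λ ≤ q * ((m : ℝ) + x0) := by
    have : 0 ≤ q * (x0 : ℝ) := by positivity
    linarith
  have h5 := ff_le_two_exp (by linarith : 1 ≤ q * ((m : ℝ) + x0))
  have h6 : Real.exp (-(q * ((m : ℝ) + x0))) ≤ p := by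
    rw [← S.exp_neg_Λ]
    exact Real.exp_le_exp.2 (by linarith)
  have h7 := S.two_p_le_ε0
  linarith

theorem exists_gcost : ∃ m : ℕ, gcost q x0 ε0 m ≤ 0 := by
  refine ⟨⌈Λ / q⌉₊, S.gcost_neg ?_⟩
  have h3 : Λ / q ≤ (⌈Λ / q⌉₊ : ℝ) := Nat.le_ceil _
  rw [div_le_iff₀ S.q_pos] at h3
  linarith

theorem s2k : q * (((2 * k : ℕ) : ℝ) + (x0 : ℝ)) ≤ 1 / 4 := by
  have h1 := S.two_k_le
  have h2 := S.hx0le
  have h3 := S.X_le_t1
  have h4 := S.hδ1
  have h5 := S.X_pos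
  have h6 := S.hy1
  have h8 := S.k_pos
  have h9 := S.x0_pos
  have h10 := S.h0
  have h7 : ((2 * k : ℕ) : ℝ) + x0 ≤ 3 * t1 := by
    have : δ * X ≤ 1 * X := mul_le_mul_of_nonneg_right (by linarith) h5.le
    linarith
  calc q * (((2 * k : ℕ) : ℝ) + (x0 : ℝ)) ≤ (2 * p) * (3 * t1) := by
        apply mul_le_mul S.q_le h7 (by positivity) (by positivity)
    _ = 6 * y := by rw [← S.p_mul_t1]; ring
    _ ≤ 1 / 4 := by linarith

/-- Bound for non-fat rectangles. -/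
theorem nonfat {w : ℕ → ℝ} (hwc : Cost w) {β : ℝ}
    (hβw : w 0 + β ≤ (1 / 2 - 3 / 2 * δ) * Λ)
    (ℓs τs : ℕ) (hℓs : 20 ≤ δ * ℓs) (hτs : (ℓs : ℝ) + 22 ≤ 3 * δ * τs)
    (hc1 : (2 : ℝ) ^ ((ℓs + 2 * τs + 2) ^ 2) * p ≤ 1)
    (hc2 : 2 * (3 : ℝ) ^ 8 * (2 : ℝ) ^ ((ℓs + τs) ^ 2) * p ^ 2 ≤ 1)
    (hc3 : (2 : ℝ) ^ (τs ^ 2) * p ^ (3 * δ) ≤ 1)
    (R : Rect) (hRv : R.valid)
    (hcase : (R.wd ≤ 2 * k ∨ R.ht ≤ 2 * k) ∨ ((R.wd : ℝ) ≤ X ∧ (R.ht : ℝ) ≤ X)) :
    Q p R ≤ Real.exp (-(Wf w R.wd R.ht) - β * (R.phi : ℝ)) := by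
  have h0 := S.h0
  have h0' := S.p_nonneg
  have hp1 := S.p_lt_one
  have hδ := S.hδ
  have hδ1 := S.hδ1
  have hX0 := S.X_pos
  have hΛ80 := S.Λ80
  have hWle : Wf w R.wd R.ht ≤ (R.phi : ℝ) * w 0 := hwc.le_w0 _ _
  have hφ0 : (0 : ℝ) ≤ (R.phi : ℝ) := Nat.cast_nonneg _
  have hφe : (R.phi : ℝ) = (R.wd : ℝ) + (R.ht : ℝ) := by
    unfold Rect.phi Rect.wd Rect.ht
    push_cast
    ring
  have hred : Wf w R.wd R.ht + β * (R.phi : ℝ) ≤ (1 / 2 - 3 / 2 * δ) * Λ * (R.phi : ℝ) := by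
    have := mul_le_mul_of_nonneg_right hβw hφ0
    linarith
  by_cases hboth : (R.wd : ℝ) ≤ X ∧ (R.ht : ℝ) ≤ X
  · rw [S.hX] at hboth
    refine (small_fixed' h0 S.hp hδ (by linarith) ℓs τs hℓs hτs hc1 hc2 hc3 R hRv hboth.1
      hboth.2).trans ?_
    rw [S.rpow_eq]
    apply Real.exp_le_exp.2
    linarith
  · have hthin : R.wd ≤ 2 * k ∨ R.ht ≤ 2 * k := by
      rcases hcase with h | h
      · exact h
      · exact absurd h hboth
    have h2k := S.two_k_le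
    set U := p ^ (1 / 2 - δ) with hU
    have hU0 : 0 ≤ U := Real.rpow_nonneg h0' _
    have hpXU : δ * X * p ≤ U := by
      have e : X * p = U := by
        rw [S.hX, hU]
        calc p ^ (-(1 / 2) - δ) * p = p ^ (-(1 / 2) - δ) * p ^ (1 : ℝ) := by rw [Real.rpow_one]
          _ = p ^ (1 / 2 - δ) := by
            rw [← Real.rpow_add h0]
            congr 1
            ring
      calc δ * X * p = δ * (X * p) := by ring
        _ = δ * U := by rw [e]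
        _ ≤ 1 * U := mul_le_mul_of_nonneg_right (by linarith) hU0
        _ = U := one_mul _
    have final : ∀ a b : ℕ, (b : ℝ) ≤ δ * X → X < (a : ℝ) → (R.phi : ℝ) = (a : ℝ) + b →
        Q p R ≤ U ^ a → Q p R ≤ Real.exp (-(Wf w R.wd R.ht) - β * (R.phi : ℝ)) := by
      intro a b hb ha hab hQ
      refine hQ.trans ?_
      have e1 : U ^ a = Real.exp (-(Λ * ((1 / 2 - δ) * a))) := by
        rw [hU, ← Real.rpow_natCast (p ^ (1 / 2 - δ)) a, ← Real.rpow_mul h0', S.rpow_eq]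
      rw [e1]
      apply Real.exp_le_exp.2
      have hbδ : (b : ℝ) ≤ δ * a := hb.trans (mul_le_mul_of_nonneg_left ha.le hδ.le)
      have h5 : (1 / 2 - 3 / 2 * δ) * Λ * (R.phi : ℝ) ≤ Λ * ((1 / 2 - δ) * a) := by
        rw [hab]
        have ha0 : (0 : ℝ) ≤ (a : ℝ) := Nat.cast_nonneg _
        have h6 : (1 / 2 - 3 / 2 * δ) * ((a : ℝ) + b) ≤ (1 / 2 - δ) * a := by
          have h7 : (1 / 2 - 3 / 2 * δ) * (b : ℝ) ≤ (1 / 2 - 3 / 2 * δ) * (δ * a) :=
            mul_le_mul_of_nonneg_left hbδ (by linarith)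
          have h8 : 0 ≤ δ * δ * (a : ℝ) := by positivity
          linarith
        have h9 := mul_le_mul_of_nonneg_left h6 (by linarith : 0 ≤ Λ)
        linarith
      linarith
    rcases hthin with hc | hc
    · -- width small
      have hwd : (R.wd : ℝ) ≤ δ * X := le_trans (by exact_mod_cast hc) h2k
      have hht : X < (R.ht : ℝ) := by
        by_contra hcon
        push Not at hcon
        apply hboth
        refine ⟨?_, hcon⟩
        have : δ * X ≤ 1 * X := mul_le_mul_of_nonneg_right (by linarith) hX0.le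
        linarith
      refine final R.ht R.wd hwd hht (by rw [hφe]; ring) ?_
      apply Q_thin_y h0' hp1.le hU0
      refine (one_sub_pow_le h0' hp1.le _).trans ?_
      refine le_trans ?_ hpXU
      exact mul_le_mul_of_nonneg_right hwd h0'
    · have hht : (R.ht : ℝ) ≤ δ * X := le_trans (by exact_mod_cast hc) h2k
      have hwd : X < (R.wd : ℝ) := by
        by_contra hcon
        push Not at hcon
        apply hboth
        refine ⟨hcon, ?_⟩
        have : δ * X ≤ 1 * X := mul_le_mul_of_nonneg_right (by linarith) hX0.le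
        linarith
      refine final R.wd R.ht hht hwd hφe ?_
      apply Q_thin_x h0' hp1.le hU0
      refine (one_sub_pow_le h0' hp1.le _).trans ?_
      refine le_trans ?_ hpXU
      exact mul_le_mul_of_nonneg_right hht h0'

theorem w0_le : wcost q x0 ε0 0 ≤ (1 / 2 - 2 * δ) * Λ + 1 := by
  have h1 := S.hδ1
  have h2 := S.Λ80
  have h3 := S.ε0_pos
  have h4 := S.hy1
  unfold wcost gcost
  apply max_le
  · have hpos := S.y_pos
    have h5 : y ≤ q * (((0 : ℕ) : ℝ) + x0) := by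
      rw [← S.p_mul_t1]
      push_cast
      rw [zero_add]
      exact mul_le_mul S.p_le_q S.hx0ge S.t1_pos.le S.q_pos.le
    have h6 := ff_anti hpos h5
    have h7 := ff_le hpos
    have h8 : Real.log y = -((1 / 2 - 2 * δ) * Λ) := by
      rw [S.hy, Real.log_rpow S.h0, S.hΛ]
      ring
    rw [h8] at h7
    have h9 := h6.trans h7
    calc ff (q * (((0 : ℕ) : ℝ) + x0)) - ε0 ≤ (- -((1 / 2 - 2 * δ) * Λ) + y) - ε0 :=
          sub_le_sub_right h9 _
      _ ≤ _ := by linarith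
  · have : 0 ≤ (1 / 2 - 2 * δ) * Λ := mul_nonneg (by linarith) (by linarith)
    linarith

theorem rho_ge (z : ℕ) (hz1 : 1 ≤ z) :
    (x0 : ℝ) / (4 * ((z : ℝ) + x0)) ≤ ff (q * z) - gcost q x0 ε0 z := by
  have hz0 : (0 : ℝ) < (z : ℝ) := by exact_mod_cast hz1
  have hq0 := S.q_pos
  have hx0pos := S.x0_pos
  have hq2 := S.q_le
  have h0 := S.h0
  have hε := S.ε0_pos
  unfold gcost
  rcases le_total (q * ((z : ℝ) + x0)) 2 with hc | hc
  · have h3 := ff_diff (s := q * z) (h := q * x0) (by positivity) (by positivity)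
    have e1 : q * z + q * x0 = q * ((z : ℝ) + x0) := by ring
    rw [e1] at h3
    have h9 : 0 < q * ((z : ℝ) + x0) := by positivity
    have hE := exp_sub_one_le (y := q * ((z : ℝ) + x0)) h9.le hc
    have hE0 : 0 < Real.exp (q * ((z : ℝ) + x0)) - 1 := by
      have := Real.add_one_lt_exp (ne_of_gt h9)
      linarith
    have h4 : (x0 : ℝ) / (4 * ((z : ℝ) + x0)) ≤
        q * x0 / (Real.exp (q * ((z : ℝ) + x0)) - 1) := by
      calc (x0 : ℝ) / (4 * ((z : ℝ) + x0)) = q * x0 / (4 * (q * ((z : ℝ) + x0))) := by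
            field_simp
        _ ≤ _ := div_le_div_of_nonneg_left (by positivity) hE0 hE
    linarith
  · have h3 := ff_anti (s := q * z) (t := q * ((z : ℝ) + x0)) (by positivity)
      (mul_le_mul_of_nonneg_left (by linarith) hq0.le)
    have h4 : 1 ≤ p * ((z : ℝ) + x0) := by
      have h5 : q * ((z : ℝ) + x0) ≤ 2 * p * ((z : ℝ) + x0) :=
        mul_le_mul_of_nonneg_right hq2 (by positivity)
      linarith
    have h5 : (x0 : ℝ) / (4 * ((z : ℝ) + x0)) ≤ ε0 := by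
      rw [div_le_iff₀ (by positivity), S.hε0]
      have h6 : (x0 : ℝ) * 1 ≤ x0 * (p * ((z : ℝ) + x0)) :=
        mul_le_mul_of_nonneg_left h4 hx0pos.le
      have h7 : 0 ≤ (x0 : ℝ) * (p * ((z : ℝ) + x0)) := by positivity
      linarith
    linarith

theorem ell_le {L : ℝ} (hL : L = 12 * Λ) (m : ℕ) :
    ((⌈2 * L / ((x0 : ℝ) / (4 * ((m : ℝ) + x0)))⌉₊ : ℕ) : ℝ) ≤ 97 * Λ * ((m : ℝ) + x0) / x0 := by
  have hm0 : (0 : ℝ) ≤ (m : ℝ) := Nat.cast_nonneg _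
  have hx0pos := S.x0_pos
  have hΛ80 := S.Λ80
  have hr : 0 < (x0 : ℝ) / (4 * ((m : ℝ) + x0)) := by positivity
  have h3 : ((⌈2 * L / ((x0 : ℝ) / (4 * ((m : ℝ) + x0)))⌉₊ : ℕ) : ℝ) <
      2 * L / ((x0 : ℝ) / (4 * ((m : ℝ) + x0))) + 1 :=
    Nat.ceil_lt_add_one (div_pos (by linarith) hr).le
  have h4 : 2 * L / ((x0 : ℝ) / (4 * ((m : ℝ) + x0))) = 96 * Λ * ((m : ℝ) + x0) / x0 := by
    rw [hL]
    field_simp
    ring
  have h3' : ((⌈2 * L / ((x0 : ℝ) / (4 * ((m : ℝ) + x0)))⌉₊ : ℕ) : ℝ) <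
      96 * Λ * ((m : ℝ) + x0) / x0 + 1 := by
    rw [← h4]; exact h3
  have h5 : 1 ≤ Λ * ((m : ℝ) + x0) / x0 := by
    rw [le_div_iff₀ hx0pos]
    have h6 : 1 * ((m : ℝ) + x0) ≤ Λ * ((m : ℝ) + x0) :=
      mul_le_mul_of_nonneg_right (by linarith) (by positivity)
    linarith
  have h6 : 97 * Λ * ((m : ℝ) + x0) / x0 = 96 * Λ * ((m : ℝ) + x0) / x0 +
      Λ * ((m : ℝ) + x0) / x0 := by ring
  rw [h6]
  linarith

theorem ell_le2 {m : ℕ} (hpm : p * (m : ℝ) ≤ 2 * Λ) :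
    97 * Λ * ((m : ℝ) + x0) / x0 ≤ 289 * Λ ^ 2 / y := by
  have hm0 : (0 : ℝ) ≤ (m : ℝ) := Nat.cast_nonneg _
  have hx0pos := S.x0_pos
  have hΛ80 := S.Λ80
  have hy0 := S.y_pos
  have hy1 := S.hy1
  rw [div_le_div_iff₀ hx0pos hy0]
  have h4 : (m : ℝ) * y ≤ 2 * Λ * x0 := by
    calc (m : ℝ) * y = (p * m) * t1 := by rw [← S.p_mul_t1]; ring
      _ ≤ (2 * Λ) * x0 := mul_le_mul hpm S.hx0ge S.t1_pos.le (by linarith)
  have h5 : (x0 : ℝ) * y ≤ x0 * (Λ / 100) :=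
    mul_le_mul_of_nonneg_left (by linarith) hx0pos.le
  have h6 : ((m : ℝ) + x0) * y ≤ (289 / 97) * (Λ * x0) := by
    have : 0 ≤ Λ * (x0 : ℝ) := by positivity
    linarith
  calc 97 * Λ * ((m : ℝ) + x0) * y = 97 * Λ * (((m : ℝ) + x0) * y) := by ring
    _ ≤ 97 * Λ * ((289 / 97) * (Λ * x0)) := mul_le_mul_of_nonneg_left h6 (by linarith)
    _ = 289 * Λ ^ 2 * x0 := by ring

end Scales

end Pool.Agent.Helper42.Boot
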